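import Pool.Agent.Work.MP_abe657_gt.Two.Defs

/-!
Module FrLap (M, identities in a field with derivations). The Laplacian `lapX` in an orthonormal frame.

Proof. Put `g0 = met d d X`, `g1 = met d e X`, `g2 = met e e X`, `D = g0 g2 - g1² = detM d e X ≠ 0`,
`δ = p1 q2 - p2 q1`. The matrix identity `Vᵀ g V = 1` (hypotheses `n1 n12 n2` of `Pr`), `V = ((p1, p2), (q1, q2))`,
gives `V Vᵀ = g⁻¹`, i.e. `g2 / D = p1² + p2²`, `-g1 / D = p1 q1 + p2 q2`, `g0 / D = q1² + q2²`, and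
`D δ² = 1`. [From `Vᵀ g V = 1`: `δ² D = 1` by taking determinants (`linear_combination`); the other three by
solving, e.g. `V Vᵀ g = 1`.]
By definition (`lapO_apply`, `lapFun`)
`-lapX f = d F1 + e F2 + (d D/(2D)) F1 + (e D/(2D)) F2`, `F1 = (g2 d f - g1 e f)/D = p1 E1 f + p2 E2 f`,
`F2 = (g0 e f - g1 d f)/D = q1 E1 f + q2 E2 f`. Hence
`-lapX f = E1 (E1 f) + E2 (E2 f) + div1 E1 f + div2 E2 f`, `div_i = d p_i + e q_i + E_i D/(2D)`. From
`D δ² = 1`: `E_i D/(2D) = -E_i δ/δ`. Finally, with `hp : E1 p2 - E2 p1 = c1 p1 + c2 p2`,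
`hq : E1 q2 - E2 q1 = c1 q1 + c2 q2`:
`E1 δ = E1 p1 q2 + p1 E1 q2 - E1 p2 q1 - p2 E1 q1 = δ (d p1 + e q1) + c2 δ` and
`E2 δ = δ (d p2 + e q2) - c1 δ`, so `div1 = -c2`, `div2 = c1`.
-/

set_option autoImplicit false

namespace Pool.Agent.Work.MP_abe657_gt.Two

/-- the statement for arbitrary coefficients -/
private theorem frlap_gen {Ω : Type} [Field Ω] [CharZero Ω] [Algebra ℂ Ω]
    (d e E1 E2 : Derivation ℂ Ω Ω) (g0 g1 g2 p1 q1 p2 q2 : Ω)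
    (h1 : ∀ f, E1 f = p1 * d f + q1 * e f) (h2 : ∀ f, E2 f = p2 * d f + q2 * e f)
    (n1 : g0 * p1 ^ 2 + 2 * g1 * p1 * q1 + g2 * q1 ^ 2 = 1)
    (n12 : g0 * p1 * p2 + g1 * (p1 * q2 + q1 * p2) + g2 * q1 * q2 = 0)
    (n2 : g0 * p2 ^ 2 + 2 * g1 * p2 * q2 + g2 * q2 ^ 2 = 1)
    (c1 c2 : Ω) (hp : E1 p2 - E2 p1 = c1 * p1 + c2 * p2)
    (hq : E1 q2 - E2 q1 = c1 * q1 + c2 * q2) (f : Ω) :
    lapFun d e g0 g1 g2 f = -(E1 (E1 f) + E2 (E2 f) - c2 * E1 f + c1 * E2 f) := by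
  have hDδ : (g0 * g2 - g1 ^ 2) * (p1 * q2 - p2 * q1) ^ 2 = 1 := by
    have e1 : (g0 * g2 - g1 ^ 2) * (p1 * q2 - p2 * q1) ^ 2 =
        (g0 * p1 ^ 2 + 2 * g1 * p1 * q1 + g2 * q1 ^ 2) *
          (g0 * p2 ^ 2 + 2 * g1 * p2 * q2 + g2 * q2 ^ 2) -
        (g0 * p1 * p2 + g1 * (p1 * q2 + q1 * p2) + g2 * q1 * q2) ^ 2 := by ring
    rw [e1, n1, n12, n2]
    ring
  have hg2 : g2 * (p1 * q2 - p2 * q1) ^ 2 = p1 ^ 2 + p2 ^ 2 := by
    linear_combination p1 ^ 2 * n2 - 2 * p1 * p2 * n12 + p2 ^ 2 * n1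
  have hg0 : g0 * (p1 * q2 - p2 * q1) ^ 2 = q1 ^ 2 + q2 ^ 2 := by
    linear_combination q1 ^ 2 * n2 - 2 * q1 * q2 * n12 + q2 ^ 2 * n1
  have hg1 : -g1 * (p1 * q2 - p2 * q1) ^ 2 = p1 * q1 + p2 * q2 := by
    linear_combination p1 * q1 * n2 - (p1 * q2 + p2 * q1) * n12 + p2 * q2 * n1
  have e1δ : E1 (p1 * q2 - p2 * q1) =
      (p1 * q2 - p2 * q1) * (d p1 + e q1) + c2 * (p1 * q2 - p2 * q1) := by
    simp only [map_sub, Derivation.leibniz, smul_eq_mul]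
    have a1 := h1 p1
    have a2 := h2 p1
    have a3 := h1 q1
    have a4 := h2 q1
    linear_combination q2 * a1 - q1 * a2 + p1 * hq - q1 * hp + p1 * a4 - p2 * a3
  have e2δ : E2 (p1 * q2 - p2 * q1) =
      (p1 * q2 - p2 * q1) * (d p2 + e q2) - c1 * (p1 * q2 - p2 * q1) := by
    simp only [map_sub, Derivation.leibniz, smul_eq_mul]
    have a1 := h1 p2
    have a2 := h2 p2
    have a3 := h1 q2
    have a4 := h2 q2
    linear_combination q2 * a1 - q1 * a2 - q2 * hp + p2 * hq + p1 * a4 - p2 * a3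
  set δ := p1 * q2 - p2 * q1 with hδ
  set D := g0 * g2 - g1 ^ 2 with hD
  have hδ0 : δ ≠ 0 := by
    intro h
    rw [h] at hDδ
    simp at hDδ
  have hD0 : D ≠ 0 := by
    intro h
    rw [h] at hDδ
    simp at hDδ
  have hinv : ∀ x : Ω, x / D = x * δ ^ 2 := by
    intro x
    rw [div_eq_iff hD0]
    linear_combination (-x) * hDδ
  have hlog : ∀ (A : Derivation ℂ Ω Ω), A D / (2 * D) = -(A δ / δ) := by
    intro A
    have h := congrArg A hDδ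
    rw [Derivation.leibniz, Derivation.map_one_eq_zero, smul_eq_mul, smul_eq_mul, sq,
      Derivation.leibniz, smul_eq_mul] at h
    have h3 : δ * (2 * (D * A δ) + δ * A D) = 0 := by linear_combination h
    have h4 := (mul_eq_zero.1 h3).resolve_left hδ0
    rw [← neg_div, div_eq_div_iff (mul_ne_zero two_ne_zero hD0) hδ0]
    linear_combination h4
  have hF1 : (g2 * d f - g1 * e f) / D = p1 * E1 f + p2 * E2 f := by
    rw [hinv, h1, h2]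
    linear_combination d f * hg2 + e f * hg1
  have hF2 : (g0 * e f - g1 * d f) / D = q1 * E1 f + q2 * E2 f := by
    rw [hinv, h1, h2]
    linear_combination e f * hg0 + d f * hg1
  have hEE1 := h1 (E1 f)
  have hEE2 := h2 (E2 f)
  have hd1 : E1 δ = p1 * d δ + q1 * e δ := h1 δ
  have hd2 : E2 δ = p2 * d δ + q2 * e δ := h2 δ
  have hL1 : p1 * (d δ / δ) + q1 * (e δ / δ) = d p1 + e q1 + c2 := by
    field_simp
    linear_combination e1δ - hd1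
  have hL2 : p2 * (d δ / δ) + q2 * (e δ / δ) = d p2 + e q2 - c1 := by
    field_simp
    linear_combination e2δ - hd2
  unfold lapFun
  rw [← hD, hF1, hF2, hlog, hlog]
  simp only [map_add, Derivation.leibniz, smul_eq_mul]
  linear_combination hEE1 + hEE2 + E1 f * hL1 + E2 f * hL2

theorem lap_frame {Ω : Type} [Field Ω] [CharZero Ω] [Algebra ℂ Ω] (d e E1 E2 : Derivation ℂ Ω Ω)
    (X : Fin 3 → Ω) (hD : detM d e X ≠ 0) (p1 q1 p2 q2 : Ω)
    (h1 : ∀ f, E1 f = p1 * d f + q1 * e f) (h2 : ∀ f, E2 f = p2 * d f + q2 * e f)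
    (n1 : met d d X * p1 ^ 2 + 2 * met d e X * p1 * q1 + met e e X * q1 ^ 2 = 1)
    (n12 : met d d X * p1 * p2 + met d e X * (p1 * q2 + q1 * p2) + met e e X * q1 * q2 = 0)
    (n2 : met d d X * p2 ^ 2 + 2 * met d e X * p2 * q2 + met e e X * q2 ^ 2 = 1)
    (c1 c2 : Ω) (hp : E1 p2 - E2 p1 = c1 * p1 + c2 * p2)
    (hq : E1 q2 - E2 q1 = c1 * q1 + c2 * q2) (f : Ω) :
    lapX d e X f = -(E1 (E1 f) + E2 (E2 f) - c2 * E1 f + c1 * E2 f) := by
  exact frlap_gen d e E1 E2 _ _ _ p1 q1 p2 q2 h1 h2 n1 n12 n2 c1 c2 hp hq f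

end Pool.Agent.Work.MP_abe657_gt.Two
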