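import Pool.Agent.Work.MP_abe657_gt.Two.GenA

/-!
Module GenB (L, algebra in a field with derivations). From the scalar system `Sys` to the data `Gen`.

Choices: `D1 = (E1 A)⁻¹ • E1`, `D2 = (E2 A)⁻¹ • E2`, `m = (k1 - k2)/2` (so `k1 = A + m`, `k2 = A - m`,
`k1 + A = 2A + m`, `k2 + A = 2A - m`), `a1 = (E1 A)²`, `a2 = (E2 A)²`, `n = 1 + 4 m g1 / E2 A`; then
`g1 = (n - 1) E2 A / (4m)` and, by the third claim of `gen_first`, `g2 = -(n + 1) E1 A / (4m)`.

Proof of the fields (write `α1 = E1 A`, `α2 = E2 A`):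
`E1 k2 = 2m g2 = -(n+1) α1/2`, `E1 k1 = 2 α1 - E1 k2`, `E2 k1 = 2m g1 = (n-1) α2/2`, `E2 k2 = 2 α2 - E2 k1`:
this is `dm1, dm2`. `dP1, dP2`: `p1, p2, t1, t2`. `da21`: `E1 α2 = -g1 α1`; `da12`: `E2 α1 = g2 α2`.
`da11`: apply `E1` to `t1` and use `v11`, `t2`: `E1(k1 + A) α1 + (k1 + A) E1 α1 = β + P k1 + g1 (k2 + A) α2`,
with `E1 (k1 + A) = (n + 7) α1/2`. `da22`: apply `E2` to `t2` and use `v22`, `t1`.
`c0`: multiply `nrm` by `(2A + m)(2A - m)` and insert `da11`, `da22` (the terms are `linear_combination`; it is the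
negative of the stated equation).
`dn`: `E2 k1 = (n - 1) α2/2` and `E1 k2 = -(n+1) α1/2`; apply `comm` to `k2`:
`E1 (E2 k2) - E2 (E1 k2) = -g1 E1 k2 - g2 E2 k2` with `E2 k2 = (5 - n)... ` in the form
`E2 k2 = 2 α2 - (n - 1) α2/2`, and divide by `α1 α2`; the result is `D1 n - D2 n = -3 n/m`.
`gauss`: the Gauss equation of `Sys` with the above `g1, g2`, multiplied by `-4m` (and `E1 m = (n+3) α1/2`,
`E2 m = (n-3) α2/2`, `E1 α1 = D1 a1/2`, `E2 α2 = D2 a2/2`, `D1 n = E1 n/α1`).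
-/

set_option autoImplicit false

namespace Pool.Agent.Work.MP_abe657_gt.Two

private lemma der_two {Ω : Type} [Field Ω] [Algebra ℂ Ω] (E : Derivation ℂ Ω Ω) (f : Ω) :
    E (2 * f) = 2 * E f := by
  rw [two_mul, map_add, two_mul]

private lemma der_sub_one {Ω : Type} [Field Ω] [Algebra ℂ Ω] (E : Derivation ℂ Ω Ω) (f : Ω) :
    E (f - 1) = E f := by
  rw [map_sub, Derivation.map_one_eq_zero, sub_zero]

private lemma der_add_one {Ω : Type} [Field Ω] [Algebra ℂ Ω] (E : Derivation ℂ Ω Ω) (f : Ω) :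
    E (f + 1) = E f := by
  rw [map_add, Derivation.map_one_eq_zero, add_zero]

theorem gen_of_sys {Ω : Type} [Field Ω] [CharZero Ω] [Algebra ℂ Ω] (E1 E2 : Derivation ℂ Ω Ω)
    (k1 k2 g1 g2 A P w1 w2 : Ω) (a β : ℂ) (h : Sys E1 E2 k1 k2 g1 g2 A P w1 w2 a β)
    (hk : k1 ≠ k2) (hA1 : E1 A ≠ 0) (hA2 : E2 A ≠ 0) :
    ∃ (D1 D2 : Derivation ℂ Ω Ω) (m n a1 a2 : Ω), Gen D1 D2 A m P n a1 a2 a β := by
  obtain ⟨f1, f2, f3, f4, f5⟩ := gen_first E1 E2 k1 k2 g1 g2 A P w1 w2 a β h hk hA1 hA2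
  obtain ⟨m, hm⟩ : ∃ m, m = A - k2 := ⟨_, rfl⟩
  have hk2 : k2 = A - m := by rw [hm]; ring
  have hk1 : k1 = A + m := by linear_combination -h.mean - hk2
  have hm0 : m ≠ 0 := by
    rintro rfl
    apply hk
    rw [hk1, hk2]; ring
  obtain ⟨α1, hα1⟩ : ∃ α1, α1 = E1 A := ⟨_, rfl⟩
  obtain ⟨α2, hα2⟩ : ∃ α2, α2 = E2 A := ⟨_, rfl⟩
  rw [← hα1] at hA1
  rw [← hα2] at hA2
  have h2 : (2 : Ω) ≠ 0 := two_ne_zero
  have h4 : (4 : Ω) ≠ 0 := by norm_num
  obtain ⟨n, hn⟩ : ∃ n, n = 1 + 4 * m * g1 / α2 := ⟨_, rfl⟩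
  have hg1 : 4 * m * g1 = (n - 1) * α2 := by rw [hn]; field_simp; ring
  have f3' : 2 * m * (g1 * α1 + g2 * α2) + α1 * α2 = 0 := by
    have := f3
    rw [← hα1, ← hα2, hk1, hk2] at this
    linear_combination this
  have hg2 : 4 * m * g2 = -((n + 1) * α1) := by
    apply mul_right_cancel₀ hA2
    linear_combination 2 * f3' - α1 * hg1
  rw [← hα1, ← hα2] at f1 f2
  have mA1 : 2 * A + m ≠ 0 := by
    have := f4
    rw [hk1] at this
    intro h0; apply this; linear_combination h0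
  have mA2 : 2 * A - m ≠ 0 := by
    have := f5
    rw [hk2] at this
    intro h0; apply this; linear_combination h0
  -- derivatives of m
  have c1 : E1 k2 = 2 * m * g2 := by rw [h.cod1, hk1, hk2]; ring
  have c2 : E2 k1 = 2 * m * g1 := by rw [h.cod2, hk1, hk2]; ring
  have dm1 : 2 * E1 m = (n + 3) * α1 := by
    have : E1 m = α1 - E1 k2 := by rw [hm, map_sub, hα1]
    rw [this, c1]
    linear_combination -hg2
  have dm2 : 2 * E2 m = (n - 3) * α2 := by
    have h1 : m = k1 - A := by rw [hk1]; ring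
    have : E2 m = E2 k1 - α2 := by
      conv_lhs => rw [h1]
      rw [map_sub, hα2]
    rw [this, c2]
    linear_combination hg1
  -- the derivatives of α1 in direction E1
  have t1 := h.t1
  have t2 := h.t2
  rw [← hα1, hk1] at t1
  rw [← hα2, hk2] at t2
  have x1 : 2 * (2 * A + m) * E1 α1 = 2 * (algebraMap ℂ Ω β + P * (A + m)) - (n + 7) * α1 ^ 2
      + 2 * g1 * ((2 * A - m) * α2) := by
    have e := h.v11
    rw [← t1, ← t2, hk1] at e
    have e2 : E1 ((A + m + A) * α1) = (A + m + A) * E1 α1 + α1 * (2 * α1 + E1 m) := by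
      rw [Derivation.leibniz, smul_eq_mul, smul_eq_mul, map_add, map_add, ← hα1]
      ring
    rw [e2] at e
    linear_combination 2 * e - α1 * dm1
  have x2 : 2 * (2 * A - m) * E2 α2 = 2 * (algebraMap ℂ Ω β + P * (A - m)) - (7 - n) * α2 ^ 2
      - 2 * g2 * ((2 * A + m) * α1) := by
    have e := h.v22
    rw [← t1, ← t2, hk2] at e
    have e2 : E2 ((A - m + A) * α2) = (A - m + A) * E2 α2 + α2 * (2 * α2 - E2 m) := by
      rw [Derivation.leibniz, smul_eq_mul, smul_eq_mul, map_add, map_sub, ← hα2]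
      ring
    rw [e2] at e
    linear_combination 2 * e + α2 * dm2
  -- Codazzi compatibility
  have y1 : 2 * E1 (E2 k1) = E1 n * α2 + (n - 1) * E1 α2 := by
    have e : 2 * E2 k1 = (n - 1) * α2 := by rw [c2]; linear_combination hg1
    have e2 := congrArg E1 e
    rw [der_two, Derivation.leibniz, der_sub_one, smul_eq_mul, smul_eq_mul] at e2
    rw [e2]; ring
  have y2 : 2 * E2 (E1 k2) = -(E2 n * α1 + (n + 1) * E2 α1) := by
    have e : 2 * E1 k2 = -((n + 1) * α1) := by rw [c1]; linear_combination hg2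
    have e2 := congrArg E2 e
    rw [der_two, map_neg, Derivation.leibniz, der_add_one, smul_eq_mul, smul_eq_mul] at e2
    rw [e2]; ring
  have y3 : E1 (E2 k2) = 2 * E1 α2 - E1 (E2 k1) := by
    have e : k2 = 2 * A - k1 := by rw [hk1, hk2]; ring
    conv_lhs => rw [e]
    rw [map_sub, der_two, map_sub, der_two, ← hα2]
  have y4 : E2 k2 = 2 * α2 - E2 k1 := by
    have e : k2 = 2 * A - k1 := by rw [hk1, hk2]; ring
    conv_lhs => rw [e]
    rw [map_sub, der_two, ← hα2]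
  have y5 : α2 * E1 n - α1 * E2 n = -6 * (g1 * α1 - g2 * α2) := by
    have e := h.comm k2
    rw [y3, y4] at e
    linear_combination -2 * e - y1 - y2 - (n - 5) * f1 + (n + 1) * f2 + 2 * g1 * c1
      - 2 * g2 * c2 + g1 * hg2 - g2 * hg1
  have y6 : 4 * m * (α2 * E1 n - α1 * E2 n) = -12 * n * (α1 * α2) := by
    linear_combination 4 * m * y5 - 6 * α1 * hg1 + 6 * α2 * hg2
  -- Gauss
  have z1 : 4 * m * E1 g2 = -(E1 n * α1 + (n + 1) * E1 α1) - 4 * g2 * E1 m := by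
    have e2 := congrArg E1 hg2
    have e3 : E1 (4 * m * g2) = 4 * m * E1 g2 + 4 * g2 * E1 m := by
      have : (4 : Ω) * m * g2 = 2 * (2 * (m * g2)) := by ring
      rw [this, der_two, der_two, Derivation.leibniz, smul_eq_mul, smul_eq_mul]; ring
    rw [e3, map_neg, Derivation.leibniz, der_add_one, smul_eq_mul, smul_eq_mul] at e2
    linear_combination e2
  have z2 : 4 * m * E2 g1 = (E2 n * α2 + (n - 1) * E2 α2) - 4 * g1 * E2 m := by
    have e2 := congrArg E2 hg1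
    have e3 : E2 (4 * m * g1) = 4 * m * E2 g1 + 4 * g1 * E2 m := by
      have : (4 : Ω) * m * g1 = 2 * (2 * (m * g1)) := by ring
      rw [this, der_two, der_two, Derivation.leibniz, smul_eq_mul, smul_eq_mul]; ring
    rw [e3, Derivation.leibniz, der_sub_one, smul_eq_mul, smul_eq_mul] at e2
    linear_combination e2
  have z3 : 4 * m * (E1 n * α1 + E2 n * α2) = 4 * m * (4 * m * ((A + m) * (A - m)))
      - 4 * m * (n + 1) * E1 α1 - 4 * m * (n - 1) * E2 α2 + (n + 1) * (3 * n + 7) * α1 ^ 2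
      + (n - 1) * (3 * n - 7) * α2 ^ 2 := by
    have e := h.gauss
    rw [hk1, hk2] at e
    linear_combination 4 * m * (z1 - z2 - 4 * m * e) - 4 * m * (2 * g2 * dm1 - 2 * g1 * dm2)
      + 4 * m * (g1 * hg1 + g2 * hg2) + (n - 1) * α2 * hg1 - (n + 1) * α1 * hg2
      - 2 * (n + 3) * α1 * hg2 + 2 * (n - 3) * α2 * hg1
  -- solved forms
  have s1 : g1 = (n - 1) * α2 / (4 * m) := by
    rw [eq_div_iff (mul_ne_zero h4 hm0)]; linear_combination hg1
  have s2 : g2 = -((n + 1) * α1) / (4 * m) := by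
    rw [eq_div_iff (mul_ne_zero h4 hm0)]; linear_combination hg2
  have dm1' : E1 m = (n + 3) * α1 / 2 := by
    rw [eq_div_iff h2]; linear_combination dm1
  have dm2' : E2 m = (n - 3) * α2 / 2 := by
    rw [eq_div_iff h2]; linear_combination dm2
  have D1f : ∀ f, (α1⁻¹ • E1 : Derivation ℂ Ω Ω) f = α1⁻¹ * E1 f := by intro f; simp
  have D2f : ∀ f, (α2⁻¹ • E2 : Derivation ℂ Ω Ω) f = α2⁻¹ * E2 f := by intro f; simp
  have sq1 : ∀ (E : Derivation ℂ Ω Ω) (f : Ω), E (f ^ 2) = 2 * f * E f := by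
    intro E f
    rw [sq, Derivation.leibniz, smul_eq_mul]; ring
  have x1' : E1 α1 = (2 * (algebraMap ℂ Ω β + P * (A + m)) - (n + 7) * α1 ^ 2
      + (n - 1) / (2 * m) * ((2 * A - m) * α2 ^ 2)) / (2 * (2 * A + m)) := by
    rw [eq_div_iff (mul_ne_zero h2 mA1)]
    have e : 2 * g1 * ((2 * A - m) * α2) = (n - 1) / (2 * m) * ((2 * A - m) * α2 ^ 2) := by
      rw [s1]; field_simp; ring
    rw [← e]
    linear_combination x1
  have x2' : E2 α2 = (2 * (algebraMap ℂ Ω β + P * (A - m)) - (7 - n) * α2 ^ 2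
      + (n + 1) / (2 * m) * ((2 * A + m) * α1 ^ 2)) / (2 * (2 * A - m)) := by
    rw [eq_div_iff (mul_ne_zero h2 mA2)]
    have e : -(2 * g2 * ((2 * A + m) * α1)) = (n + 1) / (2 * m) * ((2 * A + m) * α1 ^ 2) := by
      rw [s2]; field_simp; ring
    rw [← e]
    linear_combination x2
  refine ⟨α1⁻¹ • E1, α2⁻¹ • E2, m, n, α1 ^ 2, α2 ^ 2, ⟨hm0, mA1, mA2, ?_, ?_, ?_, ?_, ?_, ?_, ?_,
    ?_, ?_, ?_, ?_, ?_, ?_⟩⟩
  · rw [D1f, ← hα1]; field_simp
  · rw [D2f, ← hα2]; field_simp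
  · rw [D1f, dm1']; field_simp
  · rw [D2f, dm2']; field_simp
  · rw [D1f, h.p1, ← t1, hk1]; field_simp; ring
  · rw [D2f, h.p2, ← t2, hk2]; field_simp; ring
  · rw [D1f, sq1, f1, s1]; field_simp; ring
  · rw [D2f, sq1, f2, s2]; field_simp; ring
  · rw [D1f, sq1, x1']; field_simp
  · rw [D2f, sq1, x2']; field_simp
  · rw [D1f, D2f]
    field_simp
    linear_combination (1 / 4 : Ω) * y6
  · rw [D1f, D2f, D1f, D2f, sq1, sq1]
    field_simp
    linear_combination z3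
  · have e := h.nrm
    rw [← hα1, ← hα2, hk1, hk2] at e
    linear_combination (2 * A + m) * (2 * A - m) * e - (2 * A - m) / 2 * x1 - (2 * A + m) / 2 * x2
      + (2 * A - m) / 2 * α2 * hg1 + (2 * A + m) / 2 * α1 * hg2

end Pool.Agent.Work.MP_abe657_gt.Two
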