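import Pool.Agent.Work.MP_abe657_gt.Two.GenC

/-!
Module GenD (M, one polynomial identity). The derivative of the relation `c0` in the direction `D2`, with
the constant `a` eliminated (the mirror image of `GenC`: `m → -m`, `n → -n`, `a1 ↔ a2`).

Proof. Let `C` be the left side of `c0` and `Q = A (2A + m)(2A - m)`, the coefficient of `a` in `C`.
`D2 C = 0` (as `C = 0`) and `D2 a = 0`. The derivative contains `m (a1 + a2) D2 n`; from `gauss` and `dn`:
`(a1 + a2) D2 n = G + 3 n a1/m`, `G` the right side of `gauss`. Then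
`(2A + m)(2A - m) A * D2 C - D2 Q * C = 0` does not contain `a`, and it is `-(2A + m)` times the claim
(use `da11, da12, da22, dm2, dP2, dA2`; clear the denominators `m`, `2A + m`, `2A - m`).
-/

set_option autoImplicit false

namespace Pool.Agent.Work.MP_abe657_gt.Two

/-- exchange of the two principal directions -/
theorem Gen.swap {Ω : Type} [Field Ω] [CharZero Ω] [Algebra ℂ Ω] {D1 D2 : Derivation ℂ Ω Ω}
    {A m P n a1 a2 : Ω} {a β : ℂ} (h : Gen D1 D2 A m P n a1 a2 a β) :
    Gen D2 D1 A (-m) P (-n) a2 a1 a β where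
  m0 := neg_ne_zero.2 h.m0
  A1 := by
    have := h.A2
    rwa [← sub_eq_add_neg]
  A2 := by
    have := h.A1
    rwa [sub_neg_eq_add]
  dA1 := h.dA2
  dA2 := h.dA1
  dm1 := by rw [map_neg, h.dm2]; ring
  dm2 := by rw [map_neg, h.dm1]; ring
  dP1 := by rw [h.dP2]; ring
  dP2 := by rw [h.dP1]; ring
  da21 := by
    have hm := h.m0
    rw [h.da12]; field_simp; ring
  da12 := by
    have hm := h.m0
    rw [h.da21]; field_simp; ring
  da11 := by
    have hm := h.m0
    have e : (-n - 1) / (2 * -m) = (n + 1) / (2 * m) := by field_simp; ring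
    rw [e]
    linear_combination h.da22
  da22 := by
    have hm := h.m0
    have e : (-n + 1) / (2 * -m) = (n - 1) / (2 * m) := by field_simp; ring
    rw [e]
    linear_combination h.da11
  dn := by
    have hm := h.m0
    rw [map_neg, map_neg]
    have e : -3 * -n / -m = -3 * n / m := by field_simp
    rw [e]
    linear_combination h.dn
  gauss := by
    have hm := h.m0
    rw [map_neg, map_neg]
    have e : ((-n + 1) * (3 * -n + 7) * a2 + (-n - 1) * (3 * -n - 7) * a1) / (4 * -m)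
        = -(((n + 1) * (3 * n + 7) * a1 + (n - 1) * (3 * n - 7) * a2) / (4 * m)) := by
      field_simp; ring
    rw [e]
    linear_combination -h.gauss
  c0 := by linear_combination h.c0

theorem gen_c2 {Ω : Type} [Field Ω] [CharZero Ω] [Algebra ℂ Ω] (D1 D2 : Derivation ℂ Ω Ω)
    (A m P n a1 a2 : Ω) (a β : ℂ) (h : Gen D1 D2 A m P n a1 a2 a β) :
    A * (80 * A ^ 5 + 16 * A ^ 4 * m * n - 160 * A ^ 4 * m - 8 * A ^ 3 * m ^ 2 * n
        + 52 * A ^ 3 * m ^ 2 - 4 * A ^ 2 * m ^ 3 * n + 40 * A ^ 2 * m ^ 3 + 2 * A * m ^ 4 * n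
        - 18 * A * m ^ 4 + 28 * A * algebraMap ℂ Ω β - 2 * m * n * algebraMap ℂ Ω β
        + 6 * m * algebraMap ℂ Ω β)
      + a2 * (-2 * A ^ 2 * n ^ 2 + 18 * A ^ 2 * n - 82 * A ^ 2 + 10 * A * m * n - 37 * A * m
        - m ^ 2 * n + 4 * m ^ 2)
      + a1 * (-2 * A ^ 2 * n ^ 2 + 2 * A ^ 2 * n - 2 * A ^ 2 + 10 * A * m * n + 19 * A * m
        - m ^ 2 * n - 4 * m ^ 2)
      + P * (36 * A ^ 3 + 2 * A ^ 2 * m * n - 22 * A ^ 2 * m - 16 * A * m ^ 2 + 4 * m ^ 3) = 0 := by
  have := gen_c1 D2 D1 A (-m) P (-n) a2 a1 a β h.swap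
  linear_combination this

end Pool.Agent.Work.MP_abe657_gt.Two
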