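import Pool.Agent.Work.MP_abe657_gt.Two.Defs

/-!
Module GenE (S, one polynomial identity). The derivative of `a1 + a2` along the level curves of the mean
curvature (direction `D1 - D2`).

Proof. `D1 a1 + D1 a2 - D2 a1 - D2 a2` by `da11, da21, da12, da22` (`2A + m`, `2A - m`, `m` are not `0`);
multiply by `(2A + m)(2A - m)`.
-/

set_option autoImplicit false

namespace Pool.Agent.Work.MP_abe657_gt.Two

theorem gen_ode {Ω : Type} [Field Ω] [CharZero Ω] [Algebra ℂ Ω] (D1 D2 : Derivation ℂ Ω Ω)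
    (A m P n a1 a2 : Ω) (a β : ℂ) (h : Gen D1 D2 A m P n a1 a2 a β) :
    (4 * A ^ 2 - m ^ 2) * (D1 (a1 + a2) - D2 (a1 + a2))
      = 4 * m * (A * P - algebraMap ℂ Ω β) + (6 * m - 4 * A * n) * (a1 + a2)
        - 16 * A * (a1 - a2) := by
  have hm := h.m0
  have hu : 2 * m * ((n - 1) / (2 * m)) = n - 1 := by field_simp
  have hv : 2 * m * ((n + 1) / (2 * m)) = n + 1 := by field_simp
  rw [map_add, map_add]
  linear_combination (2 * A - m) * h.da11 - (2 * A + m) * h.da22
    + (4 * A ^ 2 - m ^ 2) * (h.da21 - h.da12) - (2 * A - m) * a2 * hu - (2 * A + m) * a1 * hv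

end Pool.Agent.Work.MP_abe657_gt.Two
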