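import Pool.Agent.Work.MP_abe657_gt.Two.Defs

/-!
Module PolyConst (S). An element with derivative `3` is transcendental over the constants.

Proof. Induction on `n`: apply `T` to the relation; `T (∑ c i m^i) = ∑ c i (i * m^(i-1) * 3)`, a relation of
length `n` with the constants `3 (i+1) c (i+1)`; so `3 (n+1) c (n+1) = 0`. (For `n = 0`, `c 0 = 0`.)
-/

set_option autoImplicit false

namespace Pool.Agent.Work.MP_abe657_gt.Two

theorem top_coeff_zero {Ω : Type} [Field Ω] [CharZero Ω] [Algebra ℂ Ω] (T : Derivation ℂ Ω Ω)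
    (m : Ω) (hm : T m = 3) (n : ℕ) (c : ℕ → Ω) (hc : ∀ i, T (c i) = 0)
    (h : ∑ i ∈ Finset.range (n + 1), c i * m ^ i = 0) : c n = 0 := by
  sorry

end Pool.Agent.Work.MP_abe657_gt.Two
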