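import Pool.Agent.Work.MP_abe657_gt.Two.GenC
import Pool.Agent.Work.MP_abe657_gt.Two.GenD
import Pool.Agent.Work.MP_abe657_gt.Two.GenE
import Pool.Agent.Work.MP_abe657_gt.Two.PolyConst

/-!
Module GenF (M, polynomial identities). The generic case is impossible.

Proof. Let `T = D1 - D2` (a derivation), `w = m n`, `b = a1 + a2`, `δ = m (a1 - a2)`. Then `T m = 3`,
`T A = 0`, `T w = 0` (`dn`), `T P = -6 A m`, so `p0 = P + A m²` has `T p0 = 0`. Write `β` for its image.
(0) `A ≠ 0` (`D1 A = 1`).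
(1) `c0`: `(w - 6A) b + 4 δ = E` with
`E = -((12A² - 4m²) P + A (4β - 8A⁴ - 6A²m² + 2m⁴) + a A (4A² - m²))`.
(2) the sum of `gen_c1` and `gen_c2`, divided by `4A` and multiplied by `m²`:
`b (-A w² + (5w - 21A) m²) + δ (14 m² - 4 A w) = G` with
`G = -m² (P (18A² + A w - 8m²) + 40A⁵ + 8A⁴w + 26A³m² - 2A²w m² - 9A m⁴ + (14A - w) β)`.
(3) `gen_ode` times `m`: `(4A² - m²) m T b = 4m² (A P - β) + (6m² - 4A w) b - 16 A δ`.
Eliminate `δ`: (2) gives `3 w (m² - 4A²) b = 2 N`, `N = G - E (7m²/2 - A w)`; (3) gives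
`-(m² - 4A²) m T b = 4m² (A P - β) - 4 A E + 6 (m² - 4A²) b`. With `Q = m² - 4A²` apply `T` to
`3 w Q b = 2 N` (`T Q = 6m`): `3 w Q T b = 2 T N - 18 w m b`. Hence
`-Q m T N + 24 A² N = 6 w Q (m² (A P - β) - A E)`.
Insert `P = p0 - A m²`: then `E` and `N` are polynomials in `m` with coefficients killed by `T`, `N` has
degree `6` with leading coefficient `22 A`, `E` has degree `4`, `T N` is computed from `T m = 3` (leading term
`396 A m⁵`), so the relation is `∑ c_i m^i = 0` with `c_8 = -396 A` and `T c_i = 0`, `c_i = 0` for `i > 8`.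
By `top_coeff_zero`, `396 A = 0`. Contradiction.
-/

set_option autoImplicit false

namespace Pool.Agent.Work.MP_abe657_gt.Two

theorem gen_false {Ω : Type} [Field Ω] [CharZero Ω] [Algebra ℂ Ω] (D1 D2 : Derivation ℂ Ω Ω)
    (A m P n a1 a2 : Ω) (a β : ℂ) (h : Gen D1 D2 A m P n a1 a2 a β) : False := by
  sorry

end Pool.Agent.Work.MP_abe657_gt.Two
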