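import Pool.Agent.Work.MP_abe657_gt.Two.Defs

/-!
Module Lin1 (M, linear algebra of 2x2 forms). Two binary quadratic forms `g` (non degenerate), `h`
without common root are simultaneously diagonalisable.

Proof. The polynomial `χ(k) = det (h - k g) = D k² - T k + H` with `D = g0 g2 - g1²`,
`T = g0 h2 + g2 h0 - 2 g1 h1`, `H = h0 h2 - h1²` has discriminant `T² - 4 D H = disc ≠ 0` (`ring`).
Let `s ^ 2 = disc` (`Ω` algebraically closed, `IsAlgClosed.exists_pow_nat_eq`), `s ≠ 0`,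
`k1 = (T + s)/(2D)`, `k2 = (T - s)/(2D)`: two different roots of `χ`.
For each `k = k_i` there is a vector `V_i ≠ 0` with `(h - k g) V_i = 0`: if the symmetric matrix
`h - k g = ((x, y), (y, w))` (with `x w = y²`) is `0` any vector does it [then take `(1,0)`], otherwise take
`(y, -x)` if it is not zero, else (`x = y = 0`) `(1, 0)`.
`g(V1, V2) (k1 - k2) = h(V1, V2) - h(V1, V2) = 0`, so `g(V1, V2) = 0`.
`g(V1,V1) ≠ 0`: otherwise `g(V1, ·)` vanishes at `V1` and `V2`. `V1, V2` are linearly independent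
(if `V2 = c V1`, then `(k1 - k2) g V1 = 0`, so `g V1 = 0`, contradiction with `D ≠ 0`), so `g V1 = 0`,
contradiction. Same for `V2`. Divide `V_i` by a square root of `g(V_i, V_i)`.
-/

set_option autoImplicit false

namespace Pool.Agent.Work.MP_abe657_gt.Two

theorem principal {Ω : Type} [Field Ω] [CharZero Ω] [IsAlgClosed Ω] (g0 g1 g2 h0 h1 h2 : Ω)
    (hD : g0 * g2 - g1 ^ 2 ≠ 0) (hdisc : disc g0 g1 g2 h0 h1 h2 ≠ 0) :
    ∃ p1 q1 p2 q2 k1 k2 : Ω, k1 ≠ k2 ∧ Pr g0 g1 g2 h0 h1 h2 p1 q1 p2 q2 k1 k2 := by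
  sorry

end Pool.Agent.Work.MP_abe657_gt.Two
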