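import Pool.Agent.Work.MP_abe657_gt.Two.Defs

/-!
Module Lin2 (S, linear algebra of 2x2 forms). The umbilic case: `h` is proportional to `g`.

Proof. First an orthonormal basis of the non degenerate form `g`: if `g0 = 0 = g2` then `g1 ≠ 0`, use the
orthogonal vectors `(1, 1)` and `(1, -1)` (values `2 g1`, `-2 g1`); if `g0 ≠ 0` use `(1, 0)` and `(-g1, g0)`
(values `g0`, `g0 (g0 g2 - g1²)`); if `g2 ≠ 0` use `(0, 1)` and `(g2, -g1)`. Divide by square roots
(`IsAlgClosed.exists_pow_nat_eq`). Then `h = k g` for some `k` (`k = h_j / g_j` for a non zero `g_j`;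
all `h_i g_j = h_j g_i` by the hypotheses and `D ≠ 0`; if the chosen `g_j ≠ 0` this gives `h_i = k g_i`).
-/

set_option autoImplicit false

namespace Pool.Agent.Work.MP_abe657_gt.Two

theorem principal_umb {Ω : Type} [Field Ω] [CharZero Ω] [IsAlgClosed Ω] (g0 g1 g2 h0 h1 h2 : Ω)
    (hD : g0 * g2 - g1 ^ 2 ≠ 0) (e1 : g0 * h1 = g1 * h0) (e2 : g0 * h2 = g2 * h0)
    (e3 : g1 * h2 = g2 * h1) :
    ∃ p1 q1 p2 q2 k : Ω, Pr g0 g1 g2 h0 h1 h2 p1 q1 p2 q2 k k := by
  sorry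

end Pool.Agent.Work.MP_abe657_gt.Two
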