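import Pool.Agent.Work.MP_abe657_gt.Two.Defs

/-!
Module RotA (M, algebra in a field with derivations). From the scalar system with `E2 A = 0` to the
rotational system.

Choices: `D = (E1 A)⁻¹ • E1`, `z = k1 + A`, `V = w1²`. Write `α = E1 A`, `κ = k1 - k2`, `β` for its image;
`k1 = z - A`, `k2 = 3A - z`, `κ = 2z - 4A`.
Proof. `t2`: `w2 = 0`. `v11`: `E1 w1 = β + P k1`; `v22`: `g2 w1 = β + P k2`. `z ≠ 0`: otherwise `w1 = 0` (`t1`), so
`β + P k1 = 0 = β + P k2`, so `P = 0` (`k1 ≠ k2`) and `β = 0`, contradiction. `w1 = z α ≠ 0`.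
`dP`: `p1`. `dV`: `D V = 2 w1 E1 w1/α = 2 z (β + P k1)`.
`E1 z = 3 α - κ g2` (`2A = k1 + k2`, `cod1`). So `E1 w1 = E1 z α + z E1 α` gives
`z E1 α = β + P k1 - 3 α² + κ g2 α`. Multiply `nrm` (with `E2 A = 0`, so `E2 (E2 A) = 0`) by `z³` and use
`z α g2 = β + P k2`:
`3 V = z² (2β + 2 A P) + z κ (β + P k2) + z³ (a A - A (k1² + k2²) + 2 P)` — this is `v4` after inserting
`k1, k2` (`ring`), and `D z V = (3 - κ g2/α) V = 3 V - κ z (β + P k2)` — this is `v5`.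
-/

set_option autoImplicit false

namespace Pool.Agent.Work.MP_abe657_gt.Two

theorem rot_of_sys {Ω : Type} [Field Ω] [CharZero Ω] [Algebra ℂ Ω] (E1 E2 : Derivation ℂ Ω Ω)
    (k1 k2 g1 g2 A P w1 w2 : Ω) (a β : ℂ) (h : Sys E1 E2 k1 k2 g1 g2 A P w1 w2 a β)
    (hβ : β ≠ 0) (hk : k1 ≠ k2) (hA1 : E1 A ≠ 0) (hA2 : E2 A = 0) :
    ∃ (D : Derivation ℂ Ω Ω) (z V : Ω), Rot D A z P V a β := by
  obtain ⟨comm, mean, cod1, cod2, gauss, t1, t2, nrm, p1, p2, v11, v12, v21, v22⟩ := h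
  have hw2 : w2 = 0 := by rw [← t2, hA2, mul_zero]
  have hv11 : E1 w1 = algebraMap ℂ Ω β + P * k1 := by
    rw [hw2, mul_zero, sub_zero] at v11
    exact v11
  have hv22 : g2 * w1 = algebraMap ℂ Ω β + P * k2 := by
    rw [hw2, map_zero, zero_add] at v22
    exact v22
  have hB : algebraMap ℂ Ω β ≠ 0 := by
    rw [Ne, map_eq_zero]
    exact hβ
  have hnrm : E1 (E1 A) + g2 * E1 A = A * (k1 ^ 2 + k2 ^ 2) - algebraMap ℂ Ω a * A - 2 * P := by
    rw [hA2, map_zero, mul_zero, sub_zero, add_zero] at nrm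
    exact nrm
  have hk2 : k2 = 2 * A - k1 := by linear_combination -mean
  have h2A : 2 * E1 A = E1 k1 + E1 k2 := by
    have h := congrArg E1 mean
    rw [two_mul, map_add, map_add] at h
    rw [two_mul]
    exact h
  have hz0 : k1 + A ≠ 0 := by
    intro hz
    have hw1 : w1 = 0 := by rw [← t1, hz, zero_mul]
    have e1 : algebraMap ℂ Ω β + P * k1 = 0 := by rw [← hv11, hw1, map_zero]
    have e2 : algebraMap ℂ Ω β + P * k2 = 0 := by rw [← hv22, hw1, mul_zero]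
    have e3 : P * (k1 - k2) = 0 := by linear_combination e1 - e2
    have e4 : P = 0 := (mul_eq_zero.1 e3).resolve_right (sub_ne_zero.2 hk)
    rw [e4, zero_mul, add_zero] at e1
    exact hB e1
  have hE1z : E1 (k1 + A) = 3 * E1 A - (k1 - k2) * g2 := by
    rw [map_add]
    linear_combination (-1 : Ω) * h2A - cod1
  have hmain : (k1 + A) * E1 (E1 A) = algebraMap ℂ Ω β + P * k1 - 3 * E1 A ^ 2
      + (k1 - k2) * g2 * E1 A := by
    have h := congrArg E1 t1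
    rw [Derivation.leibniz, hv11, hE1z, smul_eq_mul, smul_eq_mul] at h
    linear_combination h
  have hgw : g2 * ((k1 + A) * E1 A) = algebraMap ℂ Ω β + P * k2 := by rw [t1, hv22]
  have hv4 : 3 * w1 ^ 2 = A * (k1 + A) ^ 3 * (algebraMap ℂ Ω a - 2 * (k1 + A) ^ 2
      + 8 * A * (k1 + A) - 10 * A ^ 2)
      + 4 * (k1 + A) * ((k1 + A) - A) * (algebraMap ℂ Ω β + 3 * A * P) := by
    rw [← t1]
    subst hk2
    linear_combination (-(k1 + A) ^ 3) * hnrm + (k1 + A) ^ 2 * hmain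
      + ((k1 + A) ^ 2 + (k1 - (2 * A - k1)) * (k1 + A)) * hgw
  refine ⟨(E1 A)⁻¹ • E1, k1 + A, w1 ^ 2, hz0, ?_, ?_, ?_, hv4, ?_⟩
  · rw [Derivation.smul_apply, smul_eq_mul, inv_mul_cancel₀ hA1]
  · rw [Derivation.smul_apply, smul_eq_mul, p1, ← t1]
    field_simp
    ring
  · rw [Derivation.smul_apply, smul_eq_mul, sq, Derivation.leibniz, smul_eq_mul, hv11, ← t1]
    field_simp
    ring
  · rw [Derivation.smul_apply, smul_eq_mul, hE1z]
    have e1 : (E1 A)⁻¹ * (3 * E1 A - (k1 - k2) * g2) * w1 ^ 2 =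
        3 * w1 ^ 2 - (k1 - k2) * (k1 + A) * (g2 * ((k1 + A) * E1 A)) := by
      rw [← t1]
      field_simp
    rw [e1, hv4, hgw]
    subst hk2
    ring

end Pool.Agent.Work.MP_abe657_gt.Two
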