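import Pool.Agent.Work.MP_abe657_gt.Two.Defs

/-!
Module Emb (L, field theory). Embedding of the algebraic functions of `A` with the derivation `d/dA`.

Proof. `A` is transcendental over `ℂ` because `D A = 1`, and `A'` too. So there is a `ℂ`-isomorphism of
`ℂ⟮A⟯` with `RatFunc ℂ` (or `FractionRing ℂ[X]`) and an embedding `j : ℂ⟮A⟯ → K` over `ℂ` with `j A = A'`. Let `F` be
the subfield of all elements of `Ω` which are algebraic over `ℂ⟮A⟯` (`algebraicClosure ℂ⟮A⟯ Ω`). As `K` is
algebraically closed, `j` extends to `φ : F → K` (`IsAlgClosed.lift`). `D` maps `ℂ⟮A⟯` to itself and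
`D' ∘ j = j ∘ D` on `ℂ⟮A⟯` (both sides are derivations from `ℂ[A]`, quotients). For `x ∈ F` let `p` be the minimal
polynomial of `x` over `ℂ⟮A⟯`: `0 = D (p(x)) = p^D(x) + p'(x) D x`, where `p^D` has the coefficients `D p_i` and
`p'(x) ≠ 0` (characteristic 0), so `D x = -p^D(x)/p'(x) ∈ F`. The same identity holds for `φ x` in `K` and
`D'`, with the polynomials `j(p)`, `j(p^D) = (j p)^{D'}`, so `D' (φ x) = φ (D x)`.
It is convenient to state the result for a pair of elements only, as below: apply it to `x = z` and `P`.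
-/

set_option autoImplicit false

namespace Pool.Agent.Work.MP_abe657_gt.Two

open IntermediateField

open scoped Polynomial

/-- evaluation of polynomials at `A` -/
private noncomputable def emb_al {L : Type} [Field L] [Algebra ℂ L] (A : L) : ℂ[X] →+* L :=
  (Polynomial.aeval A : ℂ[X] →ₐ[ℂ] L).toRingHom

private theorem emb_al_apply {L : Type} [Field L] [Algebra ℂ L] (A : L) (p : ℂ[X]) :
    emb_al A p = Polynomial.aeval A p := rfl

private theorem emb_inj {L : Type} [Field L] [Algebra ℂ L] (D : Derivation ℂ L L) (A : L)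
    (hA : D A = 1) : Function.Injective (emb_al A) := by
  rw [injective_iff_map_eq_zero]
  intro p hp
  by_contra hne
  have hi : IsIntegral ℂ A := isAlgebraic_iff_isIntegral.1 ⟨p, hne, hp⟩
  have h1 := IsAlgClosed.degree_eq_one_of_irreducible ℂ (minpoly.irreducible hi)
  obtain ⟨c, hc⟩ := minpoly.mem_range_of_degree_eq_one ℂ A h1
  have h2 : D A = 0 := by
    rw [← hc]
    exact D.map_algebraMap c
  rw [hA] at h2
  exact one_ne_zero h2

/-- the derivative of a polynomial expression -/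
private theorem emb_der (p : ℂ[X][X]) : ∃ q : ℂ[X][X], ∀ (L : Type) [Field L] [Algebra ℂ L]
    (D : Derivation ℂ L L) (A : L), D A = 1 → ∀ x : L,
      D (Polynomial.eval₂ (emb_al A) x p) = Polynomial.eval₂ (emb_al A) x q +
        Polynomial.eval₂ (emb_al A) x (Polynomial.derivative p) * D x := by
  induction p using Polynomial.induction_on' with
  | add p p' hp hp' =>
    obtain ⟨q, hq⟩ := hp
    obtain ⟨q', hq'⟩ := hp'
    refine ⟨q + q', fun L _ _ D A hA x => ?_⟩
    simp only [Polynomial.eval₂_add, Polynomial.derivative_add, map_add]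
    rw [hq L D A hA x, hq' L D A hA x]
    ring
  | monomial n c =>
    refine ⟨Polynomial.monomial n (Polynomial.derivative c), fun L _ _ D A hA x => ?_⟩
    have h1 : D (emb_al A c) = emb_al A (Polynomial.derivative c) := by
      rw [emb_al_apply, emb_al_apply, Derivation.map_aeval, hA, smul_eq_mul, mul_one]
    rw [Polynomial.derivative_monomial, Polynomial.eval₂_monomial, Polynomial.eval₂_monomial,
      Polynomial.eval₂_monomial, Derivation.leibniz, Derivation.leibniz_pow, h1, map_mul,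
      map_natCast]
    simp only [smul_eq_mul, nsmul_eq_mul]
    ring

theorem exists_emb {Ω K : Type} [Field Ω] [CharZero Ω] [Algebra ℂ Ω] [Field K] [CharZero K]
    [Algebra ℂ K] [IsAlgClosed K] (D : Derivation ℂ Ω Ω) (D' : Derivation ℂ K K) (A : Ω) (A' : K)
    (hA : D A = 1) (hA' : D' A' = 1) :
    ∃ (F : Subalgebra ℂ Ω) (φ : F →ₐ[ℂ] K), Function.Injective φ ∧ (∀ x, IsAlgebraic ℂ⟮A⟯ x → x ∈ F) ∧
      (∀ x (hx : x ∈ F), ∃ hD : D x ∈ F, D' (φ ⟨x, hx⟩) = φ ⟨D x, hD⟩) ∧
      ∃ hm : A ∈ F, φ ⟨A, hm⟩ = A' := by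
  classical
  letI aΩ : Algebra ℂ[X] Ω := (emb_al A).toAlgebra
  letI aK : Algebra ℂ[X] K := (emb_al A').toAlgebra
  have hmΩ : ∀ p : ℂ[X], algebraMap ℂ[X] Ω p = Polynomial.aeval A p := fun p => rfl
  have hmK : ∀ p : ℂ[X], algebraMap ℂ[X] K p = Polynomial.aeval A' p := fun p => rfl
  haveI tΩ : IsScalarTower ℂ ℂ[X] Ω := IsScalarTower.of_algebraMap_eq fun c => by
    rw [hmΩ, Polynomial.algebraMap_eq, Polynomial.aeval_C]
  haveI tK : IsScalarTower ℂ ℂ[X] K := IsScalarTower.of_algebraMap_eq fun c => by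
    rw [hmK, Polynomial.algebraMap_eq, Polynomial.aeval_C]
  have iΩ : Function.Injective (algebraMap ℂ[X] Ω) := emb_inj D A hA
  have iK : Function.Injective (algebraMap ℂ[X] K) := emb_inj D' A' hA'
  haveI fΩ : Module.IsTorsionFree ℂ[X] Ω := Module.isTorsionFree_iff_algebraMap_injective.2 iΩ
  haveI fK : Module.IsTorsionFree ℂ[X] K := Module.isTorsionFree_iff_algebraMap_injective.2 iK
  let F0 : Subalgebra ℂ[X] Ω := Subalgebra.algebraicClosure ℂ[X] Ω
  haveI fF : Module.IsTorsionFree ℂ[X] F0 := by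
    rw [Module.isTorsionFree_iff_algebraMap_injective]
    intro p q hpq
    exact iΩ (congrArg Subtype.val hpq)
  let φ : F0 →ₐ[ℂ[X]] K := IsAlgClosed.lift
  have hmem : ∀ x, x ∈ F0 ↔ IsAlgebraic ℂ[X] x := fun x => Iff.rfl
  have hinvm : ∀ x, x ∈ F0 → x⁻¹ ∈ F0 := fun x hx => IsAlgebraic.inv hx
  have hne : ∀ x : F0, x ≠ 0 → φ x ≠ 0 := by
    intro x hx h0
    have hx' : (x : Ω) ≠ 0 := fun h => hx (Subtype.ext h)
    have h1 : x * ⟨(x : Ω)⁻¹, hinvm _ x.2⟩ = 1 := Subtype.ext (mul_inv_cancel₀ hx')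
    have h2 := congrArg φ h1
    rw [map_mul, h0, zero_mul, map_one] at h2
    exact zero_ne_one h2
  -- evaluation in `F0`
  have hev : ∀ (x : F0) (p : ℂ[X][X]), ((Polynomial.aeval x p : F0) : Ω) =
      Polynomial.eval₂ (emb_al A) (x : Ω) p := by
    intro x p
    have h1 := Polynomial.aeval_algHom_apply F0.val x p
    exact h1.symm
  have hevK : ∀ (x : F0) (p : ℂ[X][X]), φ (Polynomial.aeval x p) =
      Polynomial.eval₂ (emb_al A') (φ x) p := by
    intro x p
    exact (Polynomial.aeval_algHom_apply φ x p).symm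
  -- the main point
  have key : ∀ x (hx : x ∈ F0), ∃ hD : D x ∈ F0, D' (φ ⟨x, hx⟩) = φ ⟨D x, hD⟩ := by
    intro x hx
    have hex : ∃ n : ℕ, ∃ p : ℂ[X][X], p ≠ 0 ∧ Polynomial.eval₂ (emb_al A) x p = 0 ∧
        p.natDegree = n := by
      obtain ⟨p, hp, hp0⟩ := (hmem x).1 hx
      exact ⟨_, p, hp, hp0, rfl⟩
    obtain ⟨p, hp, hp0, hpn⟩ := Nat.find_spec hex
    have hmin : ∀ r : ℂ[X][X], r.natDegree < p.natDegree → Polynomial.eval₂ (emb_al A) x r = 0 →
        r = 0 := by
      intro r hr hr0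
      by_contra hrne
      rw [hpn] at hr
      exact Nat.find_min hex hr ⟨r, hrne, hr0, rfl⟩
    have hdeg : p.natDegree ≠ 0 := by
      intro h0
      rw [Polynomial.eq_C_of_natDegree_eq_zero h0, Polynomial.eval₂_C] at hp0
      have h1 : p.coeff 0 = 0 := iΩ (hp0.trans (map_zero _).symm)
      apply hp
      rw [Polynomial.eq_C_of_natDegree_eq_zero h0, h1, Polynomial.C_0]
    have hu : Polynomial.eval₂ (emb_al A) x (Polynomial.derivative p) ≠ 0 := by
      intro h0
      have h1 := hmin _ (Polynomial.natDegree_derivative_lt hdeg) h0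
      exact hdeg (Polynomial.derivative_eq_zero.1 h1)
    obtain ⟨q, hq⟩ := emb_der p
    have e1 := hq Ω D A hA x
    rw [hp0, map_zero] at e1
    let X0 : F0 := ⟨x, hx⟩
    let u : F0 := Polynomial.aeval X0 (Polynomial.derivative p)
    let v : F0 := Polynomial.aeval X0 q
    have hu' : (u : Ω) = Polynomial.eval₂ (emb_al A) x (Polynomial.derivative p) := hev X0 _
    have hv' : (v : Ω) = Polynomial.eval₂ (emb_al A) x q := hev X0 _
    rw [← hu', ← hv'] at e1
    rw [← hu'] at hu
    have hDx : D x = -(v : Ω) * (u : Ω)⁻¹ := by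
      rw [eq_mul_inv_iff_mul_eq₀ hu]
      linear_combination -e1
    have hD : D x ∈ F0 := by
      rw [hDx]
      exact F0.mul_mem (F0.neg_mem v.2) (hinvm _ u.2)
    refine ⟨hD, ?_⟩
    have e2 := hq K D' A' hA' (φ X0)
    have h0 : Polynomial.eval₂ (emb_al A') (φ X0) p = 0 := by
      rw [← hevK]
      have : (Polynomial.aeval X0 p : F0) = 0 := Subtype.ext ((hev X0 p).trans hp0)
      rw [this, map_zero]
    rw [h0, map_zero, ← hevK, ← hevK] at e2
    have h1 : (⟨D x, hD⟩ : F0) * u = -v := by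
      apply Subtype.ext
      change D x * (u : Ω) = -(v : Ω)
      linear_combination -e1
    have h2 := congrArg φ h1
    rw [map_mul, map_neg] at h2
    have h3 : φ u ≠ 0 := hne u fun h => hu (congrArg Subtype.val h)
    apply mul_right_cancel₀ h3
    change D' (φ X0) * φ u = _
    rw [h2]
    linear_combination -e2
  refine ⟨F0.restrictScalars ℂ, φ.restrictScalars ℂ, ?_, ?_, key, ?_⟩
  · rw [injective_iff_map_eq_zero]
    intro x hx
    by_contra h
    exact hne x h hx
  · intro x hx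
    change IsAlgebraic ℂ[X] x
    have h1 : IsAlgebraic (Algebra.adjoin ℂ {A}) x := by
      open scoped IntermediateField.algebraAdjoinAdjoin in
      exact (IsFractionRing.isAlgebraic_iff (Algebra.adjoin ℂ {A}) ℂ⟮A⟯ Ω).2 hx
    let f : ℂ[X] →+* Algebra.adjoin ℂ {A} :=
      (Polynomial.aeval (⟨A, Algebra.subset_adjoin rfl⟩ : Algebra.adjoin ℂ {A}) :
        ℂ[X] →ₐ[ℂ] Algebra.adjoin ℂ {A}).toRingHom
    have hfv : ∀ p, ((f p : Algebra.adjoin ℂ {A}) : Ω) = Polynomial.aeval A p := by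
      intro p
      exact (Polynomial.aeval_algHom_apply (Algebra.adjoin ℂ {A}).val
        (⟨A, Algebra.subset_adjoin rfl⟩ : Algebra.adjoin ℂ {A}) p).symm
    refine IsAlgebraic.of_ringHom_of_comp_eq (S := Algebra.adjoin ℂ {A}) (B := Ω) f
      (RingHom.id Ω) (a := x) h1 ?_ Function.injective_id ?_
    · rintro ⟨y, hy⟩
      rw [Algebra.adjoin_singleton_eq_range_aeval] at hy
      obtain ⟨p, hp⟩ := hy
      exact ⟨p, Subtype.ext ((hfv p).trans hp)⟩
    · exact RingHom.ext fun p => hfv p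
  · have hm : A = algebraMap ℂ[X] Ω Polynomial.X := by
      rw [hmΩ, Polynomial.aeval_X]
    have hmA : A ∈ F0 := by
      rw [hm]
      exact F0.algebraMap_mem _
    refine ⟨hmA, ?_⟩
    have h1 : (⟨A, hmA⟩ : F0) = algebraMap ℂ[X] F0 Polynomial.X := Subtype.ext hm
    change φ ⟨A, hmA⟩ = A'
    rw [h1, AlgHom.commutes, hmK, Polynomial.aeval_X]

end Pool.Agent.Work.MP_abe657_gt.Two
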