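import Pool.Agent.Work.MP_abe657_gt.Two.KkLe

/-!
Module KkLowA (S-M, leading terms). `z = ζ A^e + ...`, `e < -2`, with `P = p + ...`, `p ≠ 0` is impossible.

Proof (`L e c` means `Le _ e c`; lower order terms by `Le.mono`). `z - A`: `L 1 (-1)`;
`a - 2z² + 8Az - 10A²`: `L 2 (-10)`; `A z³ (..)`: `L (3e+3) _`, hence `L (e+2) 0`. `β + 3AP`: `L 1 (3p)`. So `3V`
(`v4`) is `L (e+2) (-12 p ζ)`. `dV` times 3: `dA (3V)` is `L (e+1) ((e+2) (-12 p ζ))` and also
`6 z (β + P (z - A))`, `L (e+1) (-6 p ζ)`. So `2 (e + 2) = 1`, contradiction with `e < -2`.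
-/

set_option autoImplicit false

namespace Pool.Agent.Work.MP_abe657_gt.Two

private theorem kklowa_c {f : kk} {e e' : ℚ} {c c' : ℂ} (h : Le f e c) (he : e = e') (hc : c = c') :
    Le f e' c' := by
  subst he
  subst hc
  exact h

private theorem kklowa_n (n : ℕ) {x : kk} {e : ℚ} {c : ℂ} (h : Le x e c) :
    Le ((n : kk) * x) e ((n : ℂ) * c) :=
  kklowa_c ((Le.natCast n).mul h) (by ring) rfl

theorem kk_lowA (z P V : kk) (a β : ℂ) (h : Rot dA tA z P V a β) (e : ℚ) (ζ : ℂ) (hζ : ζ ≠ 0)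
    (hz : Le z e ζ) (he : e < -2) (p : ℂ) (hp : p ≠ 0) (hP : Le P 0 p) : False := by
  have hA := Le.tA
  have hzA : Le (z - tA) 1 (-1) :=
    kklowa_c ((hz.mono (show e < 1 by linarith)).sub hA) rfl (by ring)
  have hz2 : Le (z ^ 2) (2 * e) (ζ ^ 2) := by
    have := hz.mul hz
    rw [← pow_two] at this
    exact kklowa_c this (by ring) (by ring)
  have hG : Le (algebraMap ℂ kk a - 2 * z ^ 2 + 8 * tA * z - 10 * tA ^ 2) 2 (-10) := by
    have h1 := (Le.const a).mono (show (0 : ℚ) < 2 by norm_num)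
    have h2 : Le (2 * z ^ 2) 2 0 := (kklowa_n 2 hz2).mono (by linarith)
    have h3 : Le (8 * tA * z) 2 0 := by
      have := (kklowa_n 8 (hA.mul hz)).mono (show 1 + e < 2 by linarith)
      rw [← mul_assoc] at this
      exact this
    have h4 : Le (10 * tA ^ 2) 2 10 := by
      have := kklowa_n 10 (hA.mul hA)
      rw [← pow_two] at this
      exact kklowa_c this (by norm_num) (by push_cast; ring)
    exact kklowa_c (((h1.sub h2).add h3).sub h4) rfl (by ring)
  have hV : Le (3 * V) (e + 2) (-12 * p * ζ) := by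
    rw [h.v4]
    have h1 : Le (tA * z ^ 3 * (algebraMap ℂ kk a - 2 * z ^ 2 + 8 * tA * z - 10 * tA ^ 2))
        (e + 2) 0 := by
      have h2 : Le (z ^ 3) (3 * e) (ζ ^ 3) := by
        have := hz2.mul hz
        rw [← pow_succ] at this
        exact kklowa_c this (by ring) (by ring)
      exact ((hA.mul h2).mul hG).mono (by linarith)
    have h3 : Le (4 * z * (z - tA) * (algebraMap ℂ kk β + 3 * tA * P)) (e + 2)
        (-12 * p * ζ) := by
      have h4 : Le (3 * tA * P) 1 (3 * p) := by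
        have := kklowa_n 3 (hA.mul hP)
        rw [← mul_assoc] at this
        exact kklowa_c this (by ring) (by push_cast; ring)
      have h5 := ((Le.const β).mono (show (0 : ℚ) < 1 by norm_num)).add h4
      have h6 := ((kklowa_n 4 hz).mul hzA).mul h5
      exact kklowa_c h6 (by ring) (by push_cast; ring)
    exact kklowa_c (h1.add h3) rfl (by ring)
  have hd1 := hV.deriv
  have hd2 : Le (dA (3 * V)) (e + 2 - 1) (-6 * p * ζ) := by
    have h1 : dA (3 * V) = 3 * (2 * z * (algebraMap ℂ kk β + P * (z - tA))) := by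
      rw [← h.dV, show (3 : kk) * V = V + V + V by ring, map_add, map_add]
      ring
    rw [h1]
    have h2 := ((Le.const β).mono (show (0 : ℚ) < 0 + 1 by norm_num)).add (hP.mul hzA)
    have h3 := kklowa_n 3 ((kklowa_n 2 hz).mul h2)
    exact kklowa_c h3 (by ring) (by push_cast; ring)
  have e1 := hd1.uniq hd2
  push_cast at e1
  have q1 : (p * ζ) * (2 * (e : ℂ) + 3) = 0 := by
    linear_combination (-1 / 6) * e1
  rcases mul_eq_zero.1 q1 with h1 | h1
  · exact (mul_ne_zero hp hζ) h1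
  · have h2 : 2 * e + 3 = 0 := by exact_mod_cast h1
    linarith

end Pool.Agent.Work.MP_abe657_gt.Two
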