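import Pool.Agent.Work.MP_abe657_gt.Two.KkLe

/-!
Module KkLowB (S-M, leading terms). `z = ζ A^e + ...`, `e ≤ -3`, with `P = ζ/(e+2) A^(e+2) + ...` is impossible
(`β ≠ 0`).

Proof (`L e c` means `Le _ e c`; lower order terms by `Le.mono`). `z - A`: `L 1 (-1)`;
`a - 2z² + 8Az - 10A²`: `L 2 (-10)`; `A z³ (..)`: `L (3e+3) _`, hence `L (e+1) 0`.
Case `e = -3`: `P`: `L (-1) (-ζ)`; `β + 3AP`: `L 0 (β - 3ζ)`; `3V` (`v4`): `L (-2) (-4ζ(β - 3ζ))`. `v5` (times 3):
left side `L (-6) ((-3ζ)(-4ζ(β - 3ζ)))`; right side: `2β + 2AP + z A (..) + 2zP`: `L 0 (2β - 2ζ - 10ζ)`, total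
`L (-6) (3ζ² (2β - 12ζ))`. So `4β - 12ζ = 2β - 12ζ`, `β = 0`, contradiction.
Case `e < -3`: `β + 3AP`: `L 0 β`; `3V`: `L (e+1) (-4ζβ)`; `dV` (times 3): `dA (3V)`: `L e ((e+1)(-4ζβ))` and
`6 z (β + P (z - A))`: `P (z - A)` is `L (e+3) _`, so `L 0 0`, total `L e (6ζβ)`. So `-4 (e + 1) = 6`,
`e = -5/2`, contradiction with `e < -3`.
-/

set_option autoImplicit false

namespace Pool.Agent.Work.MP_abe657_gt.Two

private theorem kklowb_c {f : kk} {e e' : ℚ} {c c' : ℂ} (h : Le f e c) (he : e = e') (hc : c = c') :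
    Le f e' c' := by
  subst he
  subst hc
  exact h

private theorem kklowb_n (n : ℕ) {x : kk} {e : ℚ} {c : ℂ} (h : Le x e c) :
    Le ((n : kk) * x) e ((n : ℂ) * c) :=
  kklowb_c ((Le.natCast n).mul h) (by ring) rfl

theorem kk_lowB (z P V : kk) (a β : ℂ) (hβ : β ≠ 0) (h : Rot dA tA z P V a β) (e : ℚ) (ζ : ℂ)
    (hζ : ζ ≠ 0) (hz : Le z e ζ) (he : e ≤ -3) (hP : Le P (e + 2) (ζ / ((e : ℂ) + 2))) :
    False := by
  have hA := Le.tA
  have hzA : Le (z - tA) 1 (-1) :=
    kklowb_c ((hz.mono (show e < 1 by linarith)).sub hA) rfl (by ring)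
  have hz2 : Le (z ^ 2) (2 * e) (ζ ^ 2) := by
    have := hz.mul hz
    rw [← pow_two] at this
    exact kklowb_c this (by ring) (by ring)
  have hG : Le (algebraMap ℂ kk a - 2 * z ^ 2 + 8 * tA * z - 10 * tA ^ 2) 2 (-10) := by
    have h1 := (Le.const a).mono (show (0 : ℚ) < 2 by norm_num)
    have h2 : Le (2 * z ^ 2) 2 0 := (kklowb_n 2 hz2).mono (by linarith)
    have h3 : Le (8 * tA * z) 2 0 := by
      have := (kklowb_n 8 (hA.mul hz)).mono (show 1 + e < 2 by linarith)
      rw [← mul_assoc] at this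
      exact this
    have h4 : Le (10 * tA ^ 2) 2 10 := by
      have := kklowb_n 10 (hA.mul hA)
      rw [← pow_two] at this
      exact kklowb_c this (by norm_num) (by push_cast; ring)
    exact kklowb_c (((h1.sub h2).add h3).sub h4) rfl (by ring)
  have hV1 : Le (tA * z ^ 3 * (algebraMap ℂ kk a - 2 * z ^ 2 + 8 * tA * z - 10 * tA ^ 2))
      (e + 1) 0 := by
    have h2 : Le (z ^ 3) (3 * e) (ζ ^ 3) := by
      have := hz2.mul hz
      rw [← pow_succ] at this
      exact kklowb_c this (by ring) (by ring)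
    exact ((hA.mul h2).mul hG).mono (by linarith)
  rcases he.lt_or_eq with he' | he'
  · -- e < -3
    have hV : Le (3 * V) (e + 1) (-4 * ζ * β) := by
      rw [h.v4]
      have h3 : Le (4 * z * (z - tA) * (algebraMap ℂ kk β + 3 * tA * P)) (e + 1)
          (-4 * ζ * β) := by
        have h4 : Le (3 * tA * P) 0 0 := by
          have := (kklowb_n 3 (hA.mul hP)).mono (show 1 + (e + 2) < 0 by linarith)
          rw [← mul_assoc] at this
          exact this
        have h5 := (Le.const β).add h4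
        have h6 := ((kklowb_n 4 hz).mul hzA).mul h5
        exact kklowb_c h6 (by ring) (by push_cast; ring)
      exact kklowb_c (hV1.add h3) rfl (by ring)
    have hd1 := hV.deriv
    have hd2 : Le (dA (3 * V)) (e + 1 - 1) (6 * ζ * β) := by
      have h1 : dA (3 * V) = 3 * (2 * z * (algebraMap ℂ kk β + P * (z - tA))) := by
        rw [← h.dV, show (3 : kk) * V = V + V + V by ring, map_add, map_add]
        ring
      rw [h1]
      have h2 := (Le.const β).add ((hP.mul hzA).mono (show e + 2 + 1 < 0 by linarith))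
      have h3 := kklowb_n 3 ((kklowb_n 2 hz).mul h2)
      exact kklowb_c h3 (by ring) (by push_cast; ring)
    have e1 := hd1.uniq hd2
    push_cast at e1
    have q1 : (ζ * β) * (2 * (e : ℂ) + 5) = 0 := by
      linear_combination (-1 / 2) * e1
    rcases mul_eq_zero.1 q1 with h1 | h1
    · exact (mul_ne_zero hζ hβ) h1
    · have h2 : 2 * e + 5 = 0 := by exact_mod_cast h1
      linarith
  · -- e = -3
    subst he'
    have hP1 : Le P (-1) (-ζ) := kklowb_c hP (by norm_num) (by push_cast; ring)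
    have hV : Le (3 * V) (-2) (-4 * ζ * (β - 3 * ζ)) := by
      rw [h.v4]
      have h3 : Le (4 * z * (z - tA) * (algebraMap ℂ kk β + 3 * tA * P)) (-2)
          (-4 * ζ * (β - 3 * ζ)) := by
        have h4 : Le (3 * tA * P) 0 (-3 * ζ) := by
          have := kklowb_n 3 (hA.mul hP1)
          rw [← mul_assoc] at this
          exact kklowb_c this (by norm_num) (by push_cast; ring)
        have h5 := (Le.const β).add h4
        have h6 := ((kklowb_n 4 hz).mul hzA).mul h5
        exact kklowb_c h6 (by norm_num) (by push_cast; ring)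
      have h7 := kklowb_c hV1 (show (-3 : ℚ) + 1 = -2 by norm_num) rfl
      exact kklowb_c (h7.add h3) rfl (by ring)
    have hl : Le (dA z * (3 * V)) (-6) (-3 * ζ * (-4 * ζ * (β - 3 * ζ))) :=
      kklowb_c (hz.deriv.mul hV) (by norm_num) (by push_cast; ring)
    have hr : Le (dA z * (3 * V)) (-6) (3 * (ζ ^ 2 * (2 * β - 12 * ζ))) := by
      have h0 : dA z * (3 * V) = 3 * (dA z * V) := by ring
      rw [h0, h.v5]
      have h1 := kklowb_n 2 (Le.const β)
      have h2 : Le (2 * tA * P) 0 (-2 * ζ) := by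
        have := kklowb_n 2 (hA.mul hP1)
        rw [← mul_assoc] at this
        exact kklowb_c this (by norm_num) (by push_cast; ring)
      have h3 : Le (tA * (algebraMap ℂ kk a - 2 * z ^ 2 + 8 * tA * z - 10 * tA ^ 2) + 2 * P) 3
          (-10) := by
        have h4 := kklowb_c (hA.mul hG) (show (1 : ℚ) + 2 = 3 by norm_num) rfl
        have h5 := (kklowb_n 2 hP1).mono (show (-1 : ℚ) < 3 by norm_num)
        exact kklowb_c (h4.add h5) rfl (by ring)
      have h6 := kklowb_c (hz.mul h3) (show (-3 : ℚ) + 3 = 0 by norm_num) rfl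
      have h7 := hz2.mul ((h1.add h2).add h6)
      exact kklowb_c (kklowb_n 3 h7) (by norm_num) (by push_cast; ring)
    have e1 := hl.uniq hr
    have q1 : ζ ^ 2 * β = 0 := by
      linear_combination (1 / 6) * e1
    rcases mul_eq_zero.1 q1 with h1 | h1
    · exact hζ (pow_eq_zero_iff (by norm_num) |>.1 h1)
    · exact hβ h1

end Pool.Agent.Work.MP_abe657_gt.Two
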