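import Pool.Agent.Work.MP_abe657_gt.Two.KkLe

/-!
Module KkMid (S-M, leading terms). `z = ζ A^e + ...`, `-3 < e < 1`, `e ≠ -2`, with
`P = ζ/(e+2) A^(e+2) + ...` is impossible.

Proof (`L e c` means `Le _ e c`; lower order terms by `Le.mono`). `z - A`: `L 1 (-1)`.
`a - 2z² + 8Az - 10A²`: `L 2 (-10)`. `A z³ (..)`: `L (3e+3) (-10ζ³)`, hence `L (2e+4) 0` (as `e < 1`). `β + 3AP`:
`L (e+3) (3ζ/(e+2))` (as `e + 3 > 0`). So `3V` (`v4`) is `L (2e+4) (-12ζ²/(e+2))`. In `v5`: left side (times 3)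
`dA z (3V)`: `L (3e+3) (e ζ (-12ζ²/(e+2)))`; right side: `2β`: `L (e+3) 0`; `2AP`: `L (e+3) (2ζ/(e+2))`;
`z A (..)`: `L (e+3) (-10ζ)`; `2zP`: `L (2e+2) _`, so `L (e+3) 0`; total (times 3)
`L (3e+3) (3ζ² (2ζ/(e+2) - 10ζ))`. Compare (`ζ ≠ 0`): `-4e = 2 - 10 (e + 2)`, so `e = -3`, contradiction.
-/

set_option autoImplicit false

namespace Pool.Agent.Work.MP_abe657_gt.Two

private theorem kkmid_c {f : kk} {e e' : ℚ} {c c' : ℂ} (h : Le f e c) (he : e = e') (hc : c = c') :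
    Le f e' c' := by
  subst he
  subst hc
  exact h

private theorem kkmid_n (n : ℕ) {x : kk} {e : ℚ} {c : ℂ} (h : Le x e c) :
    Le ((n : kk) * x) e ((n : ℂ) * c) :=
  kkmid_c ((Le.natCast n).mul h) (by ring) rfl

theorem kk_mid (z P V : kk) (a β : ℂ) (h : Rot dA tA z P V a β) (e : ℚ) (ζ : ℂ) (hζ : ζ ≠ 0)
    (hz : Le z e ζ) (he1 : e < 1) (he3 : -3 < e) (he2 : e ≠ -2)
    (hP : Le P (e + 2) (ζ / ((e : ℂ) + 2))) : False := by
  have hA := Le.tA
  obtain ⟨p, hp⟩ : ∃ p : ℂ, p = ζ / ((e : ℂ) + 2) := ⟨_, rfl⟩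
  rw [← hp] at hP
  have hc : (e : ℂ) + 2 ≠ 0 := by
    intro h0
    have h1 : e + 2 = 0 := by exact_mod_cast h0
    exact he2 (by linarith)
  have hp2 : p * ((e : ℂ) + 2) = ζ := by
    rw [hp]
    field_simp
  have hzA : Le (z - tA) 1 (-1) := kkmid_c ((hz.mono he1).sub hA) rfl (by ring)
  have hz2 : Le (z ^ 2) (2 * e) (ζ ^ 2) := by
    have := hz.mul hz
    rw [← pow_two] at this
    exact kkmid_c this (by ring) (by ring)
  have hG : Le (algebraMap ℂ kk a - 2 * z ^ 2 + 8 * tA * z - 10 * tA ^ 2) 2 (-10) := by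
    have h1 := (Le.const a).mono (show (0 : ℚ) < 2 by norm_num)
    have h2 : Le (2 * z ^ 2) 2 0 := (kkmid_n 2 hz2).mono (by linarith)
    have h3 : Le (8 * tA * z) 2 0 := by
      have := (kkmid_n 8 (hA.mul hz)).mono (show 1 + e < 2 by linarith)
      rw [← mul_assoc] at this
      exact this
    have h4 : Le (10 * tA ^ 2) 2 10 := by
      have := kkmid_n 10 (hA.mul hA)
      rw [← pow_two] at this
      exact kkmid_c this (by norm_num) (by push_cast; ring)
    exact kkmid_c (((h1.sub h2).add h3).sub h4) rfl (by ring)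
  have hV : Le (3 * V) (2 * e + 4) (-12 * ζ * p) := by
    rw [h.v4]
    have h1 : Le (tA * z ^ 3 * (algebraMap ℂ kk a - 2 * z ^ 2 + 8 * tA * z - 10 * tA ^ 2))
        (2 * e + 4) 0 := by
      have h2 : Le (z ^ 3) (3 * e) (ζ ^ 3) := by
        have := hz2.mul hz
        rw [← pow_succ] at this
        exact kkmid_c this (by ring) (by ring)
      exact ((hA.mul h2).mul hG).mono (by linarith)
    have h3 : Le (4 * z * (z - tA) * (algebraMap ℂ kk β + 3 * tA * P)) (2 * e + 4)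
        (-12 * ζ * p) := by
      have h4 : Le (3 * tA * P) (e + 3) (3 * p) := by
        have := kkmid_n 3 (hA.mul hP)
        rw [← mul_assoc] at this
        exact kkmid_c this (by ring) (by push_cast; ring)
      have h5 := ((Le.const β).mono (show (0 : ℚ) < e + 3 by linarith)).add h4
      have h6 := ((kkmid_n 4 hz).mul hzA).mul h5
      exact kkmid_c h6 (by ring) (by push_cast; ring)
    exact kkmid_c (h1.add h3) rfl (by ring)
  have hl : Le (dA z * (3 * V)) (3 * e + 3) (e * ζ * (-12 * ζ * p)) :=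
    kkmid_c (hz.deriv.mul hV) (by ring) rfl
  have hr : Le (dA z * (3 * V)) (3 * e + 3) (3 * (ζ ^ 2 * (2 * p + -10 * ζ))) := by
    have h0 : dA z * (3 * V) = 3 * (dA z * V) := by ring
    rw [h0, h.v5]
    have h1 : Le (2 * algebraMap ℂ kk β) (e + 3) 0 :=
      (kkmid_n 2 (Le.const β)).mono (by linarith)
    have h2 : Le (2 * tA * P) (e + 3) (2 * p) := by
      have := kkmid_n 2 (hA.mul hP)
      rw [← mul_assoc] at this
      exact kkmid_c this (by ring) (by push_cast; ring)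
    have h3 : Le (tA * (algebraMap ℂ kk a - 2 * z ^ 2 + 8 * tA * z - 10 * tA ^ 2) + 2 * P) 3
        (-10) := by
      have h4 := kkmid_c (hA.mul hG) (show (1 : ℚ) + 2 = 3 by norm_num) rfl
      have h5 := (kkmid_n 2 hP).mono (show e + 2 < 3 by linarith)
      exact kkmid_c (h4.add h5) rfl (by ring)
    have h6 := hz.mul h3
    have h7 := hz2.mul ((h1.add h2).add h6)
    exact kkmid_c (kkmid_n 3 h7) (by ring) (by push_cast; ring)
  have e1 := hl.uniq hr
  have q1 : ζ ^ 3 * (6 * ((e : ℂ) + 3)) = 0 := by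
    linear_combination (((e : ℂ) + 2) / 3) * e1 + (4 * e * ζ ^ 2 + 2 * ζ ^ 2) * hp2
  rcases mul_eq_zero.1 q1 with h1 | h1
  · exact hζ (pow_eq_zero_iff (by norm_num) |>.1 h1)
  · have h2 : 6 * (e + 3) = 0 := by exact_mod_cast h1
    linarith

end Pool.Agent.Work.MP_abe657_gt.Two
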