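import Pool.Agent.Work.MP_abe657_gt.Two.KkLe

/-!
Module KkOne (S-M, leading terms). `z = ζ A + ...` is impossible.

Proof (`L e c` means `Le _ e c`). `z - A`: `L 1 (ζ-1)`; `dA P`: `L 2 (-ζ(ζ-1))`, so `P`: `L 3 p` with
`p = -ζ(ζ-1)/3`. `Ga := a - 2z² + 8Az - 10A²`: `L 2 γ`, `γ = -2ζ² + 8ζ - 10`. `v4`: `3V` is
`L 6 (ζ³ γ + 12 ζ (ζ-1) p)`. `dV`: `dA V` is `L 5 (2 ζ p (ζ-1))`, and by `Le.deriv` it is `L 5 (6 v)` if `V` is
`L 6 v`. `v5`: `dA z` is `L 0 ζ`, so `ζ v = ζ² (2p + ζ γ + 2ζ p)`. Hence (`ζ ≠ 0`) with `v = -ζ²(ζ-1)²/9`: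
`6ζ³ - 13ζ² + 8ζ + 11 = 0` (from `v4`, divided by `ζ²`) and `23ζ² - 70ζ + 83 = 0` (from `v5`, divided by `ζ³`).
These have no common root: `529 (6ζ³ - 13ζ² + 8ζ + 11) = (138ζ + 121)(23ζ² - 70ζ + 83) + 1248ζ - 4224`, so
`ζ = 44/13`, which is not a root of `23ζ² - 70ζ + 83`.
-/

set_option autoImplicit false

namespace Pool.Agent.Work.MP_abe657_gt.Two

private theorem kkone_c {f : kk} {e e' : ℚ} {c c' : ℂ} (h : Le f e c) (he : e = e') (hc : c = c') :
    Le f e' c' := by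
  subst he
  subst hc
  exact h

private theorem kkone_n (n : ℕ) {x : kk} {e : ℚ} {c : ℂ} (h : Le x e c) :
    Le ((n : kk) * x) e ((n : ℂ) * c) :=
  kkone_c ((Le.natCast n).mul h) (by ring) rfl

private theorem kkone_third {V : kk} {e : ℚ} {c : ℂ} (h : Le (3 * V) e c) : Le V e (c / 3) := by
  have h1 := (Le.const (1 / 3)).mul h
  have h2 : algebraMap ℂ kk (1 / 3) * (3 * V) = V := by
    have h3 : (3 : kk) = algebraMap ℂ kk 3 := (map_ofNat _ 3).symm
    rw [← mul_assoc, h3, ← map_mul]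
    norm_num
  rw [h2] at h1
  exact kkone_c h1 (by ring) (by ring)

theorem kk_one (z P V : kk) (a β : ℂ) (h : Rot dA tA z P V a β) (ζ : ℂ) (hζ : ζ ≠ 0)
    (hz : Le z 1 ζ) : False := by
  have hA := Le.tA
  have hzA : Le (z - tA) 1 (ζ - 1) := hz.sub hA
  have hdP : Le (dA P) (3 - 1) (-(ζ * (ζ - 1))) := by
    rw [h.dP]
    exact kkone_c (hz.mul hzA).neg (by norm_num) rfl
  have hP := hdP.int_pos (by norm_num)
  obtain ⟨p, hp⟩ : ∃ p : ℂ, p = -(ζ * (ζ - 1)) / ((3 : ℚ) : ℂ) := ⟨_, rfl⟩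
  rw [← hp] at hP
  have hp3 : 3 * p = -(ζ * (ζ - 1)) := by
    rw [hp]
    push_cast
    ring
  have hz2 : Le (z ^ 2) 2 (ζ ^ 2) := by
    have := hz.mul hz
    rw [← pow_two] at this
    exact kkone_c this (by norm_num) (by ring)
  have hG : Le (algebraMap ℂ kk a - 2 * z ^ 2 + 8 * tA * z - 10 * tA ^ 2) 2
      (-2 * ζ ^ 2 + 8 * ζ - 10) := by
    have h1 := (Le.const a).mono (show (0 : ℚ) < 2 by norm_num)
    have h2 : Le (2 * z ^ 2) 2 (2 * ζ ^ 2) := kkone_c (kkone_n 2 hz2) rfl (by push_cast; ring)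
    have h3 : Le (8 * tA * z) 2 (8 * ζ) := by
      have := kkone_n 8 (hA.mul hz)
      rw [← mul_assoc] at this
      exact kkone_c this (by norm_num) (by push_cast; ring)
    have h4 : Le (10 * tA ^ 2) 2 10 := by
      have := kkone_n 10 (hA.mul hA)
      rw [← pow_two] at this
      exact kkone_c this (by norm_num) (by push_cast; ring)
    exact kkone_c (((h1.sub h2).add h3).sub h4) rfl (by ring)
  set γ : ℂ := -2 * ζ ^ 2 + 8 * ζ - 10 with hγ
  have hV3 : Le (3 * V) 6 (ζ ^ 3 * γ + 12 * ζ * (ζ - 1) * p) := by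
    rw [h.v4]
    have h1 : Le (tA * z ^ 3 * (algebraMap ℂ kk a - 2 * z ^ 2 + 8 * tA * z - 10 * tA ^ 2))
        6 (ζ ^ 3 * γ) := by
      have h2 : Le (z ^ 3) 3 (ζ ^ 3) := by
        have := hz2.mul hz
        rw [← pow_succ] at this
        exact kkone_c this (by norm_num) (by ring)
      exact kkone_c ((hA.mul h2).mul hG) (by norm_num) (by ring)
    have h3 : Le (4 * z * (z - tA) * (algebraMap ℂ kk β + 3 * tA * P)) 6
        (12 * ζ * (ζ - 1) * p) := by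
      have h4 : Le (3 * tA * P) 4 (3 * p) := by
        have := kkone_n 3 (hA.mul hP)
        rw [← mul_assoc] at this
        exact kkone_c this (by norm_num) (by push_cast; ring)
      have h5 := ((Le.const β).mono (show (0 : ℚ) < 4 by norm_num)).add h4
      have h6 := ((kkone_n 4 hz).mul hzA).mul h5
      exact kkone_c h6 (by norm_num) (by push_cast; ring)
    exact h1.add h3
  have hV := kkone_third hV3
  obtain ⟨v, hv⟩ : ∃ v : ℂ, v = (ζ ^ 3 * γ + 12 * ζ * (ζ - 1) * p) / 3 := ⟨_, rfl⟩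
  rw [← hv] at hV
  have hv3 : 3 * v = ζ ^ 3 * γ + 12 * ζ * (ζ - 1) * p := by
    rw [hv]
    ring
  have hd1 := hV.deriv
  have hd2 : Le (dA V) (6 - 1) (2 * ζ * (p * (ζ - 1))) := by
    rw [h.dV]
    have h2 := ((Le.const β).mono (show (0 : ℚ) < 3 + 1 by norm_num)).add (hP.mul hzA)
    exact kkone_c ((kkone_n 2 hz).mul h2) (by norm_num) (by push_cast; ring)
  have e1 := hd1.uniq hd2
  have hl : Le (dA z * V) 6 (ζ * v) :=
    kkone_c (hz.deriv.mul hV) (by norm_num) (by push_cast; ring)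
  have hr : Le (dA z * V) 6 (ζ ^ 2 * (2 * p + ζ * (γ + 2 * p))) := by
    rw [h.v5]
    have h1 : Le (2 * algebraMap ℂ kk β) 4 0 :=
      (kkone_n 2 (Le.const β)).mono (by norm_num)
    have h2 : Le (2 * tA * P) 4 (2 * p) := by
      have := kkone_n 2 (hA.mul hP)
      rw [← mul_assoc] at this
      exact kkone_c this (by norm_num) (by push_cast; ring)
    have h3 : Le (tA * (algebraMap ℂ kk a - 2 * z ^ 2 + 8 * tA * z - 10 * tA ^ 2) + 2 * P) 3
        (γ + 2 * p) := by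
      have h4 := kkone_c (hA.mul hG) (show (1 : ℚ) + 2 = 3 by norm_num) rfl
      have h5 := kkone_n 2 hP
      exact kkone_c (h4.add h5) rfl (by push_cast; ring)
    have h6 := kkone_c (hz.mul h3) (show (1 : ℚ) + 3 = 4 by norm_num) rfl
    exact kkone_c (hz2.mul ((h1.add h2).add h6)) (by norm_num) (by ring)
  have e2 := hl.uniq hr
  push_cast at e1
  have q1 : 6 * ζ ^ 3 - 13 * ζ ^ 2 + 8 * ζ + 11 = 0 := by
    have h1 : ζ ^ 2 * (6 * ζ ^ 3 - 13 * ζ ^ 2 + 8 * ζ + 11) = 0 := by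
      rw [hγ] at hv3
      linear_combination 3 * hv3 - (3 / 2) * e1 + (11 * ζ * (ζ - 1)) * hp3
    rcases mul_eq_zero.1 h1 with h2 | h2
    · exact absurd (pow_eq_zero_iff (by norm_num) |>.1 h2) hζ
    · exact h2
  have q2 : 23 * ζ ^ 2 - 70 * ζ + 83 = 0 := by
    have h1 : ζ ^ 3 * (23 * ζ ^ 2 - 70 * ζ + 83) = 0 := by
      rw [hγ] at e2
      linear_combination 9 * e2 - (3 / 2) * ζ * e1 + (ζ ^ 2 * (5 * ζ + 7)) * hp3
    rcases mul_eq_zero.1 h1 with h2 | h2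
    · exact absurd (pow_eq_zero_iff (by norm_num) |>.1 h2) hζ
    · exact h2
  have q3 : 13 * ζ = 44 := by
    linear_combination (529 / 96) * q1 - ((138 * ζ + 121) / 96) * q2
  have q4 : (18515 : ℂ) = 0 := by
    linear_combination 169 * q2 - (23 * (13 * ζ + 44) - 910) * q3
  norm_num at q4

end Pool.Agent.Work.MP_abe657_gt.Two
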