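import Pool.Agent.Work.MP_abe657_gt.Two.KkBig
import Pool.Agent.Work.MP_abe657_gt.Two.KkOne
import Pool.Agent.Work.MP_abe657_gt.Two.KkMid
import Pool.Agent.Work.MP_abe657_gt.Two.KkLowA
import Pool.Agent.Work.MP_abe657_gt.Two.KkLowB

/-!
Assembly (helper94): the rotational system has no solution in `kk` with `A = t⁻¹`.
-/

set_option autoImplicit false

namespace Pool.Agent.Work.MP_abe657_gt.Two

theorem kk_rot (z P V : kk) (a β : ℂ) (hβ : β ≠ 0) (h : Rot dA tA z P V a β) : False := by
  obtain ⟨e, ζ, hζ, hz⟩ := Le.exists_ne h.z0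
  rcases lt_trichotomy e 1 with he | he | he
  · -- e < 1
    have hzA : Le (z - tA) 1 (0 - 1) := (hz.mono he).sub Le.tA
    have hdP : Le (dA P) (e + 1) ζ := by
      rw [h.dP]
      have h1 := (hz.mul hzA).neg
      have h2 : -(ζ * (0 - 1)) = ζ := by ring
      rwa [h2] at h1
    have hdP' : Le (dA P) (e + 2 - 1) ζ := by
      have : e + 2 - 1 = e + 1 := by ring
      rwa [this]
    have hcast : (((e + 2 : ℚ)) : ℂ) = (e : ℂ) + 2 := by push_cast; ring
    rcases lt_trichotomy (e + 2) 0 with h2 | h2 | h2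
    · obtain ⟨c0, hc0, hc1⟩ := hdP'.int_neg h2
      by_cases hc : c0 = 0
      · subst hc
        rw [map_zero, sub_zero, hcast] at hc1
        rcases lt_or_ge (-3) e with h3 | h3
        · exact kk_mid z P V a β h e ζ hζ hz he h3 (by intro h4; rw [h4] at h2; norm_num at h2) hc1
        · exact kk_lowB z P V a β hβ h e ζ hζ hz h3 hc1
      · exact kk_lowA z P V a β h e ζ hζ hz (by linarith) c0 hc hc0
    · have h3 : e + 2 - 1 = -1 := by linarith
      rw [h3] at hdP'
      exact hζ hdP'.int_zero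
    · have hP := hdP'.int_pos h2
      rw [hcast] at hP
      exact kk_mid z P V a β h e ζ hζ hz he (by linarith) (by intro h4; rw [h4] at h2; norm_num at h2) hP
  · subst he
    exact kk_one z P V a β h ζ hζ hz
  · exact kk_big z P V a β h e ζ hζ hz he

end Pool.Agent.Work.MP_abe657_gt.Two
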