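import Pool.Agent.Work.MP_abe657_gt.Two.RotAlg
import Pool.Agent.Work.MP_abe657_gt.Two.Emb
import Pool.Agent.Work.MP_abe657_gt.Two.KkRot

/-!
Assembly (helper94): the rotational case is impossible.
-/

set_option autoImplicit false

namespace Pool.Agent.Work.MP_abe657_gt.Two

theorem rot_false {Ω : Type} [Field Ω] [CharZero Ω] [Algebra ℂ Ω] (D : Derivation ℂ Ω Ω)
    (A z P V : Ω) (a β : ℂ) (hβ : β ≠ 0) (h : Rot D A z P V a β) : False := by
  obtain ⟨hz, hP⟩ := rot_alg D A z P V a β h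
  obtain ⟨F, φ, hinj, hmem, hder, hA, hφA⟩ := exists_emb (K := kk) D dA A tA h.dA dA_tA
  have hzF : z ∈ F := hmem z hz
  have hPF : P ∈ F := hmem P hP
  set A' : F := ⟨A, hA⟩ with hA'
  set z' : F := ⟨z, hzF⟩ with hz'
  set P' : F := ⟨P, hPF⟩ with hP'
  set V' : F := (1 / 3 : ℂ) • (A' * z' ^ 3 * (algebraMap ℂ F a - 2 * z' ^ 2 + 8 * A' * z'
    - 10 * A' ^ 2) + 4 * z' * (z' - A') * (algebraMap ℂ F β + 3 * A' * P')) with hV'
  have h3 : (3 : Ω) ≠ 0 := by norm_num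
  have hV : (V' : Ω) = V := by
    have e : (V' : Ω) = (algebraMap ℂ Ω (1 / 3)) * (A * z ^ 3 * (algebraMap ℂ Ω a - 2 * z ^ 2
        + 8 * A * z - 10 * A ^ 2) + 4 * z * (z - A) * (algebraMap ℂ Ω β + 3 * A * P)) := by
      rw [hV', ← Algebra.smul_def]
      rfl
    rw [e, ← h.v4, map_div₀, map_one, map_ofNat]
    field_simp
  have hVF : V ∈ F := hV ▸ V'.2
  obtain ⟨hDz, hDz'⟩ := hder z hzF
  obtain ⟨hDP, hDP'⟩ := hder P hPF
  obtain ⟨hDV, hDV'⟩ := hder V hVF
  have hVV : (⟨V, hVF⟩ : F) = V' := Subtype.ext hV.symm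
  refine kk_rot (φ z') (φ P') (φ V') a β hβ ⟨?_, dA_tA, ?_, ?_, ?_, ?_⟩
  · intro h0
    have : z' = 0 := hinj (h0.trans (map_zero φ).symm)
    exact h.z0 (congrArg Subtype.val this)
  · rw [hDP']
    have : (⟨D P, hDP⟩ : F) = -(z' * (z' - A')) := Subtype.ext h.dP
    rw [this, map_neg, map_mul, map_sub, hφA]
  · rw [← hVV, hDV']
    have : (⟨D V, hDV⟩ : F) = 2 * z' * (algebraMap ℂ F β + P' * (z' - A')) := Subtype.ext h.dV
    rw [this, map_mul, map_mul, map_add, map_mul, map_sub, hφA, AlgHom.commutes, map_ofNat]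
  · have : (3 : F) * V' = A' * z' ^ 3 * (algebraMap ℂ F a - 2 * z' ^ 2 + 8 * A' * z'
      - 10 * A' ^ 2) + 4 * z' * (z' - A') * (algebraMap ℂ F β + 3 * A' * P') := by
      apply Subtype.ext
      change (3 : Ω) * (V' : Ω) = _
      rw [hV]
      exact h.v4
    have h2 := congrArg φ this
    simpa only [map_mul, map_add, map_sub, map_pow, map_ofNat, AlgHom.commutes, hφA] using h2
  · have : (⟨D z, hDz⟩ : F) * V' = z' ^ 2 * (2 * algebraMap ℂ F β + 2 * A' * P'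
      + z' * (A' * (algebraMap ℂ F a - 2 * z' ^ 2 + 8 * A' * z' - 10 * A' ^ 2) + 2 * P')) := by
      apply Subtype.ext
      change D z * (V' : Ω) = _
      rw [hV]
      exact h.v5
    have h2 := congrArg φ this
    rw [hDz']
    simpa only [map_mul, map_add, map_sub, map_pow, map_ofNat, AlgHom.commutes, hφA] using h2

end Pool.Agent.Work.MP_abe657_gt.Two
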