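import Pool.Agent.Work.MP_abe657_gt.Two.FrMk
import Pool.Agent.Work.MP_abe657_gt.Two.Lin1
import Pool.Agent.Work.MP_abe657_gt.Two.Lin2
import Pool.Agent.Work.MP_abe657_gt.Two.GenB
import Pool.Agent.Work.MP_abe657_gt.Two.GenF
import Pool.Agent.Work.MP_abe657_gt.Two.RotA
import Pool.Agent.Work.MP_abe657_gt.Two.RotEnd

/-!
Assembly (helper94): the algebraic theorem.
-/

set_option autoImplicit false

namespace Pool.Agent.Work.MP_abe657_gt.Two

section

variable {Ω : Type} [Field Ω] [CharZero Ω] [Algebra ℂ Ω]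

/-- exchange of the two principal directions -/
lemma Sys.swap {E1 E2 : Derivation ℂ Ω Ω} {k1 k2 g1 g2 A P w1 w2 : Ω} {a β : ℂ}
    (h : Sys E1 E2 k1 k2 g1 g2 A P w1 w2 a β) :
    Sys E2 E1 k2 k1 (-g2) (-g1) A P w2 w1 a β where
  comm := by intro f; linear_combination -h.comm f
  mean := by linear_combination h.mean
  cod1 := by linear_combination h.cod2
  cod2 := by linear_combination h.cod1
  gauss := by
    rw [map_neg, map_neg]
    linear_combination h.gauss
  t1 := h.t2
  t2 := h.t1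
  nrm := by linear_combination h.nrm
  p1 := h.p2
  p2 := h.p1
  v11 := by linear_combination h.v22
  v12 := by linear_combination h.v21
  v21 := by linear_combination h.v12
  v22 := by linear_combination h.v11

/-- the scalar system has no solution with different principal curvatures -/
theorem sys_false {E1 E2 : Derivation ℂ Ω Ω} {k1 k2 g1 g2 A P w1 w2 : Ω} {a β : ℂ}
    (hβ : β ≠ 0) (h : Sys E1 E2 k1 k2 g1 g2 A P w1 w2 a β) (hk : k1 ≠ k2) : False := by
  by_cases h1 : E1 A = 0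
  · by_cases h2 : E2 A = 0
    · have hw1 : w1 = 0 := by rw [← h.t1, h1, mul_zero]
      have hw2 : w2 = 0 := by rw [← h.t2, h2, mul_zero]
      have a1 := h.v11
      have a2 := h.v22
      rw [hw1, hw2, map_zero] at a1 a2
      have hP : P * (k1 - k2) = 0 := by linear_combination a2 - a1
      have hP0 : P = 0 := (mul_eq_zero.1 hP).resolve_right (sub_ne_zero.2 hk)
      rw [hP0] at a1
      have hβ0 : algebraMap ℂ Ω β = 0 := by linear_combination -a1
      exact hβ ((map_eq_zero _).1 hβ0)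
    · obtain ⟨D, z, V, hR⟩ := rot_of_sys E2 E1 k2 k1 (-g2) (-g1) A P w2 w1 a β h.swap hβ hk.symm
        h2 h1
      exact rot_false D A z P V a β hβ hR
  · by_cases h2 : E2 A = 0
    · obtain ⟨D, z, V, hR⟩ := rot_of_sys E1 E2 k1 k2 g1 g2 A P w1 w2 a β h hβ hk h1 h2
      exact rot_false D A z P V a β hβ hR
    · obtain ⟨D1, D2, m, n, a1, a2, hG⟩ := gen_of_sys E1 E2 k1 k2 g1 g2 A P w1 w2 a β h hk h1 h2
      exact gen_false D1 D2 A m P n a1 a2 a β hG

end

/-- no surface with `(Δ² - aΔ + b) X = 0`, `b ≠ 0`, has a non umbilic point -/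
theorem alg_nonumb {Ω : Type} [Field Ω] [CharZero Ω] [IsAlgClosed Ω] [Algebra ℂ Ω]
    (d e : Derivation ℂ Ω Ω) (hde : ∀ f, d (e f) = e (d f)) (X : Fin 3 → Ω)
    (hdet : detM d e X ≠ 0) (a b : ℂ) (hb : b ≠ 0)
    (heq : ∀ i, lapX d e X (lapX d e X (X i)) - a • lapX d e X (X i) + b • X i = 0)
    (hdisc : disc (met d d X) (met d e X) (met e e X) (h0 d e X) (h1 d e X) (h2 d e X) ≠ 0) :
    False := by
  obtain ⟨S, hS⟩ := IsAlgClosed.exists_pow_nat_eq (detM d e X) (n := 2) (by norm_num)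
  have hS0 : S ≠ 0 := by
    rintro rfl
    rw [zero_pow two_ne_zero] at hS
    exact hdet hS.symm
  obtain ⟨p1, q1, p2, q2, k1, k2, hk, hPr⟩ := principal (met d d X) (met d e X) (met e e X)
    (h0 d e X) (h1 d e X) (h2 d e X) hdet hdisc
  obtain ⟨E1, E2, g1, g2, A, P, hsys, -⟩ :=
    exists_sys d e hde X S hS hS0 p1 q1 p2 q2 k1 k2 hPr a b heq
  refine sys_false (β := b / 4) (by simpa using hb) hsys ?_
  intro hne
  rw [div_left_inj' hS0] at hne
  exact hk hne

/-- totally umbilic surfaces with `(Δ² - aΔ + b) X = 0`, `b ≠ 0`, have `|X|²` constant -/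
theorem alg_umb {Ω : Type} [Field Ω] [CharZero Ω] [IsAlgClosed Ω] [Algebra ℂ Ω]
    (d e : Derivation ℂ Ω Ω) (hde : ∀ f, d (e f) = e (d f)) (X : Fin 3 → Ω)
    (hdet : detM d e X ≠ 0) (a b : ℂ) (hb : b ≠ 0)
    (heq : ∀ i, lapX d e X (lapX d e X (X i)) - a • lapX d e X (X i) + b • X i = 0)
    (h01 : met d d X * h1 d e X = met d e X * h0 d e X)
    (h02 : met d d X * h2 d e X = met e e X * h0 d e X)
    (h12 : met d e X * h2 d e X = met e e X * h1 d e X) :
    d (dot X X) = 0 ∧ e (dot X X) = 0 := by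
  obtain ⟨S, hS⟩ := IsAlgClosed.exists_pow_nat_eq (detM d e X) (n := 2) (by norm_num)
  have hS0 : S ≠ 0 := by
    rintro rfl
    rw [zero_pow two_ne_zero] at hS
    exact hdet hS.symm
  obtain ⟨p1, q1, p2, q2, k, hPr⟩ := principal_umb (met d d X) (met d e X) (met e e X)
    (h0 d e X) (h1 d e X) (h2 d e X) hdet h01 h02 h12
  obtain ⟨E1, E2, g1, g2, A, P, hsys, e1, e2, hδ⟩ :=
    exists_sys d e hde X S hS hS0 p1 q1 p2 q2 k k hPr a b heq
  have hA : A = k / S := by
    have := hsys.mean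
    have h2 : (2 : Ω) ≠ 0 := two_ne_zero
    apply mul_left_cancel₀ h2
    rw [this]; ring
  have hE1 : E1 A = 0 := by rw [hA, hsys.cod1]; ring
  have hE2 : E2 A = 0 := by rw [hA, hsys.cod2]; ring
  have hb4 : algebraMap ℂ Ω (b / 4) ≠ 0 := by
    intro h
    exact hb (by simpa using (map_eq_zero _).1 h)
  have t1 := hsys.t1
  have t2 := hsys.t2
  rw [hE1, mul_zero] at t1
  rw [hE2, mul_zero] at t2
  have w1 : dot X (ap E1 X) = 0 := (mul_eq_zero.1 t1.symm).resolve_left hb4
  have w2 : dot X (ap E2 X) = 0 := (mul_eq_zero.1 t2.symm).resolve_left hb4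
  have f1 : dot X (ap E1 X) = p1 * dot X (ap d X) + q1 * dot X (ap e X) := by
    simp only [dot, ap, e1]; ring
  have f2 : dot X (ap E2 X) = p2 * dot X (ap d X) + q2 * dot X (ap e X) := by
    simp only [dot, ap, e2]; ring
  rw [w1] at f1
  rw [w2] at f2
  have hd : (p1 * q2 - p2 * q1) * dot X (ap d X) = 0 := by linear_combination q1 * f2 - q2 * f1
  have he : (p1 * q2 - p2 * q1) * dot X (ap e X) = 0 := by linear_combination p2 * f1 - p1 * f2
  have hd' := (mul_eq_zero.1 hd).resolve_left hδ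
  have he' := (mul_eq_zero.1 he).resolve_left hδ
  constructor
  · have : d (dot X X) = 2 * dot X (ap d X) := by
      simp only [dot, ap, map_add, Derivation.leibniz, smul_eq_mul]; ring
    rw [this, hd', mul_zero]
  · have : e (dot X X) = 2 * dot X (ap e X) := by
      simp only [dot, ap, map_add, Derivation.leibniz, smul_eq_mul]; ring
    rw [this, he', mul_zero]

end Pool.Agent.Work.MP_abe657_gt.Two
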