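import Pool.Agent.Work.MP_abe657_gt.Defs

/-!
Definitions for the theorem on surfaces with `(Δ² - aΔ + b)(x - c) = 0`, `b ≠ 0`
(in particular surfaces of 2-type). Everything happens in a field `Ω` of characteristic zero
with derivations; `Ω` will be the field `LL` of iterated Hahn series.
-/

set_option autoImplicit false

namespace Pool.Agent.Work.MP_abe657_gt.Two

open Pool.Agent.Work.MP_abe657_gt

section ring

variable {R : Type} [CommRing R]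

/-- bilinear product of vectors -/
def dot (v w : Fin 3 → R) : R := v 0 * w 0 + v 1 * w 1 + v 2 * w 2

/-- determinant of three vectors -/
def det3 (u v w : Fin 3 → R) : R :=
  u 0 * (v 1 * w 2 - v 2 * w 1) + u 1 * (v 2 * w 0 - v 0 * w 2)
    + u 2 * (v 0 * w 1 - v 1 * w 0)

/-- the discriminant of the pencil of two binary quadratic forms (resultant) -/
def disc (g0 g1 g2 h0 h1 h2 : R) : R :=
  (g0 * h2 - g2 * h0) ^ 2 - 4 * (g0 * h1 - g1 * h0) * (g1 * h2 - g2 * h1)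

/-- `V1 = (p1, q1)`, `V2 = (p2, q2)` is a principal orthonormal basis for the forms `g`, `h` with
principal values `k1, k2` -/
structure Pr (g0 g1 g2 h0 h1 h2 p1 q1 p2 q2 k1 k2 : R) : Prop where
  n1 : g0 * p1 ^ 2 + 2 * g1 * p1 * q1 + g2 * q1 ^ 2 = 1
  n12 : g0 * p1 * p2 + g1 * (p1 * q2 + q1 * p2) + g2 * q1 * q2 = 0
  n2 : g0 * p2 ^ 2 + 2 * g1 * p2 * q2 + g2 * q2 ^ 2 = 1
  a1 : h0 * p1 + h1 * q1 = k1 * (g0 * p1 + g1 * q1)
  b1 : h1 * p1 + h2 * q1 = k1 * (g1 * p1 + g2 * q1)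
  a2 : h0 * p2 + h1 * q2 = k2 * (g0 * p2 + g1 * q2)
  b2 : h1 * p2 + h2 * q2 = k2 * (g1 * p2 + g2 * q2)

end ring

variable {Ω : Type} [Field Ω] [Algebra ℂ Ω]

/-- apply a derivation to a vector -/
def ap (d : Derivation ℂ Ω Ω) (v : Fin 3 → Ω) : Fin 3 → Ω := fun i => d (v i)

/-- (non normalised) second fundamental form: `h0 = ⟨d d X, ν⟩`, `h1 = ⟨d e X, ν⟩`, `h2 = ⟨e e X, ν⟩`
with `ν = dX × eX` -/
def h0 (d e : Derivation ℂ Ω Ω) (X : Fin 3 → Ω) : Ω := det3 (ap d (ap d X)) (ap d X) (ap e X)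

/-- see `h0` -/
def h1 (d e : Derivation ℂ Ω Ω) (X : Fin 3 → Ω) : Ω := det3 (ap d (ap e X)) (ap d X) (ap e X)

/-- see `h0` -/
def h2 (d e : Derivation ℂ Ω Ω) (X : Fin 3 → Ω) : Ω := det3 (ap e (ap e X)) (ap d X) (ap e X)

/-- `E1, E2, ξ` is an orthonormal principal moving frame of `X` with principal curvatures
`k1, k2` and connection coefficients `g1, g2` -/
structure IsFrame (E1 E2 : Derivation ℂ Ω Ω) (X ξ : Fin 3 → Ω) (k1 k2 g1 g2 : Ω) : Prop where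
  o11 : dot (ap E1 X) (ap E1 X) = 1
  o12 : dot (ap E1 X) (ap E2 X) = 0
  o22 : dot (ap E2 X) (ap E2 X) = 1
  n1 : dot ξ (ap E1 X) = 0
  n2 : dot ξ (ap E2 X) = 0
  nn : dot ξ ξ = 1
  w1 : ∀ i, E1 (ξ i) = -k1 * E1 (X i)
  w2 : ∀ i, E2 (ξ i) = -k2 * E2 (X i)
  comm : ∀ f, E1 (E2 f) - E2 (E1 f) = -g1 * E1 f - g2 * E2 f

/-- the Laplacian (divergence of gradient) in a moving frame -/
def lapE (E1 E2 : Derivation ℂ Ω Ω) (g1 g2 f : Ω) : Ω :=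
  E1 (E1 f) + E2 (E2 f) - g1 * E2 f + g2 * E1 f

/-- the structure equations of a moving frame -/
structure Struct (E1 E2 : Derivation ℂ Ω Ω) (X ξ : Fin 3 → Ω) (k1 k2 g1 g2 : Ω) : Prop where
  e11 : ∀ i, E1 (E1 (X i)) = g1 * E2 (X i) + k1 * ξ i
  e12 : ∀ i, E1 (E2 (X i)) = -g1 * E1 (X i)
  e21 : ∀ i, E2 (E1 (X i)) = g2 * E2 (X i)
  e22 : ∀ i, E2 (E2 (X i)) = -g2 * E1 (X i) + k2 * ξ i

/-- the scalar system satisfied by a surface with `(Δ² - aΔ + 4β) x = 0`, where `A` is the mean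
curvature, `P = β ⟨x, ξ⟩`, `w1 = β ⟨x, E1 x⟩`, `w2 = β ⟨x, E2 x⟩` -/
structure Sys (E1 E2 : Derivation ℂ Ω Ω) (k1 k2 g1 g2 A P w1 w2 : Ω) (a β : ℂ) : Prop where
  comm : ∀ f, E1 (E2 f) - E2 (E1 f) = -g1 * E1 f - g2 * E2 f
  mean : 2 * A = k1 + k2
  cod1 : E1 k2 = (k1 - k2) * g2
  cod2 : E2 k1 = (k1 - k2) * g1
  gauss : E1 g2 - E2 g1 = -(k1 * k2) - g1 ^ 2 - g2 ^ 2
  t1 : (k1 + A) * E1 A = w1
  t2 : (k2 + A) * E2 A = w2
  nrm : E1 (E1 A) + E2 (E2 A) - g1 * E2 A + g2 * E1 A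
    = A * (k1 ^ 2 + k2 ^ 2) - algebraMap ℂ Ω a * A - 2 * P
  p1 : E1 P = -k1 * w1
  p2 : E2 P = -k2 * w2
  v11 : E1 w1 - g1 * w2 = algebraMap ℂ Ω β + P * k1
  v12 : E1 w2 + g1 * w1 = 0
  v21 : E2 w1 - g2 * w2 = 0
  v22 : E2 w2 + g2 * w1 = algebraMap ℂ Ω β + P * k2

/-! ### the generic case -/

/-- the data on a surface where both principal derivatives of the mean curvature `A` are not zero:
`D1 = E1 / E1 A`, `D2 = E2 / E2 A`, `m = (k1 - k2)/2`, `a1 = (E1 A)²`, `a2 = (E2 A)²` -/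
structure Gen (D1 D2 : Derivation ℂ Ω Ω) (A m P n a1 a2 : Ω) (a β : ℂ) : Prop where
  m0 : m ≠ 0
  A1 : 2 * A + m ≠ 0
  A2 : 2 * A - m ≠ 0
  dA1 : D1 A = 1
  dA2 : D2 A = 1
  dm1 : D1 m = (n + 3) / 2
  dm2 : D2 m = (n - 3) / 2
  dP1 : D1 P = -((A + m) * (2 * A + m))
  dP2 : D2 P = -((A - m) * (2 * A - m))
  da21 : D1 a2 = -((n - 1) * a2 / (2 * m))
  da12 : D2 a1 = -((n + 1) * a1 / (2 * m))
  da11 : (2 * A + m) * D1 a1 = 2 * (algebraMap ℂ Ω β + P * (A + m)) - (n + 7) * a1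
    + (n - 1) / (2 * m) * ((2 * A - m) * a2)
  da22 : (2 * A - m) * D2 a2 = 2 * (algebraMap ℂ Ω β + P * (A - m)) - (7 - n) * a2
    + (n + 1) / (2 * m) * ((2 * A + m) * a1)
  dn : D1 n - D2 n = -3 * n / m
  gauss : a1 * D1 n + a2 * D2 n = 4 * m * (A + m) * (A - m) - (n + 1) / 2 * D1 a1
    - (n - 1) / 2 * D2 a2 + ((n + 1) * (3 * n + 7) * a1 + (n - 1) * (3 * n - 7) * a2) / (4 * m)
  c0 : (m * n - 6 * A) * (a1 + a2) + 4 * m * (a1 - a2) + (12 * A ^ 2 - 4 * m ^ 2) * P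
    + A * (4 * algebraMap ℂ Ω β - 8 * A ^ 4 - 6 * A ^ 2 * m ^ 2 + 2 * m ^ 4)
    + algebraMap ℂ Ω a * A * (4 * A ^ 2 - m ^ 2) = 0

/-! ### the rotational case -/

/-- the data on a surface where only one principal derivative of the mean curvature `A` is not
zero: `D = E1 / E1 A`, `z = k1 + A`, `V = w1²` -/
structure Rot {K : Type} [Field K] [Algebra ℂ K] (D : Derivation ℂ K K) (A z P V : K) (a β : ℂ) :
    Prop where
  z0 : z ≠ 0
  dA : D A = 1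
  dP : D P = -(z * (z - A))
  dV : D V = 2 * z * (algebraMap ℂ K β + P * (z - A))
  v4 : 3 * V = A * z ^ 3 * (algebraMap ℂ K a - 2 * z ^ 2 + 8 * A * z - 10 * A ^ 2)
    + 4 * z * (z - A) * (algebraMap ℂ K β + 3 * A * P)
  v5 : D z * V = z ^ 2 * (2 * algebraMap ℂ K β + 2 * A * P
    + z * (A * (algebraMap ℂ K a - 2 * z ^ 2 + 8 * A * z - 10 * A ^ 2) + 2 * P))

end Pool.Agent.Work.MP_abe657_gt.Two
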