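import Pool.Agent.Work.MP_abe657_gt.Two.Defs

/-!
Module FrComm (S). The commutator of `E1 = p1 d + q1 e`, `E2 = p2 d + q2 e`, where `d, e` commute, is a
combination of `E1, E2`.

Proof. `[E1, E2] f = (E1 p2 - E2 p1) d f + (E1 q2 - E2 q1) e f` (Leibniz rule; the second order terms cancel by
`hde`). Solve `r = c1 p1 + c2 p2`, `s = c1 q1 + c2 q2` with `δ = p1 q2 - p2 q1 ≠ 0`:
`c1 = (r q2 - s p2)/δ`, `c2 = (s p1 - r q1)/δ`.
-/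

set_option autoImplicit false

namespace Pool.Agent.Work.MP_abe657_gt.Two

theorem comm_comb {Ω : Type} [Field Ω] [Algebra ℂ Ω] (d e E1 E2 : Derivation ℂ Ω Ω)
    (hde : ∀ f, d (e f) = e (d f)) (p1 q1 p2 q2 : Ω) (hδ : p1 * q2 - p2 * q1 ≠ 0)
    (h1 : ∀ f, E1 f = p1 * d f + q1 * e f) (h2 : ∀ f, E2 f = p2 * d f + q2 * e f) :
    ∃ c1 c2 : Ω, (∀ f, E1 (E2 f) - E2 (E1 f) = c1 * E1 f + c2 * E2 f) ∧
      E1 p2 - E2 p1 = c1 * p1 + c2 * p2 ∧ E1 q2 - E2 q1 = c1 * q1 + c2 * q2 := by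
  sorry

end Pool.Agent.Work.MP_abe657_gt.Two
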