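import Pool.Agent.Work.MP_abe657_gt.Two.Defs

/-!
Module FrNor (M, vector identities). The unit normal vector and the Weingarten equations.

Notation `x = ap d X`, `y = ap e X`, `ν = x × y`, `ξ = ν / S`, `S² = detM d e X = ⟨x,x⟩⟨y,y⟩ - ⟨x,y⟩²`.
Proof. `⟨ν, ν⟩ = detM` (Lagrange identity, `ring`), so `⟨ξ, ξ⟩ = 1`; `⟨ξ, x⟩ = ⟨ξ, y⟩ = 0`;
`S ⟨ap d x, ξ⟩ = det3 (ap d x) x y = h0`, `S ⟨ap d y, ξ⟩ = h1`, `S ⟨ap e y, ξ⟩ = h2` and `ap e x = ap d y` by
`hde`. Applying `d`, `e` to `⟨ξ, x⟩ = 0` etc.: `⟨dξ, x⟩ = -h0/S`, `⟨dξ, y⟩ = -h1/S`, `⟨eξ, x⟩ = -h1/S`,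
`⟨eξ, y⟩ = -h2/S`; and `⟨dξ, ξ⟩ = ⟨eξ, ξ⟩ = 0` from `⟨ξ, ξ⟩ = 1` (characteristic 0).
-/

set_option autoImplicit false

namespace Pool.Agent.Work.MP_abe657_gt.Two

private theorem frnor_leib {Ω : Type} [Field Ω] [Algebra ℂ Ω] (d : Derivation ℂ Ω Ω)
    (v w : Fin 3 → Ω) : d (dot v w) = dot (ap d v) w + dot v (ap d w) := by
  simp only [dot, ap, map_add, Derivation.leibniz, smul_eq_mul]
  ring

theorem exists_normal {Ω : Type} [Field Ω] [CharZero Ω] [Algebra ℂ Ω] (d e : Derivation ℂ Ω Ω)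
    (hde : ∀ f, d (e f) = e (d f)) (X : Fin 3 → Ω) (S : Ω) (hS : S ^ 2 = detM d e X)
    (hS0 : S ≠ 0) :
    ∃ ξ : Fin 3 → Ω, dot ξ ξ = 1 ∧ dot ξ (ap d X) = 0 ∧ dot ξ (ap e X) = 0 ∧
      dot (ap d ξ) ξ = 0 ∧ dot (ap e ξ) ξ = 0 ∧
      S * dot (ap d ξ) (ap d X) = -h0 d e X ∧ S * dot (ap d ξ) (ap e X) = -h1 d e X ∧
      S * dot (ap e ξ) (ap d X) = -h1 d e X ∧ S * dot (ap e ξ) (ap e X) = -h2 d e X := by
  have hx : ∀ i, ap d X i = d (X i) := fun i => rfl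
  have hy : ∀ i, ap e X i = e (X i) := fun i => rfl
  obtain ⟨ξ, hξ0, hξ1, hξ2⟩ : ∃ ξ : Fin 3 → Ω,
      S * ξ 0 = ap d X 1 * ap e X 2 - ap d X 2 * ap e X 1 ∧
      S * ξ 1 = ap d X 2 * ap e X 0 - ap d X 0 * ap e X 2 ∧
      S * ξ 2 = ap d X 0 * ap e X 1 - ap d X 1 * ap e X 0 := by
    refine ⟨![(ap d X 1 * ap e X 2 - ap d X 2 * ap e X 1) / S,
      (ap d X 2 * ap e X 0 - ap d X 0 * ap e X 2) / S,
      (ap d X 0 * ap e X 1 - ap d X 1 * ap e X 0) / S], ?_, ?_, ?_⟩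
    · simp only [Matrix.cons_val_zero]
      field_simp
    · simp only [Matrix.cons_val_one, Matrix.cons_val_zero]
      field_simp
    · simp only [Matrix.cons_val]
      field_simp
  have hdot : ∀ w : Fin 3 → Ω, S * dot ξ w = det3 w (ap d X) (ap e X) := by
    intro w
    simp only [dot, det3]
    linear_combination w 0 * hξ0 + w 1 * hξ1 + w 2 * hξ2
  have h1 : dot ξ (ap d X) = 0 := by
    have h := hdot (ap d X)
    have h2 : det3 (ap d X) (ap d X) (ap e X) = 0 := by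
      simp only [det3]
      ring
    rw [h2] at h
    exact (mul_eq_zero.1 h).resolve_left hS0
  have h2 : dot ξ (ap e X) = 0 := by
    have h := hdot (ap e X)
    have h2 : det3 (ap e X) (ap d X) (ap e X) = 0 := by
      simp only [det3]
      ring
    rw [h2] at h
    exact (mul_eq_zero.1 h).resolve_left hS0
  have h3 : dot ξ ξ = 1 := by
    have h : S ^ 2 * dot ξ ξ = S ^ 2 * 1 := by
      have e1 : S ^ 2 * dot ξ ξ = (S * ξ 0) ^ 2 + (S * ξ 1) ^ 2 + (S * ξ 2) ^ 2 := by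
        simp only [dot]
        ring
      rw [e1, hξ0, hξ1, hξ2, mul_one, hS]
      simp only [detM, met, Fin.sum_univ_three, hx, hy]
      ring
    exact mul_left_cancel₀ (pow_ne_zero 2 hS0) h
  have hself : ∀ D : Derivation ℂ Ω Ω, dot (ap D ξ) ξ = 0 := by
    intro D
    have h := frnor_leib D ξ ξ
    rw [h3, Derivation.map_one_eq_zero] at h
    have h4 : dot ξ (ap D ξ) = dot (ap D ξ) ξ := by
      simp only [dot]
      ring
    rw [h4, ← two_mul] at h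
    exact (mul_eq_zero.1 h.symm).resolve_left two_ne_zero
  have hx' : ∀ D : Derivation ℂ Ω Ω,
      S * dot (ap D ξ) (ap d X) = -det3 (ap D (ap d X)) (ap d X) (ap e X) := by
    intro D
    have h := frnor_leib D ξ (ap d X)
    rw [h1, map_zero] at h
    rw [← hdot]
    linear_combination (-S) * h
  have hy' : ∀ D : Derivation ℂ Ω Ω,
      S * dot (ap D ξ) (ap e X) = -det3 (ap D (ap e X)) (ap d X) (ap e X) := by
    intro D
    have h := frnor_leib D ξ (ap e X)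
    rw [h2, map_zero] at h
    rw [← hdot]
    linear_combination (-S) * h
  have hc : ap e (ap d X) = ap d (ap e X) := funext fun i => (hde (X i)).symm
  refine ⟨ξ, h3, h1, h2, hself d, hself e, hx' d, hy' d, ?_, hy' e⟩
  rw [hx' e, hc]
  rfl

end Pool.Agent.Work.MP_abe657_gt.Two
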