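import Pool.Agent.Work.MP_abe657_gt.Two.Defs

/-!
Module FrOrth (S). Expansion in an orthonormal basis of `Ω³`.

Proof. The matrix `M` with rows `u, v, n` satisfies `M Mᵀ = 1`, so `Mᵀ M = 1`
(`Matrix.mul_eq_one_comm`), which says `u i * u j + v i * v j + n i * n j = δ_ij`. Multiply by `w j` and
sum.
-/

set_option autoImplicit false

namespace Pool.Agent.Work.MP_abe657_gt.Two

theorem expand {Ω : Type} [Field Ω] (u v n : Fin 3 → Ω) (huu : dot u u = 1) (huv : dot u v = 0)
    (hvv : dot v v = 1) (hnu : dot n u = 0) (hnv : dot n v = 0) (hnn : dot n n = 1)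
    (w : Fin 3 → Ω) (i : Fin 3) :
    w i = dot w u * u i + dot w v * v i + dot w n * n i := by
  sorry

end Pool.Agent.Work.MP_abe657_gt.Two
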