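import Pool.Agent.Work.MP_abe657_gt.Two.Defs

/-!
Module StCod (M, vector identities). Codazzi and Gauss equations.

Proof. Notation `x_1 = ap E1 X`, `x_2 = ap E2 X`. `comm` applied to `ξ i`:
`E1 (E2 ξ) = E1 (-k2 x_2) = -(E1 k2) x_2 + k2 g1 x_1`, `E2 (E1 ξ) = -(E2 k1) x_1 - k1 g2 x_2`, and the right
side is `g1 k1 x_1 + g2 k2 x_2`. Product with `x_2`: `-(E1 k2) + k1 g2 = g2 k2`; with `x_1`:
`k2 g1 + E2 k1 = g1 k1`. (`⟨x_1, x_1⟩ = 1` etc. from `IsFrame`.)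
Gauss: `comm` applied to `E1 (X i)`: `E1 (E2 x_1) = E1 (g2 x_2) = (E1 g2) x_2 - g2 g1 x_1`,
`E2 (E1 x_1) = E2 (g1 x_2 + k1 ξ) = (E2 g1) x_2 + g1 (-g2 x_1 + k2 ξ) + (E2 k1) ξ - k1 k2 x_2`; the right side is
`-g1 (g1 x_2 + k1 ξ) - g2 (g2 x_2)`. Product with `x_2`: `E1 g2 - E2 g1 + k1 k2 = -g1² - g2²`.
-/

set_option autoImplicit false

namespace Pool.Agent.Work.MP_abe657_gt.Two

theorem codazzi {Ω : Type} [Field Ω] [CharZero Ω] [Algebra ℂ Ω]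
    (E1 E2 : Derivation ℂ Ω Ω) (X ξ : Fin 3 → Ω) (k1 k2 g1 g2 : Ω)
    (h : IsFrame E1 E2 X ξ k1 k2 g1 g2) (hs : Struct E1 E2 X ξ k1 k2 g1 g2) :
    E1 k2 = (k1 - k2) * g2 ∧ E2 k1 = (k1 - k2) * g1 ∧
      E1 g2 - E2 g1 = -(k1 * k2) - g1 ^ 2 - g2 ^ 2 := by
  obtain ⟨o11, o12, o22, n1, n2, nn, w1, w2, comm⟩ := h
  obtain ⟨e11, e12, e21, e22⟩ := hs
  -- the Codazzi equations in components
  have hC : ∀ i, -(E1 k2 * E2 (X i)) + k2 * g1 * E1 (X i) + E2 k1 * E1 (X i) + k1 * g2 * E2 (X i) =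
      g1 * k1 * E1 (X i) + g2 * k2 * E2 (X i) := by
    intro i
    have h1 := comm (ξ i)
    rw [w1, w2] at h1
    simp only [Derivation.leibniz, smul_eq_mul, map_neg, e12, e21] at h1
    linear_combination h1
  have hG : ∀ i, E1 g2 * E2 (X i) - g2 * g1 * E1 (X i) - (E2 g1 * E2 (X i) +
      g1 * (-g2 * E1 (X i) + k2 * ξ i) + E2 k1 * ξ i - k1 * k2 * E2 (X i)) =
      -g1 * (g1 * E2 (X i) + k1 * ξ i) - g2 * (g2 * E2 (X i)) := by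
    intro i
    have h1 := comm (E1 (X i))
    rw [e21, e11] at h1
    simp only [map_add, Derivation.leibniz, smul_eq_mul, e12, e22, w2] at h1
    linear_combination h1
  simp only [dot, ap] at o11 o12 o22 n1 n2 nn
  have c1 : E1 k2 = (k1 - k2) * g2 := by
    linear_combination (-E2 (X 0)) * hC 0 + (-E2 (X 1)) * hC 1 + (-E2 (X 2)) * hC 2 +
      (k1 * g2 - E1 k2 - g2 * k2) * o22 + (k2 * g1 + E2 k1 - g1 * k1) * o12
  have c2 : E2 k1 = (k1 - k2) * g1 := by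
    linear_combination (E1 (X 0)) * hC 0 + (E1 (X 1)) * hC 1 + (E1 (X 2)) * hC 2 +
      (-(k1 * g2 - E1 k2 - g2 * k2)) * o12 + (-(k2 * g1 + E2 k1 - g1 * k1)) * o11
  refine ⟨c1, c2, ?_⟩
  linear_combination (E2 (X 0)) * hG 0 + (E2 (X 1)) * hG 1 + (E2 (X 2)) * hG 2 +
      (-(E1 g2 - E2 g1 + k1 * k2 + g1 ^ 2 + g2 ^ 2)) * o22 +
      (g1 * k2 + E2 k1 - g1 * k1) * n2

end Pool.Agent.Work.MP_abe657_gt.Two
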