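import Pool.Agent.Work.MP_abe657_gt.Two.Defs

/-!
Module StPos (S, vector identities). Derivatives of the components of the position vector.

Proof. Leibniz rule for `dot`, `Struct`, and `⟨x_i, x_j⟩ = δ_ij`, `⟨ξ, x_i⟩ = 0` (`IsFrame`).
-/

set_option autoImplicit false

namespace Pool.Agent.Work.MP_abe657_gt.Two

theorem position {Ω : Type} [Field Ω] [CharZero Ω] [Algebra ℂ Ω]
    (E1 E2 : Derivation ℂ Ω Ω) (X ξ : Fin 3 → Ω) (k1 k2 g1 g2 : Ω)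
    (h : IsFrame E1 E2 X ξ k1 k2 g1 g2) (hs : Struct E1 E2 X ξ k1 k2 g1 g2) :
    E1 (dot X ξ) = -k1 * dot X (ap E1 X) ∧ E2 (dot X ξ) = -k2 * dot X (ap E2 X) ∧
      E1 (dot X (ap E1 X)) = 1 + g1 * dot X (ap E2 X) + k1 * dot X ξ ∧
      E1 (dot X (ap E2 X)) = -g1 * dot X (ap E1 X) ∧
      E2 (dot X (ap E1 X)) = g2 * dot X (ap E2 X) ∧
      E2 (dot X (ap E2 X)) = 1 - g2 * dot X (ap E1 X) + k2 * dot X ξ := by
  sorry

end Pool.Agent.Work.MP_abe657_gt.Two
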