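import Pool.Agent.Work.MP_abe657_gt.Two.FrOrth

/-!
Module StStruct (M, vector identities). Structure equations of a moving frame.

Proof. Write `x_j = ap E_j X`, `x_jk = ap E_j (ap E_k X)`. From `o11`: `⟨x_11, x_1⟩ = ⟨x_21, x_1⟩ = 0`
(apply `E1`, `E2`, characteristic 0); from `o22`: `⟨x_12, x_2⟩ = ⟨x_22, x_2⟩ = 0`; from `o12`:
`⟨x_12, x_1⟩ = -⟨x_11, x_2⟩ =: -s`, `⟨x_21, x_2⟩ =: t`, `⟨x_22, x_1⟩ = -t`. From `n1, n2, w1, w2`:
`⟨x_11, ξ⟩ = -⟨x_1, E1 ξ⟩ = k1`, `⟨x_12, ξ⟩ = -⟨x_2, E1 ξ⟩ = 0`, `⟨x_21, ξ⟩ = 0`, `⟨x_22, ξ⟩ = k2`. By `expand`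
(with `u = x_1`, `v = x_2`, `n = ξ`): `x_11 = s x_2 + k1 ξ`, `x_12 = -s x_1`, `x_21 = t x_2`,
`x_22 = -t x_1 + k2 ξ`. `comm` applied to `X i`: `x_12 - x_21 = -g1 x_1 - g2 x_2`; take the products with
`x_1`, `x_2`: `s = g1`, `t = g2`.
-/

set_option autoImplicit false

namespace Pool.Agent.Work.MP_abe657_gt.Two

private theorem ststruct_leib {Ω : Type} [Field Ω] [Algebra ℂ Ω] (d : Derivation ℂ Ω Ω)
    (v w : Fin 3 → Ω) : d (dot v w) = dot (ap d v) w + dot v (ap d w) := by
  simp only [dot, ap, map_add, Derivation.leibniz, smul_eq_mul]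
  ring

private theorem ststruct_symm {Ω : Type} [Field Ω] (v w : Fin 3 → Ω) : dot v w = dot w v := by
  simp only [dot]
  ring

theorem struct_of_frame {Ω : Type} [Field Ω] [CharZero Ω] [Algebra ℂ Ω]
    (E1 E2 : Derivation ℂ Ω Ω) (X ξ : Fin 3 → Ω) (k1 k2 g1 g2 : Ω)
    (h : IsFrame E1 E2 X ξ k1 k2 g1 g2) : Struct E1 E2 X ξ k1 k2 g1 g2 := by
  obtain ⟨o11, o12, o22, n1, n2, nn, w1, w2, comm⟩ := h
  have hW1 : ap E1 ξ = fun i => -k1 * ap E1 X i := funext w1
  have hW2 : ap E2 ξ = fun i => -k2 * ap E2 X i := funext w2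
  have hsm : ∀ (c : Ω) (v w : Fin 3 → Ω), dot (fun i => c * v i) w = c * dot v w := by
    intro c v w
    simp only [dot]
    ring
  have two0 : (2 : Ω) ≠ 0 := two_ne_zero
  have hself : ∀ (D : Derivation ℂ Ω Ω) (v : Fin 3 → Ω), dot v v = 1 → dot (ap D v) v = 0 := by
    intro D v hv
    have h := ststruct_leib D v v
    rw [hv, Derivation.map_one_eq_zero, ststruct_symm v (ap D v), ← two_mul] at h
    exact (mul_eq_zero.1 h.symm).resolve_left two0
  have a11 := hself E1 _ o11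
  have a21 := hself E2 _ o11
  have a12 := hself E1 _ o22
  have a22 := hself E2 _ o22
  -- mixed products
  have m1 : dot (ap E1 (ap E2 X)) (ap E1 X) = -dot (ap E1 (ap E1 X)) (ap E2 X) := by
    have h := ststruct_leib E1 (ap E1 X) (ap E2 X)
    rw [o12, map_zero, ststruct_symm (ap E1 X) (ap E1 (ap E2 X))] at h
    linear_combination -h
  have m2 : dot (ap E2 (ap E2 X)) (ap E1 X) = -dot (ap E2 (ap E1 X)) (ap E2 X) := by
    have h := ststruct_leib E2 (ap E1 X) (ap E2 X)
    rw [o12, map_zero, ststruct_symm (ap E1 X) (ap E2 (ap E2 X))] at h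
    linear_combination -h
  -- normal products
  have b11 : dot (ap E1 (ap E1 X)) ξ = k1 := by
    have h := ststruct_leib E1 ξ (ap E1 X)
    rw [n1, map_zero, hW1, hsm, o11, ststruct_symm ξ] at h
    linear_combination -h
  have b12 : dot (ap E1 (ap E2 X)) ξ = 0 := by
    have h := ststruct_leib E1 ξ (ap E2 X)
    rw [n2, map_zero, hW1, hsm, o12, ststruct_symm ξ] at h
    linear_combination -h
  have b21 : dot (ap E2 (ap E1 X)) ξ = 0 := by
    have h := ststruct_leib E2 ξ (ap E1 X)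
    rw [n1, map_zero, hW2, hsm, ststruct_symm (ap E2 X), o12, ststruct_symm ξ] at h
    linear_combination -h
  have b22 : dot (ap E2 (ap E2 X)) ξ = k2 := by
    have h := ststruct_leib E2 ξ (ap E2 X)
    rw [n2, map_zero, hW2, hsm, o22, ststruct_symm ξ] at h
    linear_combination -h
  have hc : ap E1 (ap E2 X) = fun i => ap E2 (ap E1 X) i + (-g1 * ap E1 X i - g2 * ap E2 X i) := by
    funext i
    have h := comm (X i)
    simp only [ap]
    linear_combination h
  have hadd : ∀ w : Fin 3 → Ω, dot (ap E1 (ap E2 X)) w =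
      dot (ap E2 (ap E1 X)) w - g1 * dot (ap E1 X) w - g2 * dot (ap E2 X) w := by
    intro w
    rw [hc]
    simp only [dot]
    ring
  have s1 : dot (ap E1 (ap E1 X)) (ap E2 X) = g1 := by
    have h := hadd (ap E1 X)
    rw [m1, a21, o11, ststruct_symm (ap E2 X), o12] at h
    linear_combination -h
  have t1 : dot (ap E2 (ap E1 X)) (ap E2 X) = g2 := by
    have h := hadd (ap E2 X)
    rw [a12, o12, o22] at h
    linear_combination -h
  have hex := expand (ap E1 X) (ap E2 X) ξ o11 o12 o22 n1 n2 nn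
  refine ⟨fun i => ?_, fun i => ?_, fun i => ?_, fun i => ?_⟩
  · have h := hex (ap E1 (ap E1 X)) i
    rw [a11, s1, b11] at h
    simp only [ap] at h
    linear_combination h
  · have h := hex (ap E1 (ap E2 X)) i
    rw [m1, s1, a12, b12] at h
    simp only [ap] at h
    linear_combination h
  · have h := hex (ap E2 (ap E1 X)) i
    rw [a21, t1, b21] at h
    simp only [ap] at h
    linear_combination h
  · have h := hex (ap E2 (ap E2 X)) i
    rw [m2, t1, a22, b22] at h
    simp only [ap] at h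
    linear_combination h

end Pool.Agent.Work.MP_abe657_gt.Two
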