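import Pool.Agent.Work.MP_abe657_gt.Two.Defs

/-!
Module StTN (M, vector identities). The tangential and the normal part of `L(LX) + a LX + b X = 0`, where
`L = lapE E1 E2 g1 g2`.

Proof. Let `2A = k1 + k2`, `x_1 = ap E1 X`, `x_2 = ap E2 X`. By `Struct`, `L (X i) = 2 A ξ i`. By the Leibniz
rule `L (2Aξ) = 2 (LA) ξ + 4 (E1 A E1 ξ + E2 A E2 ξ) + 2 A Lξ` and
`Lξ = E1(-k1 x_1) + E2(-k2 x_2) + g1 k2 x_2 - g2 k1 x_1`
`= -(E1 k1 + (k1 - k2) g2) x_1 - (E2 k2 + (k1 - k2) g1) x_2 - (k1² + k2²) ξ`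
`= -2 (E1 A) x_1 - 2 (E2 A) x_2 - (k1² + k2²) ξ` (Codazzi `c1`, `c2`: `(k1 - k2) g2 = E1 k2`, ...). So
`L(L X) = 2 (LA - A (k1² + k2²)) ξ - 4 (k1 + A) (E1 A) x_1 - 4 (k2 + A) (E2 A) x_2`. Take the product of
`L(LX) + a LX + b X = 0` with `x_1`, `x_2`, `ξ` (orthonormality in `IsFrame`).
-/

set_option autoImplicit false

namespace Pool.Agent.Work.MP_abe657_gt.Two

theorem tn_parts {Ω : Type} [Field Ω] [CharZero Ω] [Algebra ℂ Ω]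
    (E1 E2 : Derivation ℂ Ω Ω) (X ξ : Fin 3 → Ω) (k1 k2 g1 g2 : Ω)
    (h : IsFrame E1 E2 X ξ k1 k2 g1 g2) (hs : Struct E1 E2 X ξ k1 k2 g1 g2)
    (c1 : E1 k2 = (k1 - k2) * g2) (c2 : E2 k1 = (k1 - k2) * g1) (A a b : Ω) (hA : 2 * A = k1 + k2)
    (heq : ∀ i, lapE E1 E2 g1 g2 (lapE E1 E2 g1 g2 (X i)) + a * lapE E1 E2 g1 g2 (X i)
      + b * X i = 0) :
    4 * ((k1 + A) * E1 A) = b * dot X (ap E1 X) ∧ 4 * ((k2 + A) * E2 A) = b * dot X (ap E2 X) ∧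
      2 * lapE E1 E2 g1 g2 A = 2 * A * (k1 ^ 2 + k2 ^ 2) - 2 * a * A - b * dot X ξ := by
  obtain ⟨o11, o12, o22, n1, n2, nn, w1, w2, comm⟩ := h
  obtain ⟨e11, e12, e21, e22⟩ := hs
  have h2 : ∀ (D : Derivation ℂ Ω Ω) (f : Ω), D (2 * f) = 2 * D f := by
    intro D f
    rw [two_mul, map_add, ← two_mul]
  have hL : ∀ i, lapE E1 E2 g1 g2 (X i) = 2 * (A * ξ i) := by
    intro i
    simp only [lapE, e11, e22]
    linear_combination (-ξ i) * hA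
  have hA1 : 2 * E1 A = E1 k1 + E1 k2 := by
    rw [← h2, hA, map_add]
  have hA2 : 2 * E2 A = E2 k1 + E2 k2 := by
    rw [← h2, hA, map_add]
  have hLL : ∀ i, lapE E1 E2 g1 g2 (lapE E1 E2 g1 g2 (X i)) =
      2 * (lapE E1 E2 g1 g2 A - A * (k1 ^ 2 + k2 ^ 2)) * ξ i
        - 4 * ((k1 + A) * E1 A) * E1 (X i) - 4 * ((k2 + A) * E2 A) * E2 (X i) := by
    intro i
    rw [hL]
    simp only [lapE, h2, map_add, map_neg, Derivation.leibniz, smul_eq_mul, w1, w2, e11, e22]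
    linear_combination (2 * A * E1 (X i)) * (hA1 + c1) + (2 * A * E2 (X i)) * (hA2 + c2)
  have hE : ∀ i, 2 * (lapE E1 E2 g1 g2 A - A * (k1 ^ 2 + k2 ^ 2)) * ξ i
        - 4 * ((k1 + A) * E1 A) * E1 (X i) - 4 * ((k2 + A) * E2 A) * E2 (X i)
        + a * (2 * (A * ξ i)) + b * X i = 0 := by
    intro i
    have h := heq i
    rw [hLL, hL] at h
    exact h
  simp only [dot, ap] at o11 o12 o22 n1 n2 nn ⊢
  refine ⟨?_, ?_, ?_⟩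
  · linear_combination (-E1 (X 0)) * hE 0 + (-E1 (X 1)) * hE 1 + (-E1 (X 2)) * hE 2 +
      (2 * (lapE E1 E2 g1 g2 A - A * (k1 ^ 2 + k2 ^ 2)) + 2 * a * A) * n1
      - 4 * ((k1 + A) * E1 A) * o11 - 4 * ((k2 + A) * E2 A) * o12
  · linear_combination (-E2 (X 0)) * hE 0 + (-E2 (X 1)) * hE 1 + (-E2 (X 2)) * hE 2 +
      (2 * (lapE E1 E2 g1 g2 A - A * (k1 ^ 2 + k2 ^ 2)) + 2 * a * A) * n2
      - 4 * ((k1 + A) * E1 A) * o12 - 4 * ((k2 + A) * E2 A) * o22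
  · linear_combination (ξ 0) * hE 0 + (ξ 1) * hE 1 + (ξ 2) * hE 2 +
      (-(2 * (lapE E1 E2 g1 g2 A - A * (k1 ^ 2 + k2 ^ 2)) + 2 * a * A)) * nn
      + 4 * ((k1 + A) * E1 A) * n1 + 4 * ((k2 + A) * E2 A) * n2

end Pool.Agent.Work.MP_abe657_gt.Two
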