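import Pool.Agent.Work.MP_abe657_gt.Two.FrComm
import Pool.Agent.Work.MP_abe657_gt.Two.FrLap
import Pool.Agent.Work.MP_abe657_gt.Two.FrNor
import Pool.Agent.Work.MP_abe657_gt.Two.FrOrth
import Pool.Agent.Work.MP_abe657_gt.Two.StStruct
import Pool.Agent.Work.MP_abe657_gt.Two.StCod
import Pool.Agent.Work.MP_abe657_gt.Two.StPos
import Pool.Agent.Work.MP_abe657_gt.Two.StTN

/-!
Assembly (helper94): from a surface with principal directions to the scalar system.
-/

set_option autoImplicit false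

namespace Pool.Agent.Work.MP_abe657_gt.Two

section

variable {Ω : Type} [Field Ω] [Algebra ℂ Ω]

lemma dot_add_left (u v w : Fin 3 → Ω) : dot (fun i => u i + v i) w = dot u w + dot v w := by
  unfold dot; ring

lemma dot_comb_left (p q : Ω) (u v w : Fin 3 → Ω) :
    dot (fun i => p * u i + q * v i) w = p * dot u w + q * dot v w := by
  unfold dot; ring

lemma dot_comb_right (p q : Ω) (u v w : Fin 3 → Ω) :
    dot w (fun i => p * u i + q * v i) = p * dot w u + q * dot w v := by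
  unfold dot; ring

lemma dot_comm' (u v : Fin 3 → Ω) : dot u v = dot v u := by
  unfold dot; ring

lemma met_dot (d e : Derivation ℂ Ω Ω) (X : Fin 3 → Ω) : met d e X = dot (ap d X) (ap e X) := by
  unfold met dot ap
  rw [Fin.sum_univ_three]

end

theorem exists_frame {Ω : Type} [Field Ω] [CharZero Ω] [Algebra ℂ Ω]
    (d e : Derivation ℂ Ω Ω) (hde : ∀ f, d (e f) = e (d f)) (X : Fin 3 → Ω) (S : Ω)
    (hS : S ^ 2 = detM d e X) (hS0 : S ≠ 0) (p1 q1 p2 q2 k1 k2 : Ω)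
    (hPr : Pr (met d d X) (met d e X) (met e e X) (h0 d e X) (h1 d e X) (h2 d e X)
      p1 q1 p2 q2 k1 k2) :
    ∃ (E1 E2 : Derivation ℂ Ω Ω) (ξ : Fin 3 → Ω) (g1 g2 : Ω),
      IsFrame E1 E2 X ξ (k1 / S) (k2 / S) g1 g2 ∧
      (∀ f, lapX d e X f = -lapE E1 E2 g1 g2 f) ∧
      (∀ f, E1 f = p1 * d f + q1 * e f) ∧ (∀ f, E2 f = p2 * d f + q2 * e f) ∧
      p1 * q2 - p2 * q1 ≠ 0 := by
  have hD : detM d e X ≠ 0 := by rw [← hS]; exact pow_ne_zero 2 hS0
  have hδ : p1 * q2 - p2 * q1 ≠ 0 := by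
    intro h0
    have h1 : detM d e X * (p1 * q2 - p2 * q1) ^ 2 = 1 := by
      unfold detM
      linear_combination (met d d X * p2 ^ 2 + 2 * met d e X * p2 * q2 + met e e X * q2 ^ 2) * hPr.n1
        + hPr.n2 - (met d d X * p1 * p2 + met d e X * (p1 * q2 + q1 * p2)
          + met e e X * q1 * q2) * hPr.n12
    rw [h0] at h1
    norm_num at h1
  set E1 : Derivation ℂ Ω Ω := p1 • d + q1 • e with hE1
  set E2 : Derivation ℂ Ω Ω := p2 • d + q2 • e with hE2
  have e1 : ∀ f, E1 f = p1 * d f + q1 * e f := by intro f; simp [hE1]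
  have e2 : ∀ f, E2 f = p2 * d f + q2 * e f := by intro f; simp [hE2]
  obtain ⟨c1, c2, hc, hcp, hcq⟩ := comm_comb d e E1 E2 hde p1 q1 p2 q2 hδ e1 e2
  obtain ⟨ξ, hn, hx, hy, hdn, hen, hdx, hdy, hex, hey⟩ := exists_normal d e hde X S hS hS0
  have a1 : ap E1 X = fun i => p1 * (ap d X) i + q1 * (ap e X) i := by
    funext i; simp only [ap, e1]
  have a2 : ap E2 X = fun i => p2 * (ap d X) i + q2 * (ap e X) i := by
    funext i; simp only [ap, e2]
  have b1 : ap E1 ξ = fun i => p1 * (ap d ξ) i + q1 * (ap e ξ) i := by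
    funext i; simp only [ap, e1]
  have b2 : ap E2 ξ = fun i => p2 * (ap d ξ) i + q2 * (ap e ξ) i := by
    funext i; simp only [ap, e2]
  have o11 : dot (ap E1 X) (ap E1 X) = 1 := by
    rw [a1, dot_comb_left, dot_comb_right, dot_comb_right, ← hPr.n1, met_dot, met_dot, met_dot,
      dot_comm' (ap e X) (ap d X)]
    ring
  have o12 : dot (ap E1 X) (ap E2 X) = 0 := by
    rw [a1, a2, dot_comb_left, dot_comb_right, dot_comb_right, ← hPr.n12, met_dot, met_dot,
      met_dot, dot_comm' (ap e X) (ap d X)]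
    ring
  have o22 : dot (ap E2 X) (ap E2 X) = 1 := by
    rw [a2, dot_comb_left, dot_comb_right, dot_comb_right, ← hPr.n2, met_dot, met_dot, met_dot,
      dot_comm' (ap e X) (ap d X)]
    ring
  have n1 : dot ξ (ap E1 X) = 0 := by rw [a1, dot_comb_right, hx, hy]; ring
  have n2 : dot ξ (ap E2 X) = 0 := by rw [a2, dot_comb_right, hx, hy]; ring
  have w1 : ∀ i, E1 (ξ i) = -(k1 / S) * E1 (X i) := by
    intro i
    have hexp := expand (ap E1 X) (ap E2 X) ξ o11 o12 o22 n1 n2 hn (ap E1 ξ) i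
    have f1 : dot (ap E1 ξ) (ap E1 X) = -(k1 / S) := by
      have : S * dot (ap E1 ξ) (ap E1 X) = -k1 := by
        rw [b1, a1, dot_comb_left, dot_comb_right, dot_comb_right]
        linear_combination p1 * p1 * hdx + p1 * q1 * hdy + q1 * p1 * hex + q1 * q1 * hey
          - p1 * hPr.a1 - q1 * hPr.b1 - k1 * hPr.n1
      field_simp
      linear_combination this
    have f2 : dot (ap E1 ξ) (ap E2 X) = 0 := by
      have : S * dot (ap E1 ξ) (ap E2 X) = 0 := by
        rw [b1, a2, dot_comb_left, dot_comb_right, dot_comb_right]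
        linear_combination p1 * p2 * hdx + p1 * q2 * hdy + q1 * p2 * hex + q1 * q2 * hey
          - p2 * hPr.a1 - q2 * hPr.b1 - k1 * hPr.n12
      exact (mul_eq_zero.1 this).resolve_left hS0
    have f3 : dot (ap E1 ξ) ξ = 0 := by rw [b1, dot_comb_left, hdn, hen]; ring
    rw [f1, f2, f3] at hexp
    simp only [ap] at hexp
    rw [hexp]; ring
  have w2 : ∀ i, E2 (ξ i) = -(k2 / S) * E2 (X i) := by
    intro i
    have hexp := expand (ap E1 X) (ap E2 X) ξ o11 o12 o22 n1 n2 hn (ap E2 ξ) i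
    have f1 : dot (ap E2 ξ) (ap E1 X) = 0 := by
      have : S * dot (ap E2 ξ) (ap E1 X) = 0 := by
        rw [b2, a1, dot_comb_left, dot_comb_right, dot_comb_right]
        linear_combination p2 * p1 * hdx + p2 * q1 * hdy + q2 * p1 * hex + q2 * q1 * hey
          - p1 * hPr.a2 - q1 * hPr.b2 - k2 * hPr.n12
      exact (mul_eq_zero.1 this).resolve_left hS0
    have f2 : dot (ap E2 ξ) (ap E2 X) = -(k2 / S) := by
      have : S * dot (ap E2 ξ) (ap E2 X) = -k2 := by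
        rw [b2, a2, dot_comb_left, dot_comb_right, dot_comb_right]
        linear_combination p2 * p2 * hdx + p2 * q2 * hdy + q2 * p2 * hex + q2 * q2 * hey
          - p2 * hPr.a2 - q2 * hPr.b2 - k2 * hPr.n2
      field_simp
      linear_combination this
    have f3 : dot (ap E2 ξ) ξ = 0 := by rw [b2, dot_comb_left, hdn, hen]; ring
    rw [f1, f2, f3] at hexp
    simp only [ap] at hexp
    rw [hexp]; ring
  refine ⟨E1, E2, ξ, -c1, -c2, ⟨o11, o12, o22, n1, n2, hn, w1, w2, ?_⟩, ?_, e1, e2, hδ⟩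
  · intro f
    rw [hc f]; ring
  · intro f
    rw [lap_frame d e E1 E2 X hD p1 q1 p2 q2 e1 e2 hPr.n1 hPr.n12 hPr.n2 c1 c2 hcp hcq f]
    unfold lapE
    ring

/-- the scalar system of a surface with `(Δ² - aΔ + b) X = 0` -/
theorem exists_sys {Ω : Type} [Field Ω] [CharZero Ω] [Algebra ℂ Ω]
    (d e : Derivation ℂ Ω Ω) (hde : ∀ f, d (e f) = e (d f)) (X : Fin 3 → Ω) (S : Ω)
    (hS : S ^ 2 = detM d e X) (hS0 : S ≠ 0) (p1 q1 p2 q2 k1 k2 : Ω)
    (hPr : Pr (met d d X) (met d e X) (met e e X) (h0 d e X) (h1 d e X) (h2 d e X)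
      p1 q1 p2 q2 k1 k2) (a b : ℂ)
    (heq : ∀ i, lapX d e X (lapX d e X (X i)) - a • lapX d e X (X i) + b • X i = 0) :
    ∃ (E1 E2 : Derivation ℂ Ω Ω) (g1 g2 A P : Ω),
      Sys E1 E2 (k1 / S) (k2 / S) g1 g2 A P (algebraMap ℂ Ω (b / 4) * dot X (ap E1 X))
        (algebraMap ℂ Ω (b / 4) * dot X (ap E2 X)) a (b / 4) ∧
      (∀ f, E1 f = p1 * d f + q1 * e f) ∧ (∀ f, E2 f = p2 * d f + q2 * e f) ∧
      p1 * q2 - p2 * q1 ≠ 0 := by
  obtain ⟨E1, E2, ξ, g1, g2, hF, hlap, e1, e2, hδ⟩ :=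
    exists_frame d e hde X S hS hS0 p1 q1 p2 q2 k1 k2 hPr
  have hSt := struct_of_frame E1 E2 X ξ _ _ g1 g2 hF
  obtain ⟨c1, c2, c3⟩ := codazzi E1 E2 X ξ _ _ g1 g2 hF hSt
  obtain ⟨s1, s2, s3, s4, s5, s6⟩ := position E1 E2 X ξ _ _ g1 g2 hF hSt
  have hneg : ∀ f, lapE E1 E2 g1 g2 (-f) = -lapE E1 E2 g1 g2 f := by
    intro f
    unfold lapE
    simp only [map_neg]
    ring
  have heq' : ∀ i, lapE E1 E2 g1 g2 (lapE E1 E2 g1 g2 (X i))
      + algebraMap ℂ Ω a * lapE E1 E2 g1 g2 (X i) + algebraMap ℂ Ω b * X i = 0 := by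
    intro i
    have := heq i
    rw [hlap, hlap, hneg, neg_neg, Algebra.smul_def, Algebra.smul_def] at this
    linear_combination this
  obtain ⟨t1, t2, t3⟩ := tn_parts E1 E2 X ξ _ _ g1 g2 hF hSt c1 c2 ((k1 / S + k2 / S) / 2)
    (algebraMap ℂ Ω a) (algebraMap ℂ Ω b) (by ring) heq'
  have hb4 : algebraMap ℂ Ω b = 4 * algebraMap ℂ Ω (b / 4) := by
    rw [map_div₀, map_ofNat]
    field_simp
  have hDb : ∀ (E : Derivation ℂ Ω Ω) (f : Ω), E (algebraMap ℂ Ω (b / 4) * f)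
      = algebraMap ℂ Ω (b / 4) * E f := by
    intro E f
    rw [Derivation.leibniz, Derivation.map_algebraMap, smul_zero, add_zero, smul_eq_mul]
  refine ⟨E1, E2, g1, g2, (k1 / S + k2 / S) / 2, algebraMap ℂ Ω (b / 4) * dot X ξ,
    ⟨hF.comm, by ring, c1, c2, c3, ?_, ?_, ?_, ?_, ?_, ?_, ?_, ?_, ?_⟩, e1, e2, hδ⟩
  · rw [hb4] at t1; linear_combination t1 / 4
  · rw [hb4] at t2; linear_combination t2 / 4
  · rw [hb4] at t3
    unfold lapE at t3
    linear_combination t3 / 2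
  · rw [hDb, s1]; ring
  · rw [hDb, s2]; ring
  · rw [hDb, s3]; ring
  · rw [hDb, s4]; ring
  · rw [hDb, s5]; ring
  · rw [hDb, s6]; ring

end Pool.Agent.Work.MP_abe657_gt.Two
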