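import Pool.Agent.Work.MP_abe657_gt.Two.Defs

/-!
Module GenA (M, algebra in a field with derivations). First consequences of the scalar system where
`E1 A ≠ 0`, `E2 A ≠ 0`, `k1 ≠ k2`.

Proof. Put `α1 = E1 A`, `α2 = E2 A`, `κ = k1 - k2`, `h = E1 α2 + g1 α1`. By `comm` on `A`,
`E2 α1 = E1 α2 + g1 α1 + g2 α2`, i.e. `h = E2 α1 - g2 α2`. Apply `E1` to `t2` and use `cod1`, `v12`, `t1`:
`(κ g2 + α1) α2 + (k2 + A) E1 α2 = -g1 (k1 + A) α1`, i.e. `κ g2 α2 + α1 α2 + (k2 + A) h + κ g1 α1 = 0`.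
Apply `E2` to `t1` and use `cod2`, `v21`, `t2`: `(κ g1 + α2) α1 + (k1 + A) E2 α1 = g2 (k2 + A) α2`, i.e.
`κ g1 α1 + α1 α2 + (k1 + A) h + κ g2 α2 = 0`. Subtract: `κ h = 0`, so `h = 0` (first two claims) and
`κ (g1 α1 + g2 α2) + α1 α2 = 0` (third claim).
`k1 + A ≠ 0`: if `k1 + A = 0` then `w1 = 0` (`t1`), so `g2 w2 = 0` (`v21`). If `w2 = 0` then `k2 + A = 0` by
`t2`, so `k1 = k2`, contradiction; so `g2 = 0`, `E1 k2 = 0` (`cod1`); `k1 + A = 0` means `3 k1 + k2 = 0`, so
`E1 k1 = 0`, so `E1 A = 0`, contradiction. `k2 + A ≠ 0` in the same way (`v12` instead of `v21`).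
-/

set_option autoImplicit false

namespace Pool.Agent.Work.MP_abe657_gt.Two

theorem gen_first {Ω : Type} [Field Ω] [CharZero Ω] [Algebra ℂ Ω] (E1 E2 : Derivation ℂ Ω Ω)
    (k1 k2 g1 g2 A P w1 w2 : Ω) (a β : ℂ) (h : Sys E1 E2 k1 k2 g1 g2 A P w1 w2 a β)
    (hk : k1 ≠ k2) (hA1 : E1 A ≠ 0) (hA2 : E2 A ≠ 0) :
    E1 (E2 A) = -g1 * E1 A ∧ E2 (E1 A) = g2 * E2 A ∧
      (k1 - k2) * (g1 * E1 A + g2 * E2 A) + E1 A * E2 A = 0 ∧ k1 + A ≠ 0 ∧ k2 + A ≠ 0 := by
  have hk' : k1 - k2 ≠ 0 := sub_ne_zero.2 hk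
  have c := h.comm A
  have e1 : (k2 + A) * E1 (E2 A) + E2 A * (E1 k2 + E1 A) = E1 w2 := by
    rw [← h.t2, Derivation.leibniz, smul_eq_mul, smul_eq_mul, map_add]
  have e2 : (k1 + A) * E2 (E1 A) + E1 A * (E2 k1 + E2 A) = E2 w1 := by
    rw [← h.t1, Derivation.leibniz, smul_eq_mul, smul_eq_mul, map_add]
  have d1 := h.cod1
  have d2 := h.cod2
  have t1 := h.t1
  have t2 := h.t2
  have q1 : (k1 - k2) * g2 * E2 A + E1 A * E2 A + (k2 + A) * (E1 (E2 A) + g1 * E1 A)
      + (k1 - k2) * g1 * E1 A = 0 := by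
    linear_combination e1 + h.v12 + g1 * t1 - E2 A * d1
  have q2 : (k1 - k2) * g1 * E1 A + E1 A * E2 A + (k1 + A) * (E1 (E2 A) + g1 * E1 A)
      + (k1 - k2) * g2 * E2 A = 0 := by
    linear_combination e2 + h.v21 - g2 * t2 - E1 A * d2 + (k1 + A) * c
  have hh : E1 (E2 A) + g1 * E1 A = 0 := by
    have : (k1 - k2) * (E1 (E2 A) + g1 * E1 A) = 0 := by linear_combination q2 - q1
    exact (mul_eq_zero.1 this).resolve_left hk'
  have r1 : E1 (E2 A) = -g1 * E1 A := by linear_combination hh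
  have r2 : E2 (E1 A) = g2 * E2 A := by linear_combination r1 - c
  have r3 : (k1 - k2) * (g1 * E1 A + g2 * E2 A) + E1 A * E2 A = 0 := by
    linear_combination q1 - (k2 + A) * hh
  refine ⟨r1, r2, r3, ?_, ?_⟩
  · intro hz
    have hw1 : w1 = 0 := by rw [← t1, hz, zero_mul]
    have hw2 : w2 ≠ 0 := by
      intro hw
      rw [hw] at t2
      have h2 : k2 + A = 0 := (mul_eq_zero.1 t2).resolve_right hA2
      exact hk' (by linear_combination hz - h2)
    have hg : g2 = 0 := by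
      have e := h.v21
      rw [hw1, map_zero, zero_sub, neg_eq_zero] at e
      exact (mul_eq_zero.1 e).resolve_right hw2
    have hk2 : E1 k2 = 0 := by rw [d1, hg, mul_zero]
    have e : k2 = -(3 * k1) := by
      have := h.mean
      linear_combination 2 * hz - this
    have e3 : E1 A = 0 := by
      have eA : (3 : Ω) * A = k2 := by linear_combination 3 * hz - e
      have e4 := congrArg E1 eA
      have e5 : E1 (3 * A) = 3 * E1 A := by
        have : (3 : Ω) * A = A + A + A := by ring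
        rw [this, map_add, map_add]; ring
      rw [e5, hk2] at e4
      exact (mul_eq_zero.1 e4).resolve_left (by norm_num)
    exact hA1 e3
  · intro hz
    have hw2 : w2 = 0 := by rw [← t2, hz, zero_mul]
    have hw1 : w1 ≠ 0 := by
      intro hw
      rw [hw] at t1
      have h2 : k1 + A = 0 := (mul_eq_zero.1 t1).resolve_right hA1
      exact hk' (by linear_combination h2 - hz)
    have hg : g1 = 0 := by
      have e := h.v12
      rw [hw2, map_zero, zero_add] at e
      exact (mul_eq_zero.1 e).resolve_right hw1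
    have hk1 : E2 k1 = 0 := by rw [d2, hg, mul_zero]
    have e3 : E2 A = 0 := by
      have eA : (3 : Ω) * A = k1 := by
        have := h.mean
        linear_combination this + hz
      have e4 := congrArg E2 eA
      have e5 : E2 (3 * A) = 3 * E2 A := by
        have : (3 : Ω) * A = A + A + A := by ring
        rw [this, map_add, map_add]; ring
      rw [e5, hk1] at e4
      exact (mul_eq_zero.1 e4).resolve_left (by norm_num)
    exact hA2 e3

end Pool.Agent.Work.MP_abe657_gt.Two
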