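import Pool.Agent.Work.MP_abe657_gt.Two.Defs

/-!
Module GenC (M, one polynomial identity). The derivative of the relation `c0` in the direction `D1`, with
the constant `a` eliminated.

Proof. Let `C` be the left side of `c0` and `Q = A (2A + m)(2A - m)`, the coefficient of `a` in `C`.
`D1 C = 0` (as `C = 0`) and `D1 a = 0`. The derivative contains `m (a1 + a2) D1 n`; from `gauss` and `dn`:
`(a1 + a2) D1 n = G - 3 n a2/m`, `G` the right side of `gauss`. Then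
`(2A + m)(2A - m) A * D1 C - D1 Q * C = 0` does not contain `a`, and it is `-(2A - m)` times the claim
(use `da11, da21, da22, dm1, dP1, dA1`; clear the denominators `m`, `2A + m`, `2A - m`).
The claim was obtained by computer algebra; if something does not match tell helper94.
-/

set_option autoImplicit false

namespace Pool.Agent.Work.MP_abe657_gt.Two

theorem gen_c1 {Ω : Type} [Field Ω] [CharZero Ω] [Algebra ℂ Ω] (D1 D2 : Derivation ℂ Ω Ω)
    (A m P n a1 a2 : Ω) (a β : ℂ) (h : Gen D1 D2 A m P n a1 a2 a β) :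
    A * (80 * A ^ 5 + 16 * A ^ 4 * m * n + 160 * A ^ 4 * m + 8 * A ^ 3 * m ^ 2 * n
        + 52 * A ^ 3 * m ^ 2 - 4 * A ^ 2 * m ^ 3 * n - 40 * A ^ 2 * m ^ 3 - 2 * A * m ^ 4 * n
        - 18 * A * m ^ 4 + 28 * A * algebraMap ℂ Ω β - 2 * m * n * algebraMap ℂ Ω β
        - 6 * m * algebraMap ℂ Ω β)
      + a2 * (-2 * A ^ 2 * n ^ 2 - 2 * A ^ 2 * n - 2 * A ^ 2 + 10 * A * m * n - 19 * A * m
        + m ^ 2 * n - 4 * m ^ 2)
      + a1 * (-2 * A ^ 2 * n ^ 2 - 18 * A ^ 2 * n - 82 * A ^ 2 + 10 * A * m * n + 37 * A * m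
        + m ^ 2 * n + 4 * m ^ 2)
      + P * (36 * A ^ 3 + 2 * A ^ 2 * m * n + 22 * A ^ 2 * m - 16 * A * m ^ 2 - 4 * m ^ 3) = 0 := by
  have hm := h.m0
  have h1 := h.A1
  have h2 := h.A2
  have hu : 2 * m * ((n - 1) / (2 * m)) = n - 1 := by field_simp
  have hv : 2 * m * ((n + 1) / (2 * m)) = n + 1 := by field_simp
  obtain ⟨u, hu'⟩ : ∃ u, u = (n - 1) / (2 * m) := ⟨_, rfl⟩
  obtain ⟨v, hv'⟩ : ∃ v, v = (n + 1) / (2 * m) := ⟨_, rfl⟩
  obtain ⟨b', hb'⟩ : ∃ b', b' = algebraMap ℂ Ω β := ⟨_, rfl⟩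
  obtain ⟨a', ha'⟩ : ∃ a', a' = algebraMap ℂ Ω a := ⟨_, rfl⟩
  have Db : D1 b' = 0 := by rw [hb']; exact D1.map_algebraMap β
  have Da : D1 a' = 0 := by rw [ha']; exact D1.map_algebraMap a
  have d11 : (2 * A + m) * D1 a1 = 2 * (b' + P * (A + m)) - (n + 7) * a1
      + u * ((2 * A - m) * a2) := by rw [h.da11, hb', hu']
  have d22 : (2 * A - m) * D2 a2 = 2 * (b' + P * (A - m)) - (7 - n) * a2
      + v * ((2 * A + m) * a1) := by rw [h.da22, hb', hv']
  have d21 : D1 a2 = -(u * a2) := by rw [h.da21, hu']; ring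
  have dn : m * (D1 n - D2 n) = -3 * n := by rw [h.dn]; field_simp
  rw [← hu'] at hu
  rw [← hv'] at hv
  -- the Gauss equation multiplied by the denominators
  have g : 4 * m * (a1 * D1 n + a2 * D2 n) = 4 * m * (4 * m * (A + m) * (A - m))
      - 2 * m * (n + 1) * D1 a1 - 2 * m * (n - 1) * D2 a2
      + ((n + 1) * (3 * n + 7) * a1 + (n - 1) * (3 * n - 7) * a2) := by
    rw [h.gauss]; field_simp; ring
  have g' : 4 * m * (a1 + a2) * D1 n = 4 * m * (4 * m * (A + m) * (A - m))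
      - 2 * m * (n + 1) * D1 a1 - 2 * m * (n - 1) * D2 a2
      + ((n + 1) * (3 * n + 7) * a1 + (n - 1) * (3 * n - 7) * a2) - 12 * n * a2 := by
    linear_combination g + 4 * a2 * dn
  -- the derivative of c0
  have c0 := h.c0
  rw [← hb', ← ha'] at c0
  have num : ∀ k : ℕ, D1 (k : Ω) = 0 := fun k => D1.map_natCast k
  have n2 : D1 (2 : Ω) = 0 := by exact_mod_cast num 2
  have n4 : D1 (4 : Ω) = 0 := by exact_mod_cast num 4
  have n6 : D1 (6 : Ω) = 0 := by exact_mod_cast num 6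
  have n8 : D1 (8 : Ω) = 0 := by exact_mod_cast num 8
  have n12 : D1 (12 : Ω) = 0 := by exact_mod_cast num 12
  have dc := congrArg D1 c0
  simp only [map_add, map_sub, map_zero, Derivation.leibniz, Derivation.leibniz_pow, smul_eq_mul,
    nsmul_eq_mul, h.dA1, h.dm1, h.dP1, Db, Da, n2, n4, n6, n8, n12] at dc
  rw [← hb']
  have key : (2 * A - m) * (A * (80 * A ^ 5 + 16 * A ^ 4 * m * n + 160 * A ^ 4 * m
        + 8 * A ^ 3 * m ^ 2 * n
        + 52 * A ^ 3 * m ^ 2 - 4 * A ^ 2 * m ^ 3 * n - 40 * A ^ 2 * m ^ 3 - 2 * A * m ^ 4 * n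
        - 18 * A * m ^ 4 + 28 * A * b' - 2 * m * n * b'
        - 6 * m * b')
      + a2 * (-2 * A ^ 2 * n ^ 2 - 2 * A ^ 2 * n - 2 * A ^ 2 + 10 * A * m * n - 19 * A * m
        + m ^ 2 * n - 4 * m ^ 2)
      + a1 * (-2 * A ^ 2 * n ^ 2 - 18 * A ^ 2 * n - 82 * A ^ 2 + 10 * A * m * n + 37 * A * m
        + m ^ 2 * n + 4 * m ^ 2)
      + P * (36 * A ^ 3 + 2 * A ^ 2 * m * n + 22 * A ^ 2 * m - 16 * A * m ^ 2 - 4 * m ^ 3)) = 0 := by
    linear_combination (-(A * (4 * A ^ 2 - m ^ 2))) * dc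
      + (12 * A ^ 2 - m ^ 2 - A * m * (n + 3)) * c0 + A * (4 * A ^ 2 - m ^ 2) / 4 * g'
      + A * (2 * A - m) * ((m * n - 6 * A + 4 * m) - m * (n + 1) / 2) * d11
      - A * (2 * A + m) * m * (n - 1) / 2 * d22
      + A * (4 * A ^ 2 - m ^ 2) * (m * n - 6 * A - 4 * m) * d21
      - A * (2 * A - m) * a2 * (A * n + 3 / 2 * m * n - 27 * A - m / 2) / 2 * hu
      - A * (2 * A + m) ^ 2 * (n - 1) / 4 * a1 * hv
  exact (mul_eq_zero.1 key).resolve_left h2

end Pool.Agent.Work.MP_abe657_gt.Two
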