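import Pool.Agent.Work.MP_abe657_gt.Two.KkLe

/-!
Module KkBig (S-M, leading terms). `z = ζ A^e + ...` with `e > 1` is impossible.

Proof (leading terms with the lemmas of KkLe; write `L e c` for `Le _ e c`; use `Le.mono` for the lower
order terms). `z - A`: `L e ζ` (as `1 < e`). `dA P = -(z (z - A))`: `L (2e) (-ζ²)`, so `P`: `L (2e+1) (-ζ²/(2e+1))`
(`int_pos`). `a - 2z² + 8Az - 10A²`: `L (2e) (-2ζ²)`. In `v4`: `A z³ (..)`: `L (5e+1) (-2ζ⁵)`; `β + 3AP` is
`L (2e+2) _`, so `4 z (z - A) (β + 3AP)` is `L (4e+2) _`, hence `L (5e+1) 0` (as `4e + 2 < 5e + 1`). So `3V` is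
`L (5e+1) (-2ζ⁵)`. `dA (3V)`: `L (5e) ((5e+1) (-2ζ⁵))`. By `dV` it is `6 z (β + P (z - A))`, which is
`L (4e+1) _`, hence `L (5e) 0`. So `(5e+1) ζ⁵ = 0`, contradiction.
-/

set_option autoImplicit false

namespace Pool.Agent.Work.MP_abe657_gt.Two

private theorem kkbig_c {f : kk} {e e' : ℚ} {c c' : ℂ} (h : Le f e c) (he : e = e') (hc : c = c') :
    Le f e' c' := by
  subst he
  subst hc
  exact h

private theorem kkbig_n (n : ℕ) {x : kk} {e : ℚ} {c : ℂ} (h : Le x e c) :
    Le ((n : kk) * x) e ((n : ℂ) * c) :=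
  kkbig_c ((Le.natCast n).mul h) (by ring) rfl

theorem kk_big (z P V : kk) (a β : ℂ) (h : Rot dA tA z P V a β) (e : ℚ) (ζ : ℂ) (hζ : ζ ≠ 0)
    (hz : Le z e ζ) (he : 1 < e) : False := by
  have hA := Le.tA
  have hzA : Le (z - tA) e ζ := kkbig_c (hz.sub (hA.mono he)) rfl (by ring)
  have hdP : Le (dA P) (2 * e + 1 - 1) (-ζ ^ 2) := by
    rw [h.dP]
    exact kkbig_c (hz.mul hzA).neg (by ring) (by ring)
  obtain ⟨p, hP⟩ : ∃ p, Le P (2 * e + 1) p := ⟨_, hdP.int_pos (by linarith)⟩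
  have hG : Le (algebraMap ℂ kk a - 2 * z ^ 2 + 8 * tA * z - 10 * tA ^ 2) (2 * e) (-2 * ζ ^ 2) := by
    have h1 := (Le.const a).mono (show (0 : ℚ) < 2 * e by linarith)
    have h2 : Le (2 * z ^ 2) (2 * e) (2 * ζ ^ 2) := by
      have := kkbig_n 2 (hz.mul hz)
      rw [← pow_two] at this
      exact kkbig_c this (by ring) (by push_cast; ring)
    have h3 : Le (8 * tA * z) (2 * e) 0 := by
      have := (kkbig_n 8 (hA.mul hz)).mono (show 1 + e < 2 * e by linarith)
      rw [← mul_assoc] at this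
      exact this
    have h4 : Le (10 * tA ^ 2) (2 * e) 0 := by
      have := (kkbig_n 10 (hA.mul hA)).mono (show 1 + 1 < 2 * e by linarith)
      rw [← pow_two] at this
      exact this
    exact kkbig_c (((h1.sub h2).add h3).sub h4) rfl (by ring)
  have hV : Le (3 * V) (5 * e + 1) (-2 * ζ ^ 5) := by
    rw [h.v4]
    have h1 : Le (tA * z ^ 3 * (algebraMap ℂ kk a - 2 * z ^ 2 + 8 * tA * z - 10 * tA ^ 2))
        (5 * e + 1) (-2 * ζ ^ 5) := by
      have h2 : Le (z ^ 3) (3 * e) (ζ ^ 3) := by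
        have := (hz.mul hz).mul hz
        rw [show z * z * z = z ^ 3 by ring] at this
        exact kkbig_c this (by ring) (by ring)
      exact kkbig_c ((hA.mul h2).mul hG) (by ring) (by ring)
    have h3 : Le (4 * z * (z - tA) * (algebraMap ℂ kk β + 3 * tA * P)) (5 * e + 1) 0 := by
      have h4 : Le (3 * tA * P) (2 * e + 2) (3 * p) := by
        have := kkbig_n 3 (hA.mul hP)
        rw [← mul_assoc] at this
        exact kkbig_c this (by ring) (by push_cast; ring)
      have h5 := ((Le.const β).mono (show (0 : ℚ) < 2 * e + 2 by linarith)).add h4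
      have h6 := ((kkbig_n 4 hz).mul hzA).mul h5
      exact h6.mono (by linarith)
    exact kkbig_c (h1.add h3) rfl (by ring)
  have hd1 := hV.deriv
  have hd2 : Le (dA (3 * V)) (5 * e + 1 - 1) 0 := by
    have h1 : dA (3 * V) = 3 * (2 * z * (algebraMap ℂ kk β + P * (z - tA))) := by
      rw [← h.dV, show (3 : kk) * V = V + V + V by ring, map_add, map_add]
      ring
    rw [h1]
    have h2 := ((Le.const β).mono (show (0 : ℚ) < 2 * e + 1 + e by linarith)).add (hP.mul hzA)
    have h3 := kkbig_n 3 ((kkbig_n 2 hz).mul h2)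
    exact h3.mono (by linarith)
  have h0 := hd1.uniq hd2
  rcases mul_eq_zero.1 h0 with h1 | h1
  · have h2 : (5 * e + 1 : ℚ) = 0 := by exact_mod_cast h1
    linarith
  · rcases mul_eq_zero.1 h1 with h2 | h2
    · norm_num at h2
    · exact hζ (pow_eq_zero_iff (by norm_num) |>.1 h2)

end Pool.Agent.Work.MP_abe657_gt.Two
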