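import Pool.Agent.Work.MP_abe657_gt.Two.RotDefs

/-!
Module KkLe (M, Hahn series). The calculus of leading terms in `kk` (`f = c A^e + ...`, `A = t⁻¹`).

Proof. Coefficient formulas: `co (x + y) q = co x q + co y q`; multiplication as in `HahnClosed.lean`
(`GqH_mul_gen`, private there: copy it); `algebraMap ℂ kk c` is `HahnSeries.C c`; `dA f = -(t² d/dt f)`, so
`co (dA f) q = -((q - 1) : ℂ) * co f (q - 1)` (see `ddFun_coeff` and `ck_dk` in `Taylor.lean`;
multiplication by `t² = single 2 1` shifts by 2). `Le.exists`: `f ≠ 0`, take `e = -order f`.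
`Le.int_pos`: for `q < -e < 0`, the coefficient of `dA f` at `q + 1 < -(e - 1)` is `-q co f q = 0` and `q ≠ 0`.
-/

set_option autoImplicit false

namespace Pool.Agent.Work.MP_abe657_gt.Two

private lemma kkle_mul_gen (x y : HahnSeries ℚ ℂ) (a b : ℚ)
    (hx : ∀ q : ℚ, q < a → x.coeff q = 0) (hy : ∀ q : ℚ, q < b → y.coeff q = 0) :
    (∀ q : ℚ, q < a + b → (x * y).coeff q = 0) ∧
      (x * y).coeff (a + b) = x.coeff a * y.coeff b := by
  constructor
  · intro q hq
    rw [HahnSeries.coeff_mul]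
    refine Finset.sum_eq_zero fun ij hij => ?_
    have h : ij.1 + ij.2 = q := (Finset.mem_antidiagonal.mp hij).2.2
    by_cases h1 : ij.1 < a
    · rw [hx _ h1, zero_mul]
    · rw [hy _ (by linarith), mul_zero]
  · rw [HahnSeries.coeff_mul]
    by_cases hab : x.coeff a = 0 ∨ y.coeff b = 0
    · have h0 : x.coeff a * y.coeff b = 0 := by
        rcases hab with h | h <;> simp [h]
      rw [h0]
      refine Finset.sum_eq_zero fun ij hij => ?_
      have h : ij.1 + ij.2 = a + b := (Finset.mem_antidiagonal.mp hij).2.2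
      rcases lt_trichotomy ij.1 a with h1 | h1 | h1
      · rw [hx _ h1, zero_mul]
      · have h2 : ij.2 = b := by linarith
        rw [h1, h2, h0]
      · rw [hy _ (by linarith), mul_zero]
    · push Not at hab
      rw [Finset.sum_eq_single (a, b)]
      · intro ij hij hne
        have h : ij.1 + ij.2 = a + b := (Finset.mem_antidiagonal.mp hij).2.2
        rcases lt_trichotomy ij.1 a with h1 | h1 | h1
        · rw [hx _ h1, zero_mul]
        · have h2 : ij.2 = b := by linarith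
          exact absurd (Prod.ext h1 h2) hne
        · rw [hy _ (by linarith), mul_zero]
      · intro hnot
        exfalso
        apply hnot
        rw [Finset.mem_antidiagonal]
        exact ⟨hab.1, hab.2, rfl⟩

private lemma kkle_add (x y : kk) (q : ℚ) : co (x + y) q = co x q + co y q := rfl

private lemma kkle_neg (x : kk) (q : ℚ) : co (-x) q = -co x q := rfl

private lemma kkle_sub (x y : kk) (q : ℚ) : co (x - y) q = co x q - co y q := rfl

private lemma kkle_const (c : ℂ) (q : ℚ) : co (algebraMap ℂ kk c) q = if q = 0 then c else 0 := by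
  have h : co (algebraMap ℂ kk c) q = (HahnSeries.single (0 : ℚ) c : HahnSeries ℚ ℂ).coeff q := rfl
  rw [h]
  split_ifs with hq
  · rw [hq, HahnSeries.coeff_single_same]
  · exact HahnSeries.coeff_single_of_ne hq

private lemma kkle_tA (q : ℚ) : co Two.tA q = if q = -1 then 1 else 0 := by
  have h : co Two.tA q = (HahnSeries.single (-1 : ℚ) (1 : ℂ) : HahnSeries ℚ ℂ).coeff q := rfl
  rw [h]
  split_ifs with hq
  · rw [hq, HahnSeries.coeff_single_same]
  · exact HahnSeries.coeff_single_of_ne hq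

private lemma kkle_shift (x : HahnSeries ℚ ℂ) (q : ℚ) :
    ((HahnSeries.single (1 : ℚ) (1 : ℂ) : HahnSeries ℚ ℂ) ^ 2 * x).coeff q = x.coeff (q - 2) := by
  have h1 : (HahnSeries.single (1 : ℚ) (1 : ℂ) : HahnSeries ℚ ℂ) ^ 2 =
      HahnSeries.single (2 : ℚ) (1 : ℂ) := by
    rw [pow_two, HahnSeries.single_mul_single]
    norm_num
  have h2 := HahnSeries.coeff_single_mul_add (Γ := ℚ) (R := ℂ) (r := 1) (x := x) (a := q - 2)
    (b := 2)
  rw [sub_add_cancel, one_mul] at h2
  rw [h1, h2]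

private lemma kkle_dA (x : kk) (q : ℚ) : co (dA x) q = -(((q - 1 : ℚ) : ℂ) * co x (q - 1)) := by
  have h1 : dA x = -(tk ^ 2 * dk x) := rfl
  have h2 : co (tk ^ 2 * dk x) q =
      ((HahnSeries.single (1 : ℚ) (1 : ℂ) : HahnSeries ℚ ℂ) ^ 2 * (ddFun (R := ℂ) x)).coeff q := rfl
  rw [h1, kkle_neg, h2, kkle_shift, ddFun_coeff]
  have h3 : q - 2 + 1 = q - 1 := by ring
  rw [h3]
  rfl

theorem Le.add {f g : kk} {e : ℚ} {c d : ℂ} (hf : Le f e c) (hg : Le g e d) :
    Le (f + g) e (c + d) :=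
  ⟨fun q hq => by rw [kkle_add, hf.1 q hq, hg.1 q hq, add_zero],
    by rw [kkle_add, hf.2, hg.2]⟩

theorem Le.neg {f : kk} {e : ℚ} {c : ℂ} (hf : Le f e c) : Le (-f) e (-c) :=
  ⟨fun q hq => by rw [kkle_neg, hf.1 q hq, neg_zero], by rw [kkle_neg, hf.2]⟩

theorem Le.sub {f g : kk} {e : ℚ} {c d : ℂ} (hf : Le f e c) (hg : Le g e d) :
    Le (f - g) e (c - d) :=
  ⟨fun q hq => by rw [kkle_sub, hf.1 q hq, hg.1 q hq, sub_zero],
    by rw [kkle_sub, hf.2, hg.2]⟩

theorem Le.mul {f g : kk} {e e' : ℚ} {c d : ℂ} (hf : Le f e c) (hg : Le g e' d) :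
    Le (f * g) (e + e') (c * d) := by
  have h := kkle_mul_gen f g (-e) (-e') hf.1 hg.1
  have h1 : -(e + e') = -e + -e' := by ring
  refine ⟨fun q hq => ?_, ?_⟩
  · rw [h1] at hq
    exact h.1 q hq
  · rw [h1, ← hf.2, ← hg.2]
    exact h.2

theorem Le.const (c : ℂ) : Le (algebraMap ℂ kk c) 0 c := by
  refine ⟨fun q hq => ?_, ?_⟩
  · rw [kkle_const, if_neg (by rw [neg_zero] at hq; exact hq.ne)]
  · rw [kkle_const, if_pos neg_zero]

theorem Le.natCast (n : ℕ) : Le (n : kk) 0 n := by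
  have h := Le.const (n : ℂ)
  rwa [map_natCast] at h

theorem Le.tA : Le Two.tA 1 1 :=
  ⟨fun q hq => by rw [kkle_tA, if_neg hq.ne], by rw [kkle_tA, if_pos rfl]⟩

theorem Le.mono {f : kk} {e e' : ℚ} {c : ℂ} (hf : Le f e c) (h : e < e') : Le f e' 0 :=
  ⟨fun q hq => hf.1 q (by linarith), hf.1 _ (by linarith)⟩

theorem Le.uniq {f : kk} {e : ℚ} {c d : ℂ} (hf : Le f e c) (hg : Le f e d) : c = d :=
  hf.2.symm.trans hg.2

theorem Le.exists_ne {f : kk} (hf : f ≠ 0) : ∃ (e : ℚ) (c : ℂ), c ≠ 0 ∧ Le f e c := by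
  have hf' : (show HahnSeries ℚ ℂ from f) ≠ 0 := hf
  refine ⟨-HahnSeries.order (show HahnSeries ℚ ℂ from f),
    co f (HahnSeries.order (show HahnSeries ℚ ℂ from f)), HahnSeries.coeff_order_eq_zero.not.2 hf',
    fun q hq => ?_, ?_⟩
  · rw [neg_neg] at hq
    exact HahnSeries.coeff_eq_zero_of_lt_order hq
  · rw [neg_neg]

theorem Le.deriv {f : kk} {e : ℚ} {c : ℂ} (hf : Le f e c) : Le (dA f) (e - 1) ((e : ℂ) * c) := by
  refine ⟨fun q hq => ?_, ?_⟩
  · rw [kkle_dA, hf.1 _ (by linarith), mul_zero, neg_zero]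
  · have h : -(e - 1) - 1 = -e := by ring
    rw [kkle_dA, h, hf.2]
    push_cast
    ring

private lemma kkle_coef {f : kk} {q : ℚ} (hq : q ≠ 0) (h : co (dA f) (q + 1) = 0) : co f q = 0 := by
  rw [kkle_dA, add_sub_cancel_right, neg_eq_zero] at h
  rcases mul_eq_zero.1 h with h | h
  · exact absurd (by exact_mod_cast h) hq
  · exact h

private lemma kkle_lead {f : kk} {e : ℚ} {c : ℂ} (he : e ≠ 0) (h : co (dA f) (-(e - 1)) = c) :
    co f (-e) = c / e := by
  have h1 : -(e - 1) - 1 = -e := by ring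
  rw [kkle_dA, h1] at h
  have h2 : (e : ℂ) ≠ 0 := by exact_mod_cast he
  rw [eq_div_iff h2, ← h]
  push_cast
  ring

/-- integration, positive exponent -/
theorem Le.int_pos {f : kk} {e : ℚ} {c : ℂ} (hf : Le (dA f) (e - 1) c) (he : 0 < e) :
    Le f e (c / e) :=
  ⟨fun q hq => kkle_coef (by linarith : q < 0).ne (hf.1 _ (by linarith)),
    kkle_lead he.ne' hf.2⟩

/-- integration, exponent zero: there is no logarithm -/
theorem Le.int_zero {f : kk} {c : ℂ} (hf : Le (dA f) (-1) c) : c = 0 := by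
  have h := hf.2
  rw [kkle_dA, neg_neg] at h
  rw [← h]
  simp

/-- integration, negative exponent: the constant is the only other term -/
theorem Le.int_neg {f : kk} {e : ℚ} {c : ℂ} (hf : Le (dA f) (e - 1) c) (he : e < 0) :
    ∃ c0 : ℂ, Le f 0 c0 ∧ Le (f - algebraMap ℂ kk c0) e (c / e) := by
  refine ⟨co f 0, ⟨fun q hq => ?_, by rw [neg_zero]⟩, fun q hq => ?_, ?_⟩
  · rw [neg_zero] at hq
    exact kkle_coef hq.ne (hf.1 _ (by linarith))
  · rw [kkle_sub, kkle_const]
    by_cases h0 : q = 0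
    · rw [if_pos h0, h0, sub_self]
    · rw [if_neg h0, sub_zero]
      exact kkle_coef h0 (hf.1 _ (by linarith))
  · rw [kkle_sub, kkle_const, if_neg (by intro h; linarith), sub_zero]
    exact kkle_lead he.ne hf.2

theorem dA_tA : dA Two.tA = 1 := by
  apply HahnSeries.ext
  funext q
  have h1 : HahnSeries.coeff (Γ := ℚ) (R := ℂ) (dA Two.tA) q = co (dA Two.tA) q := rfl
  have h2 : HahnSeries.coeff (Γ := ℚ) (R := ℂ) (1 : kk) q = co (algebraMap ℂ kk 1) q := by
    rw [map_one]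
    rfl
  rw [h1, h2, kkle_dA, kkle_tA, kkle_const]
  by_cases hq : q = 0
  · subst hq
    norm_num
  · rw [if_neg hq, if_neg (by intro h; apply hq; linarith), mul_zero, neg_zero]

end Pool.Agent.Work.MP_abe657_gt.Two
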