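import Pool.Agent.Work.MP_abe657_gt.Two.Defs

/-!
Module RealDisc (S). Over the reals, with `g` positive definite, `disc = 0` only if `h` is proportional to
`g` (umbilic point).

Proof. Put `a = g0 h1 - g1 h0`, `b = g0 h2 - g2 h0`, `c = g1 h2 - g2 h1`. Then `g2 a - g1 b + g0 c = 0` (`ring`), so
`g0² disc = (g0 b - 2 g1 a)² + 4 (g0 g2 - g1²) a²`. So `a = 0`, `b = 0`, `c = 0`.
-/

set_option autoImplicit false

namespace Pool.Agent.Work.MP_abe657_gt.Two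

theorem disc_real (g0 g1 g2 h0 h1 h2 : ℝ) (hg : 0 < g0) (hD : 0 < g0 * g2 - g1 ^ 2)
    (h : disc g0 g1 g2 h0 h1 h2 = 0) :
    g0 * h1 = g1 * h0 ∧ g0 * h2 = g2 * h0 ∧ g1 * h2 = g2 * h1 := by
  have key : (g0 * (g0 * h2 - g2 * h0) - 2 * g1 * (g0 * h1 - g1 * h0)) ^ 2
      + 4 * (g0 * g2 - g1 ^ 2) * (g0 * h1 - g1 * h0) ^ 2 = g0 ^ 2 * disc g0 g1 g2 h0 h1 h2 := by
    unfold disc; ring
  rw [h, mul_zero] at key
  have ha : g0 * h1 - g1 * h0 = 0 := by
    by_contra hne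
    have : 0 < (g0 * h1 - g1 * h0) ^ 2 := by positivity
    nlinarith [sq_nonneg (g0 * (g0 * h2 - g2 * h0) - 2 * g1 * (g0 * h1 - g1 * h0)),
      mul_pos hD this]
  rw [ha] at key
  have hb : g0 * (g0 * h2 - g2 * h0) = 0 := by
    have : (g0 * (g0 * h2 - g2 * h0)) ^ 2 = 0 := by linear_combination key
    exact pow_eq_zero_iff two_ne_zero |>.1 this
  have hb' : g0 * h2 - g2 * h0 = 0 := (mul_eq_zero.1 hb).resolve_left hg.ne'
  refine ⟨by linarith, by linarith, ?_⟩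
  have hc : g0 * (g1 * h2 - g2 * h1) = 0 := by linear_combination g1 * hb' - g2 * ha
  have := (mul_eq_zero.1 hc).resolve_left hg.ne'
  linarith

end Pool.Agent.Work.MP_abe657_gt.Two
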