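import Pool.Agent.Work.MP_abe657_gt.Two.RealDefs
import Pool.Agent.Work.MP_abe657_gt.TaylorLap
import Pool.Agent.Work.MP_abe657_gt.TaylorPoly

/-!
Module TayH (S-M). The Taylor expansion of the second fundamental form.

Proof. `hT.add`, `hT.mul`, `TaylorLapAux.T_sub`, `TaylorLapAux.T_pd` (or `hT.pd0`, `hT.pd1`),
`TaylorLapAux.smooth_coord`, `contDiffAt_pd`; unfold `rh`, `det3`, `h0`, `h1`, `h2`, `ap`. (`rh 1 0` is not
needed.)
-/

set_option autoImplicit false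

namespace Pool.Agent.Work.MP_abe657_gt.Two

open scoped ContDiff Topology

private theorem tayh_det_smooth {u0 : E2} {u v w : Fin 3 → E2 → ℝ}
    (hu : ∀ a, ContDiffAt ℝ ∞ (u a) u0) (hv : ∀ a, ContDiffAt ℝ ∞ (v a) u0)
    (hw : ∀ a, ContDiffAt ℝ ∞ (w a) u0) :
    ContDiffAt ℝ ∞ (fun x => det3 (fun a => u a x) (fun a => v a x) (fun a => w a x)) u0 :=
  (((hu 0).mul (((hv 1).mul (hw 2)).sub ((hv 2).mul (hw 1)))).add
    ((hu 1).mul (((hv 2).mul (hw 0)).sub ((hv 0).mul (hw 2))))).add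
    ((hu 2).mul (((hv 0).mul (hw 1)).sub ((hv 1).mul (hw 0))))

private theorem tayh_det {u0 : E2} {T : (E2 → ℝ) → LL} (hT : IsTaylor u0 T)
    {u v w : Fin 3 → E2 → ℝ} (hu : ∀ a, ContDiffAt ℝ ∞ (u a) u0)
    (hv : ∀ a, ContDiffAt ℝ ∞ (v a) u0) (hw : ∀ a, ContDiffAt ℝ ∞ (w a) u0) :
    T (fun x => det3 (fun a => u a x) (fun a => v a x) (fun a => w a x)) =
      det3 (fun a => T (u a)) (fun a => T (v a)) (fun a => T (w a)) := by
  have hm : ∀ (a b c d e : Fin 3), T (fun x => u a x * (v b x * w c x - v d x * w e x)) =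
      T (u a) * (T (v b) * T (w c) - T (v d) * T (w e)) := by
    intro a b c d e
    rw [hT.mul (u a) _ (hu a) (((hv b).mul (hw c)).sub ((hv d).mul (hw e))),
      TaylorLapAux.T_sub hT ((hv b).mul (hw c)) ((hv d).mul (hw e)),
      hT.mul _ _ (hv b) (hw c), hT.mul _ _ (hv d) (hw e)]
  have hs : ∀ (a b c d e : Fin 3), ContDiffAt ℝ ∞
      (fun x => u a x * (v b x * w c x - v d x * w e x)) u0 := fun a b c d e =>
    (hu a).mul (((hv b).mul (hw c)).sub ((hv d).mul (hw e)))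
  simp only [det3]
  rw [hT.add _ _ ((hs 0 1 2 2 1).add (hs 1 2 0 0 2)) (hs 2 0 1 1 0),
    hT.add _ _ (hs 0 1 2 2 1) (hs 1 2 0 0 2), hm, hm, hm]

theorem rh_smooth {X : E2 → E3} {u0 : E2} (hX : ContDiffAt ℝ ∞ X u0) (i j : Fin 2) :
    ContDiffAt ℝ ∞ (rh i j X) u0 :=
  tayh_det_smooth (u := fun a => pd i (pd j (fun w => X w a)))
    (v := fun a => pd 0 (fun w => X w a)) (w := fun a => pd 1 (fun w => X w a))
    (fun a => TaylorAux.ty_smooth i (TaylorAux.ty_smooth j (TaylorLapAux.smooth_coord hX a)))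
    (fun a => TaylorAux.ty_smooth 0 (TaylorLapAux.smooth_coord hX a))
    (fun a => TaylorAux.ty_smooth 1 (TaylorLapAux.smooth_coord hX a))

private theorem tayh_rh {u0 : E2} {T : (E2 → ℝ) → LL} (hT : IsTaylor u0 T) {X : E2 → E3}
    (hX : ContDiffAt ℝ ∞ X u0) (i j : Fin 2) :
    T (rh i j X) = det3
      (fun a => TaylorLapAux.DD i (TaylorLapAux.DD j (T (fun u => X u a))))
      (fun a => dT (T (fun u => X u a))) (fun a => dS (T (fun u => X u a))) := by
  have hs : ∀ (j : Fin 2) (a : Fin 3), ContDiffAt ℝ ∞ (pd j (fun w => X w a)) u0 := fun j a =>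
    TaylorAux.ty_smooth j (TaylorLapAux.smooth_coord hX a)
  have h := tayh_det hT (u := fun a => pd i (pd j (fun w => X w a)))
    (v := fun a => pd 0 (fun w => X w a)) (w := fun a => pd 1 (fun w => X w a))
    (fun a => TaylorAux.ty_smooth i (hs j a)) (hs 0) (hs 1)
  have e1 : ∀ a, T (pd i (pd j (fun w => X w a))) =
      TaylorLapAux.DD i (TaylorLapAux.DD j (T (fun u => X u a))) := by
    intro a
    rw [TaylorLapAux.T_pd hT i (hs j a), TaylorLapAux.T_pd hT j (TaylorLapAux.smooth_coord hX a)]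
  have e2 : ∀ a, T (pd 0 (fun w => X w a)) = dT (T (fun u => X u a)) := fun a =>
    hT.pd0 _ (TaylorLapAux.smooth_coord hX a)
  have e3 : ∀ a, T (pd 1 (fun w => X w a)) = dS (T (fun u => X u a)) := fun a =>
    hT.pd1 _ (TaylorLapAux.smooth_coord hX a)
  simp only [e1, e2, e3] at h
  exact h

theorem taylor_rh {u0 : E2} {T : (E2 → ℝ) → LL} (hT : IsTaylor u0 T) {X : E2 → E3}
    (hX : ContDiffAt ℝ ∞ X u0) :
    T (rh 0 0 X) = h0 dT dS (fun a => T (fun u => X u a)) ∧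
    T (rh 0 1 X) = h1 dT dS (fun a => T (fun u => X u a)) ∧
    T (rh 1 1 X) = h2 dT dS (fun a => T (fun u => X u a)) :=
  ⟨tayh_rh hT hX 0 0, tayh_rh hT hX 0 1, tayh_rh hT hX 1 1⟩

end Pool.Agent.Work.MP_abe657_gt.Two
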