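import Pool.Agent.Work.MP_abe657_gt.Two.AlgTwo
import Pool.Agent.Work.MP_abe657_gt.Two.TayH
import Pool.Agent.Work.MP_abe657_gt.Two.RealDisc
import Pool.Agent.Work.MP_abe657_gt.EigenZero
import Pool.Agent.Work.MP_abe657_gt.SphereEnd

/-!
Final assembly (helper94).
-/

set_option autoImplicit false

namespace Pool.Agent.Work.MP_abe657_gt.Two

open scoped Manifold ContDiff Topology

instance instClosedL : IsAlgClosed LL := by
  haveI : IsAlgClosed kk := hahn_isAlgClosed ℂ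
  exact hahn_isAlgClosed kk

theorem lap_smooth {X : E2 → E3} {u0 : E2} (hX : ContDiffAt ℝ ∞ X u0)
    (himm : Function.Injective (fderiv ℝ X u0)) {f : E2 → ℝ} (hf : ContDiffAt ℝ ∞ f u0) :
    ContDiffAt ℝ ∞ (lap X f) u0 := by
  have hpos := TaylorLapAux.gdet_pos himm
  have hs : ContDiffAt ℝ ∞ (fun u => Real.sqrt (gdet X u)) u0 :=
    (TaylorLapAux.gdet_smooth hX).sqrt hpos.ne'
  have hs0 : Real.sqrt (gdet X u0) ≠ 0 := (Real.sqrt_pos.2 hpos).ne'
  have p0 := contDiffAt_pd 0 f hf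
  have p1 := contDiffAt_pd 1 f hf
  have g00 := TaylorLapAux.gm_smooth hX 0 0
  have g01 := TaylorLapAux.gm_smooth hX 0 1
  have g11 := TaylorLapAux.gm_smooth hX 1 1
  have sA : ContDiffAt ℝ ∞ (fun w => (gm X 1 1 w * pd 0 f w - gm X 0 1 w * pd 1 f w) /
      Real.sqrt (gdet X w)) u0 := ((g11.mul p0).sub (g01.mul p1)).div hs hs0
  have sB : ContDiffAt ℝ ∞ (fun w => (gm X 0 0 w * pd 1 f w - gm X 0 1 w * pd 0 f w) /
      Real.sqrt (gdet X w)) u0 := ((g00.mul p1).sub (g01.mul p0)).div hs hs0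
  have s1 : ContDiffAt ℝ ∞ (fun u => 1 / Real.sqrt (gdet X u)) u0 := contDiffAt_const.div hs hs0
  exact s1.neg.mul ((contDiffAt_pd 0 _ sA).add (contDiffAt_pd 1 _ sB))

section local_part

variable {X : E2 → E3} {u0 : E2}

/-- the Taylor expansion of the centred position vector -/
noncomputable def tayY (T : (E2 → ℝ) → LL) (X : E2 → E3) (c : E3) : Fin 3 → LL :=
  fun i => T (fun u => X u i) - algebraMap ℂ LL ((c i : ℝ) : ℂ)

lemma ap_tayY (T : (E2 → ℝ) → LL) (c : E3) (d : Derivation ℂ LL LL) :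
    ap d (tayY T X c) = ap d (fun i => T (fun u => X u i)) := by
  funext i
  simp only [ap, tayY, map_sub, Derivation.map_algebraMap, sub_zero]

lemma met_tayY (T : (E2 → ℝ) → LL) (c : E3) (d e : Derivation ℂ LL LL) :
    met d e (tayY T X c) = met d e (fun i => T (fun u => X u i)) := by
  rw [met_dot, met_dot, ap_tayY, ap_tayY]

lemma taylor_bilap {T : (E2 → ℝ) → LL} (hT : IsTaylor u0 T) (hX : ContDiffAt ℝ ∞ X u0)
    (himm : Function.Injective (fderiv ℝ X u0)) (c : E3) (a b : ℝ)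
    (h : ∀ i, ∀ᶠ u in 𝓝 u0, bilap X a b (fun w => X w i - c i) u = 0) (i : Fin 3) :
    lapX dT dS (tayY T X c) (lapX dT dS (tayY T X c) (tayY T X c i))
      - (a : ℂ) • lapX dT dS (tayY T X c) (tayY T X c i) + (b : ℂ) • tayY T X c i = 0 := by
  obtain ⟨hdet, hlap⟩ := taylor_lap u0 T hT X hX himm
  have hl : lapX dT dS (tayY T X c) = lapX dT dS (fun i => T (fun u => X u i)) := by
    rw [lapX, lapX, met_tayY, met_tayY, met_tayY]
  have hXi : ContDiffAt ℝ ∞ (fun u => X u i) u0 := TaylorLapAux.smooth_coord hX i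
  have hf : ContDiffAt ℝ ∞ (fun w => X w i - c i) u0 := hXi.sub contDiffAt_const
  have hTf : T (fun w => X w i - c i) = tayY T X c i := by
    have := TaylorLapAux.T_sub hT hXi (contDiffAt_const (c := c i))
    rw [hT.const] at this
    exact this
  have hL := lap_smooth hX himm hf
  have hLL := lap_smooth hX himm hL
  have h0 : T (bilap X a b (fun w => X w i - c i)) = 0 := by
    have := hT.congr _ (fun _ => (0 : ℝ)) (h i)
    rw [this, hT.const]
    simp
  have h1 : T (bilap X a b (fun w => X w i - c i))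
      = T (lap X (lap X (fun w => X w i - c i))) - (a : ℂ) • T (lap X (fun w => X w i - c i))
        + (b : ℂ) • T (fun w => X w i - c i) := by
    have e1 := hT.add (fun u => lap X (lap X (fun w => X w i - c i)) u
      - a * lap X (fun w => X w i - c i) u) (fun u => b * (X u i - c i))
      (hLL.sub (contDiffAt_const.mul hL)) (contDiffAt_const.mul hf)
    have e2 := TaylorLapAux.T_sub hT hLL ((contDiffAt_const (c := a)).mul hL)
    have e3 := taylor_const_mul hT a _ hL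
    have e4 := taylor_const_mul hT b _ hf
    rw [e4] at e1
    rw [e3] at e2
    rw [e2] at e1
    exact e1
  rw [hl, ← hTf, ← hlap _ hf, ← hlap _ hL, ← h1, h0]

theorem chart_disc (hX : ContDiffAt ℝ ∞ X u0) (himm : Function.Injective (fderiv ℝ X u0))
    (c : E3) (a b : ℝ) (hb : b ≠ 0)
    (h : ∀ i, ∀ᶠ u in 𝓝 u0, bilap X a b (fun w => X w i - c i) u = 0) : rdisc X u0 = 0 := by
  obtain ⟨T, hT⟩ := exists_taylor u0
  obtain ⟨hdet, hlap⟩ := taylor_lap u0 T hT X hX himm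
  have heq := taylor_bilap hT hX himm c a b h
  by_contra hne
  have hg := fun i j => TaylorLapAux.gm_smooth hX i j
  have hh := fun i j => rh_smooth hX i j
  obtain ⟨t0, t1, t2⟩ := taylor_rh hT hX
  have hdis : T (rdisc X) = disc (met dT dT (fun i => T (fun u => X u i)))
      (met dT dS (fun i => T (fun u => X u i))) (met dS dS (fun i => T (fun u => X u i)))
      (h0 dT dS (fun i => T (fun u => X u i))) (h1 dT dS (fun i => T (fun u => X u i)))
      (h2 dT dS (fun i => T (fun u => X u i))) := by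
    have m0 : T (gm X 0 0) = met dT dT (fun i => T (fun u => X u i)) :=
      TaylorLapAux.T_gm hT hX 0 0
    have m1 : T (gm X 0 1) = met dT dS (fun i => T (fun u => X u i)) :=
      TaylorLapAux.T_gm hT hX 0 1
    have m2 : T (gm X 1 1) = met dS dS (fun i => T (fun u => X u i)) :=
      TaylorLapAux.T_gm hT hX 1 1
    rw [← t0, ← t1, ← t2, ← m0, ← m1, ← m2]
    have s02 : T (fun u => gm X 0 0 u * rh 1 1 X u - gm X 1 1 u * rh 0 0 X u)
        = T (gm X 0 0) * T (rh 1 1 X) - T (gm X 1 1) * T (rh 0 0 X) := by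
      rw [TaylorLapAux.T_sub hT ((hg 0 0).mul (hh 1 1)) ((hg 1 1).mul (hh 0 0)),
        hT.mul _ _ (hg 0 0) (hh 1 1), hT.mul _ _ (hg 1 1) (hh 0 0)]
    have s01 : T (fun u => gm X 0 0 u * rh 0 1 X u - gm X 0 1 u * rh 0 0 X u)
        = T (gm X 0 0) * T (rh 0 1 X) - T (gm X 0 1) * T (rh 0 0 X) := by
      rw [TaylorLapAux.T_sub hT ((hg 0 0).mul (hh 0 1)) ((hg 0 1).mul (hh 0 0)),
        hT.mul _ _ (hg 0 0) (hh 0 1), hT.mul _ _ (hg 0 1) (hh 0 0)]
    have s12 : T (fun u => gm X 0 1 u * rh 1 1 X u - gm X 1 1 u * rh 0 1 X u)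
        = T (gm X 0 1) * T (rh 1 1 X) - T (gm X 1 1) * T (rh 0 1 X) := by
      rw [TaylorLapAux.T_sub hT ((hg 0 1).mul (hh 1 1)) ((hg 1 1).mul (hh 0 1)),
        hT.mul _ _ (hg 0 1) (hh 1 1), hT.mul _ _ (hg 1 1) (hh 0 1)]
    have c02 := ((hg 0 0).mul (hh 1 1)).sub ((hg 1 1).mul (hh 0 0))
    have c01 := ((hg 0 0).mul (hh 0 1)).sub ((hg 0 1).mul (hh 0 0))
    have c12 := ((hg 0 1).mul (hh 1 1)).sub ((hg 1 1).mul (hh 0 1))
    have hfun : rdisc X = fun u =>
        (fun u => (gm X 0 0 u * rh 1 1 X u - gm X 1 1 u * rh 0 0 X u)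
          * (gm X 0 0 u * rh 1 1 X u - gm X 1 1 u * rh 0 0 X u)) u
        - (fun u => 4 * ((gm X 0 0 u * rh 0 1 X u - gm X 0 1 u * rh 0 0 X u)
          * (gm X 0 1 u * rh 1 1 X u - gm X 1 1 u * rh 0 1 X u))) u := by
      funext u
      simp only [rdisc, disc]
      ring
    rw [hfun, TaylorLapAux.T_sub hT (c02.mul c02) (contDiffAt_const.mul (c01.mul c12)),
      hT.mul _ _ c02 c02, taylor_const_mul hT 4 _ (c01.mul c12), hT.mul _ _ c01 c12,
      s02, s01, s12, Algebra.smul_def]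
    simp only [disc]
    push_cast
    rw [map_ofNat]
    ring
  have hsm : ContDiffAt ℝ ∞ (rdisc X) u0 := by
    have c02 := ((hg 0 0).mul (hh 1 1)).sub ((hg 1 1).mul (hh 0 0))
    have c01 := ((hg 0 0).mul (hh 0 1)).sub ((hg 0 1).mul (hh 0 0))
    have c12 := ((hg 0 1).mul (hh 1 1)).sub ((hg 1 1).mul (hh 0 1))
    exact (c02.pow 2).sub ((contDiffAt_const.mul c01).mul c12)
  refine alg_nonumb dT dS dT_dS_comm (tayY T X c) ?_ (a : ℂ) (b : ℂ)
    (by exact_mod_cast hb) heq ?_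
  · rw [detM, met_tayY, met_tayY, met_tayY]
    exact hdet
  · simp only [h0, h1, h2, met_tayY, ap_tayY]
    intro hz
    apply hne
    have hz' : T (rdisc X) = 0 := by
      rw [hdis]
      simpa only [h0, h1, h2] using hz
    have := hT.value (rdisc X) 0 hsm (by rw [hz', map_zero])
    exact_mod_cast this.symm

theorem chart_grad (hX : ContDiffAt ℝ ∞ X u0) (himm : Function.Injective (fderiv ℝ X u0))
    (c : E3) (a b : ℝ) (hb : b ≠ 0)
    (h : ∀ i, ∀ᶠ u in 𝓝 u0, bilap X a b (fun w => X w i - c i) u = 0)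
    (hd : ∀ᶠ u in 𝓝 u0, rdisc X u = 0) (i : Fin 2) :
    pd i (fun w => (X w 0 - c 0) * (X w 0 - c 0) + (X w 1 - c 1) * (X w 1 - c 1)
      + (X w 2 - c 2) * (X w 2 - c 2)) u0 = 0 := by
  obtain ⟨T, hT⟩ := exists_taylor u0
  obtain ⟨hdet, hlap⟩ := taylor_lap u0 T hT X hX himm
  have heq := taylor_bilap hT hX himm c a b h
  have hg := fun i j => TaylorLapAux.gm_smooth hX i j
  have hh := fun i j => rh_smooth hX i j
  obtain ⟨t0, t1, t2⟩ := taylor_rh hT hX
  have m0 : T (gm X 0 0) = met dT dT (fun i => T (fun u => X u i)) :=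
    TaylorLapAux.T_gm hT hX 0 0
  have m1 : T (gm X 0 1) = met dT dS (fun i => T (fun u => X u i)) :=
    TaylorLapAux.T_gm hT hX 0 1
  have m2 : T (gm X 1 1) = met dS dS (fun i => T (fun u => X u i)) :=
    TaylorLapAux.T_gm hT hX 1 1
  -- positivity near u0
  have hpos : ∀ᶠ u in 𝓝 u0, 0 < gdet X u :=
    (TaylorLapAux.gdet_smooth hX).continuousAt.eventually
      (lt_mem_nhds (TaylorLapAux.gdet_pos himm))
  have hg00 : ∀ u, 0 < gdet X u → 0 < gm X 0 0 u := by
    intro u hu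
    have h0 : 0 ≤ gm X 0 0 u := real_inner_self_nonneg
    rcases h0.lt_or_eq with h | h
    · exact h
    · exfalso
      rw [gdet, ← h] at hu
      nlinarith [sq_nonneg (gm X 0 1 u)]
  have hprop : ∀ᶠ u in 𝓝 u0, gm X 0 0 u * rh 0 1 X u = gm X 0 1 u * rh 0 0 X u ∧
      gm X 0 0 u * rh 1 1 X u = gm X 1 1 u * rh 0 0 X u ∧
      gm X 0 1 u * rh 1 1 X u = gm X 1 1 u * rh 0 1 X u := by
    filter_upwards [hpos, hd] with u hu1 hu2
    exact disc_real _ _ _ _ _ _ (hg00 u hu1) hu1 hu2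
  have q01 := hT.congr _ _ (hprop.mono fun u hu => hu.1)
  have q02 := hT.congr _ _ (hprop.mono fun u hu => hu.2.1)
  have q12 := hT.congr _ _ (hprop.mono fun u hu => hu.2.2)
  rw [hT.mul _ _ (hg 0 0) (hh 0 1), hT.mul _ _ (hg 0 1) (hh 0 0), t0, t1, m0, m1] at q01
  rw [hT.mul _ _ (hg 0 0) (hh 1 1), hT.mul _ _ (hg 1 1) (hh 0 0), t0, t2, m0, m2] at q02
  rw [hT.mul _ _ (hg 0 1) (hh 1 1), hT.mul _ _ (hg 1 1) (hh 0 1), t1, t2, m1, m2] at q12
  have hdet' : detM dT dS (tayY T X c) ≠ 0 := by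
    rw [detM, met_tayY, met_tayY, met_tayY]
    exact hdet
  obtain ⟨r1, r2⟩ := alg_umb dT dS dT_dS_comm (tayY T X c) hdet' (a : ℂ) (b : ℂ)
    (by exact_mod_cast hb) heq
    (by simp only [h0, h1, met_tayY, ap_tayY]; simpa only [h0, h1] using q01)
    (by simp only [h0, h2, met_tayY, ap_tayY]; simpa only [h0, h2] using q02)
    (by simp only [h1, h2, met_tayY, ap_tayY]; simpa only [h1, h2] using q12)
  have hXi : ∀ i, ContDiffAt ℝ ∞ (fun w => X w i - c i) u0 :=
    fun i => (TaylorLapAux.smooth_coord hX i).sub contDiffAt_const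
  have hTf : ∀ i, T (fun w => X w i - c i) = tayY T X c i := by
    intro i
    have := TaylorLapAux.T_sub hT (TaylorLapAux.smooth_coord hX i) (contDiffAt_const (c := c i))
    rw [hT.const] at this
    exact this
  have hTsq : T (fun w => (X w 0 - c 0) * (X w 0 - c 0) + (X w 1 - c 1) * (X w 1 - c 1)
      + (X w 2 - c 2) * (X w 2 - c 2)) = dot (tayY T X c) (tayY T X c) := by
    rw [hT.add _ _ (((hXi 0).mul (hXi 0)).add ((hXi 1).mul (hXi 1))) ((hXi 2).mul (hXi 2)),
      hT.add _ _ ((hXi 0).mul (hXi 0)) ((hXi 1).mul (hXi 1)), hT.mul _ _ (hXi 0) (hXi 0),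
      hT.mul _ _ (hXi 1) (hXi 1), hT.mul _ _ (hXi 2) (hXi 2), hTf, hTf, hTf]
    rfl
  have hsm : ContDiffAt ℝ ∞ (fun w => (X w 0 - c 0) * (X w 0 - c 0) + (X w 1 - c 1) * (X w 1 - c 1)
      + (X w 2 - c 2) * (X w 2 - c 2)) u0 :=
    (((hXi 0).mul (hXi 0)).add ((hXi 1).mul (hXi 1))).add ((hXi 2).mul (hXi 2))
  have h0 := hT.pd0 _ hsm
  have h1 := hT.pd1 _ hsm
  rw [hTsq, r1] at h0
  rw [hTsq, r2] at h1
  fin_cases i
  · have := hT.value _ 0 (contDiffAt_pd 0 _ hsm) (h0.trans (map_zero _).symm)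
    exact_mod_cast this.symm
  · have := hT.value _ 0 (contDiffAt_pd 1 _ hsm) (h1.trans (map_zero _).symm)
    exact_mod_cast this.symm

end local_part

variable {M : Type*} [TopologicalSpace M] [ChartedSpace E2 M] [IsManifold (𝓡 2) ∞ M]

/-- surfaces with `(Δ² - aΔ + b)(x - c) = 0`, `b ≠ 0`, are spherical -/
theorem spherical [ConnectedSpace M] (x : M → E3) (hx : SmoothMap x) (himm : Immersed x) (c : E3)
    (a b : ℝ) (hb : b ≠ 0)
    (h : ∀ e ∈ atlas E2 M, ∀ u ∈ e.target, ∀ i,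
      bilap (x ∘ e.symm) a b (fun w => x (e.symm w) i - c i) u = 0) :
    ∃ ρ, ∀ p, ‖x p - c‖ ^ 2 = ρ := by
  have hsm : ∀ e ∈ atlas E2 M, ∀ a, ContDiffOn ℝ ∞ ((fun p => x p a) ∘ e.symm) e.target :=
    fun e he a => chart_contDiffOn_comp x hx a e he
  have hd : ∀ e ∈ atlas E2 M, ∀ u ∈ e.target, rdisc (x ∘ e.symm) u = 0 := by
    intro e he u hu
    have hnhds : e.target ∈ 𝓝 u := e.open_target.mem_nhds hu
    refine chart_disc ((chart_contDiffOn x hx e he).contDiffAt hnhds) (himm e he u hu) c a b hb ?_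
    intro i
    filter_upwards [hnhds] with w hw
    exact h e he w hw i
  obtain ⟨v, hv⟩ := const_of_pd_zero (fun p => (x p 0 - c 0) * (x p 0 - c 0)
      + (x p 1 - c 1) * (x p 1 - c 1) + (x p 2 - c 2) * (x p 2 - c 2))
    (by
      intro e he
      exact ((((hsm e he 0).sub contDiffOn_const).mul ((hsm e he 0).sub contDiffOn_const)).add
        (((hsm e he 1).sub contDiffOn_const).mul ((hsm e he 1).sub contDiffOn_const))).add
        (((hsm e he 2).sub contDiffOn_const).mul ((hsm e he 2).sub contDiffOn_const)))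
    (by
      intro e he u hu i
      have hnhds : e.target ∈ 𝓝 u := e.open_target.mem_nhds hu
      refine chart_grad (X := x ∘ e.symm) ((chart_contDiffOn x hx e he).contDiffAt hnhds)
        (himm e he u hu) c a b hb ?_ ?_ i
      · intro i
        filter_upwards [hnhds] with w hw
        exact h e he w hw i
      · filter_upwards [hnhds] with w hw
        exact hd e he w hw)
  refine ⟨v, fun p => ?_⟩
  rw [EuclideanSpace.norm_sq_eq, ← hv p, Fin.sum_univ_three]
  simp only [PiLp.sub_apply, Real.norm_eq_abs, sq_abs]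
  ring

end Pool.Agent.Work.MP_abe657_gt.Two
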