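import Pool.Agent.Work.MP_abe657_gt.Two.Defs
import Pool.Agent.Work.MP_abe657_gt.SurfDefs2

/-!
Definitions on the real side.
-/

set_option autoImplicit false

namespace Pool.Agent.Work.MP_abe657_gt.Two

open scoped Manifold ContDiff

/-- coefficient `⟨∂ᵢ∂ⱼ X, ∂₀X × ∂₁X⟩` of the (non normalised) second fundamental form -/
noncomputable def rh (i j : Fin 2) (X : E2 → E3) (u : E2) : ℝ :=
  det3 (fun a => pd i (pd j (fun w => X w a)) u) (fun a => pd 0 (fun w => X w a) u)
    (fun a => pd 1 (fun w => X w a) u)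

/-- the discriminant of the two fundamental forms; it vanishes exactly at umbilic points -/
noncomputable def rdisc (X : E2 → E3) (u : E2) : ℝ :=
  disc (gm X 0 0 u) (gm X 0 1 u) (gm X 1 1 u) (rh 0 0 X u) (rh 0 1 X u) (rh 1 1 X u)

/-- `Δ² f - a Δ f + b f` in coordinates -/
noncomputable def bilap (X : E2 → E3) (a b : ℝ) (f : E2 → ℝ) (u : E2) : ℝ :=
  lap X (lap X f) u - a * lap X f u + b * f u

end Pool.Agent.Work.MP_abe657_gt.Two
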