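import Pool.Agent.Work.MP_abe657_gt.Two.RotDefs

/-!
Module RhoNe (M, polynomial identities). The eliminant is not the zero polynomial, for all `a, b`.

Proof. Homogeneity: giving `A, z` the weight 1, `a` the weight 2 and `b` the weight 4, the expressions
`e0, e1, e2, e0A, e0z, e1A, e1z, e2A, e2z, G0, G1, W0, W1` have the weights
`9, 6, 3, 8, 8, 5, 5, 2, 2, 5, 2, 4, 1` (`unfold; ring`), so `c0, c1, c2, c3` have the weights `13, 10, 7, 4`,
`r1, r0` the weights `16, 19` and `rho` the weight `41`, i.e.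
`rho (s A) (s z) (s² a) (s⁴ b) = s ^ 41 * rho A z a b`. So for `τ ≠ 0`
(take `s = τ`, `A = z = 1/τ`) `rho 1 1 (τ² a) (τ⁴ b) = τ ^ 41 * rho (1/τ) (1/τ) a b`. If `rho A z a b = 0` for
all `A, z`, then `rho 1 1 (τ² a) (τ⁴ b) = 0` for all `τ ≠ 0`, hence also for `τ = 0` by continuity (polynomial
expression), but `rho 1 1 0 0 ≠ 0` (`norm_num [rho, r0, r1, ...]`;
`e2 = 144, e1 = -192, e0 = 160, c3 = 2592, c2 = -10080, c1 = 11328, c0 = -7296`).
-/

set_option autoImplicit false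

namespace Pool.Agent.Work.MP_abe657_gt.Two

section hom

variable (s A z a b : ℂ)

private theorem rhone_e0 : e0 (s * A) (s * z) (s ^ 2 * a) (s ^ 4 * b) = s ^ 9 * e0 A z a b := by
  unfold e0
  ring

private theorem rhone_e1 : e1 (s * A) (s * z) (s ^ 2 * a) (s ^ 4 * b) = s ^ 6 * e1 A z a b := by
  unfold e1
  ring

private theorem rhone_e2 : e2 (s * A) (s * z) = s ^ 3 * e2 A z := by
  unfold e2
  ring

private theorem rhone_e0A : e0A (s * A) (s * z) (s ^ 2 * a) (s ^ 4 * b) = s ^ 8 * e0A A z a b := by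
  unfold e0A
  ring

private theorem rhone_e0z : e0z (s * A) (s * z) (s ^ 2 * a) (s ^ 4 * b) = s ^ 8 * e0z A z a b := by
  unfold e0z
  ring

private theorem rhone_e1A : e1A (s * A) (s * z) (s ^ 2 * a) (s ^ 4 * b) = s ^ 5 * e1A A z a b := by
  unfold e1A
  ring

private theorem rhone_e1z : e1z (s * A) (s * z) (s ^ 2 * a) (s ^ 4 * b) = s ^ 5 * e1z A z a b := by
  unfold e1z
  ring

private theorem rhone_e2A : e2A (s * A) (s * z) = s ^ 2 * e2A A z := by
  unfold e2A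
  ring

private theorem rhone_e2z : e2z (s * A) (s * z) = s ^ 2 * e2z A z := by
  unfold e2z
  ring

private theorem rhone_G0 : G0 (s * A) (s * z) (s ^ 2 * a) (s ^ 4 * b) = s ^ 5 * G0 A z a b := by
  unfold G0
  ring

private theorem rhone_G1 : G1 (s * A) (s * z) = s ^ 2 * G1 A z := by
  unfold G1
  ring

private theorem rhone_W0 : W0 (s * A) (s * z) (s ^ 2 * a) (s ^ 4 * b) = s ^ 4 * W0 A z a b := by
  unfold W0
  ring

private theorem rhone_W1 : W1 (s * A) (s * z) = s ^ 1 * W1 A z := by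
  unfold W1
  ring

private theorem rhone_c0 : c0 (s * A) (s * z) (s ^ 2 * a) (s ^ 4 * b) = s ^ 13 * c0 A z a b := by
  unfold c0
  rw [rhone_G0, rhone_e0A, rhone_e1, rhone_W0, rhone_e0z]
  ring

private theorem rhone_c1 : c1 (s * A) (s * z) (s ^ 2 * a) (s ^ 4 * b) = s ^ 10 * c1 A z a b := by
  unfold c1
  rw [rhone_G0, rhone_G1, rhone_e0A, rhone_e1, rhone_W0, rhone_W1, rhone_e0z, rhone_e1A, rhone_e2,
    rhone_e1z]
  ring

private theorem rhone_c2 : c2 (s * A) (s * z) (s ^ 2 * a) (s ^ 4 * b) = s ^ 7 * c2 A z a b := by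
  unfold c2
  rw [rhone_G0, rhone_G1, rhone_e1A, rhone_e2, rhone_W0, rhone_W1, rhone_e1z, rhone_e2A, rhone_e2z]
  ring

private theorem rhone_c3 : c3 (s * A) (s * z) = s ^ 4 * c3 A z := by
  unfold c3
  rw [rhone_G1, rhone_e2A, rhone_W1, rhone_e2z]
  ring

private theorem rhone_r1 : r1 (s * A) (s * z) (s ^ 2 * a) (s ^ 4 * b) = s ^ 16 * r1 A z a b := by
  unfold r1
  rw [rhone_c1, rhone_c2, rhone_c3, rhone_e0, rhone_e1, rhone_e2]
  ring

private theorem rhone_r0 : r0 (s * A) (s * z) (s ^ 2 * a) (s ^ 4 * b) = s ^ 19 * r0 A z a b := by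
  unfold r0
  rw [rhone_c0, rhone_c2, rhone_c3, rhone_e0, rhone_e1, rhone_e2]
  ring

private theorem rhone_rho :
    rho (s * A) (s * z) (s ^ 2 * a) (s ^ 4 * b) = s ^ 41 * rho A z a b := by
  unfold rho
  rw [rhone_r0, rhone_r1, rhone_e0, rhone_e1, rhone_e2]
  ring

end hom

theorem rho_ne (a b : ℂ) : ∃ A z : ℂ, rho A z a b ≠ 0 := by
  by_contra hcon
  push Not at hcon
  have h1 : ∀ τ : ℂ, τ ≠ 0 → rho 1 1 (τ ^ 2 * a) (τ ^ 4 * b) = 0 := by
    intro τ hτ
    have h2 := rhone_rho τ τ⁻¹ τ⁻¹ a b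
    rw [mul_inv_cancel₀ hτ, hcon, mul_zero] at h2
    exact h2
  have hcont : Continuous fun τ : ℂ => rho 1 1 (τ ^ 2 * a) (τ ^ 4 * b) := by
    unfold rho r0 r1 c0 c1 c2 c3 e0 e1 e2 e0A e0z e1A e1z e2A e2z G0 G1 W0 W1
    fun_prop
  have h2 : (fun τ : ℂ => rho 1 1 (τ ^ 2 * a) (τ ^ 4 * b)) = fun _ => 0 := by
    refine hcont.ext_on (dense_compl_singleton (0 : ℂ)) continuous_const ?_
    intro τ hτ
    exact h1 τ hτ
  have h3 := congrFun h2 0
  norm_num [rho, r0, r1, c0, c1, c2, c3, e0, e1, e2, e0A, e0z, e1A, e1z, e2A, e2z, G0, G1, W0, W1] at h3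

end Pool.Agent.Work.MP_abe657_gt.Two
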