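import Pool.Agent.Work.MP_abe657_gt.Two.RotR
import Pool.Agent.Work.MP_abe657_gt.Two.RhoNe

/-!
Module RotAlg (M-L, algebra). `z` and `P` are algebraic over the field `ℂ(A)`.

Proof. (1) `A` is transcendental over `ℂ`: `D A = 1`; a non zero polynomial `p` of minimal degree with `p(A) = 0`
would give `p'(A) = D (p(A)) = 0` (`Derivation` chain rule for `Polynomial.aeval`), characteristic 0.
(2) `rho A z a β = 0` (images of `a, β` in `Ω`): with `f = e2 X² + e1 X + e0`, `g = c3 X³ + ...` we have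
`r1 P + r0 = e2² g(P) - (..) f(P) = 0`, so `rho = e2 r0² - e1 r0 r1 + e0 r1² = r1² f(P) = 0`
(`linear_combination`).
(3) Let `F = rho (C X) X (C (C a)) (C (C β)) ∈ ℂ[X][Y]` (`rho` is defined in every commutative ring and commutes
with ring homomorphisms: unfold everything, `map_add`, `map_mul`, ...). `F ≠ 0` since by `rho_ne` some evaluation
`X ↦ A₀, Y ↦ z₀` is not zero. `F(A, z) = 0`, and `F(A, Y) ∈ ℂ⟮A⟯[Y]` is not zero because `A` is transcendental. So
`z` is algebraic over `ℂ⟮A⟯`.
(4) If `e2 A z ≠ 0` then `P` is a root of a quadratic polynomial with coefficients in `ℂ⟮A⟯(z)`, so algebraic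
(transitivity; or: the algebraic closure of `ℂ⟮A⟯` in `Ω` is a field relatively algebraically closed in `Ω`).
(5) If `e2 A z = 72 A (2A² - 3Az + 3z²) = 0` (`A ≠ 0` as `D A = 1`): `ζ = z/A` satisfies `3ζ² - 3ζ + 2 = 0`; apply
`D`: `(6ζ - 3) D ζ = 0` and `6ζ ≠ 3`, so `D z = z/A`. Then `rot_dz` gives (`z ≠ 0`) `G0 + G1 P = 3 A (W0 + W1 P)`,
i.e. `6 A (z - 3A) P = 3 A W0 - G0` with `z ≠ 3A` (`2 - 9 + 27 ≠ 0`): `P` is a rational expression in `A, z`.
-/

set_option autoImplicit false

namespace Pool.Agent.Work.MP_abe657_gt.Two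

open IntermediateField

section maps

variable {R S : Type} [CommRing R] [CommRing S] (f : R →+* S) (A z a b : R)

private theorem rotalg_e2 : f (e2 A z) = e2 (f A) (f z) := by
  simp only [e2, map_add, map_sub, map_mul, map_pow, map_neg, map_ofNat]

private theorem rotalg_e2A : f (e2A A z) = e2A (f A) (f z) := by
  simp only [e2A, map_add, map_sub, map_mul, map_pow, map_neg, map_ofNat]

private theorem rotalg_e2z : f (e2z A z) = e2z (f A) (f z) := by
  simp only [e2z, map_add, map_sub, map_mul, map_pow, map_neg, map_ofNat]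

private theorem rotalg_G1 : f (G1 A z) = G1 (f A) (f z) := by
  simp only [G1, map_add, map_sub, map_mul, map_pow, map_neg, map_ofNat]

private theorem rotalg_W1 : f (W1 A z) = W1 (f A) (f z) := by
  simp only [W1, map_add, map_sub, map_mul, map_pow, map_neg, map_ofNat]

private theorem rotalg_e0 : f (e0 A z a b) = e0 (f A) (f z) (f a) (f b) := by
  simp only [e0, map_add, map_sub, map_mul, map_pow, map_neg, map_ofNat]

private theorem rotalg_e1 : f (e1 A z a b) = e1 (f A) (f z) (f a) (f b) := by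
  simp only [e1, map_add, map_sub, map_mul, map_pow, map_neg, map_ofNat]

private theorem rotalg_e0A : f (e0A A z a b) = e0A (f A) (f z) (f a) (f b) := by
  simp only [e0A, map_add, map_sub, map_mul, map_pow, map_neg, map_ofNat]

private theorem rotalg_e0z : f (e0z A z a b) = e0z (f A) (f z) (f a) (f b) := by
  simp only [e0z, map_add, map_sub, map_mul, map_pow, map_neg, map_ofNat]

private theorem rotalg_e1A : f (e1A A z a b) = e1A (f A) (f z) (f a) (f b) := by
  simp only [e1A, map_add, map_sub, map_mul, map_pow, map_neg, map_ofNat]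

private theorem rotalg_e1z : f (e1z A z a b) = e1z (f A) (f z) (f a) (f b) := by
  simp only [e1z, map_add, map_sub, map_mul, map_pow, map_neg, map_ofNat]

private theorem rotalg_G0 : f (G0 A z a b) = G0 (f A) (f z) (f a) (f b) := by
  simp only [G0, map_add, map_sub, map_mul, map_pow, map_neg, map_ofNat]

private theorem rotalg_W0 : f (W0 A z a b) = W0 (f A) (f z) (f a) (f b) := by
  simp only [W0, map_add, map_sub, map_mul, map_pow, map_neg, map_ofNat]

private theorem rotalg_c3 : f (c3 A z) = c3 (f A) (f z) := by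
  simp only [c3, map_add, map_sub, map_mul, map_pow, map_ofNat, rotalg_e2, rotalg_e2A, rotalg_e2z,
    rotalg_G1, rotalg_W1]

private theorem rotalg_c0 : f (c0 A z a b) = c0 (f A) (f z) (f a) (f b) := by
  simp only [c0, map_add, map_sub, map_mul, map_pow, map_ofNat, rotalg_e2, rotalg_e2A,
    rotalg_e2z, rotalg_G1, rotalg_W1, rotalg_e0, rotalg_e1, rotalg_e0A, rotalg_e0z, rotalg_e1A,
    rotalg_e1z, rotalg_G0, rotalg_W0]

private theorem rotalg_c1 : f (c1 A z a b) = c1 (f A) (f z) (f a) (f b) := by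
  simp only [c1, map_add, map_sub, map_mul, map_pow, map_ofNat, rotalg_e2, rotalg_e2A,
    rotalg_e2z, rotalg_G1, rotalg_W1, rotalg_e0, rotalg_e1, rotalg_e0A, rotalg_e0z, rotalg_e1A,
    rotalg_e1z, rotalg_G0, rotalg_W0]

private theorem rotalg_c2 : f (c2 A z a b) = c2 (f A) (f z) (f a) (f b) := by
  simp only [c2, map_add, map_sub, map_mul, map_pow, map_ofNat, rotalg_e2, rotalg_e2A,
    rotalg_e2z, rotalg_G1, rotalg_W1, rotalg_e0, rotalg_e1, rotalg_e0A, rotalg_e0z, rotalg_e1A,
    rotalg_e1z, rotalg_G0, rotalg_W0]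

private theorem rotalg_r0 : f (r0 A z a b) = r0 (f A) (f z) (f a) (f b) := by
  simp only [r0, map_add, map_sub, map_mul, map_pow, rotalg_e2, rotalg_e0, rotalg_e1,
    rotalg_c0, rotalg_c1, rotalg_c2, rotalg_c3]

private theorem rotalg_r1 : f (r1 A z a b) = r1 (f A) (f z) (f a) (f b) := by
  simp only [r1, map_add, map_sub, map_mul, map_pow, rotalg_e2, rotalg_e0, rotalg_e1,
    rotalg_c0, rotalg_c1, rotalg_c2, rotalg_c3]

private theorem rotalg_rho : f (rho A z a b) = rho (f A) (f z) (f a) (f b) := by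
  simp only [rho, map_add, map_sub, map_mul, map_pow, rotalg_e2, rotalg_e0, rotalg_e1, rotalg_r0,
    rotalg_r1]

end maps

private theorem rotalg_trans {Ω : Type} [Field Ω] [CharZero Ω] [Algebra ℂ Ω]
    (D : Derivation ℂ Ω Ω) (A : Ω) (hA : D A = 1) (p : Polynomial ℂ)
    (hp : Polynomial.aeval A p = 0) : p = 0 := by
  by_contra hne
  have hi : IsIntegral ℂ A := isAlgebraic_iff_isIntegral.1 ⟨p, hne, hp⟩
  have h1 := IsAlgClosed.degree_eq_one_of_irreducible ℂ (minpoly.irreducible hi)
  obtain ⟨c, hc⟩ := minpoly.mem_range_of_degree_eq_one ℂ A h1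
  have h2 : D A = 0 := by
    rw [← hc]
    exact D.map_algebraMap c
  rw [hA] at h2
  exact one_ne_zero h2

/-- the eliminant vanishes -/
private theorem rotalg_elim {R : Type} [CommRing R] (A z P a b : R)
    (h1 : e2 A z * P ^ 2 + e1 A z a b * P + e0 A z a b = 0)
    (h2 : c3 A z * P ^ 3 + c2 A z a b * P ^ 2 + c1 A z a b * P + c0 A z a b = 0) :
    rho A z a b = 0 := by
  have h3 : r1 A z a b * P + r0 A z a b = 0 := by
    unfold r1 r0
    linear_combination (e2 A z) ^ 2 * h2 -
      (c3 A z * e2 A z * P + c2 A z a b * e2 A z - c3 A z * e1 A z a b) * h1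
  unfold rho
  linear_combination (r1 A z a b) ^ 2 * h1 +
    (e2 A z * (r0 A z a b - r1 A z a b * P) - e1 A z a b * r1 A z a b) * h3

/-- `z` is algebraic -/
private theorem rotalg_z {Ω : Type} [Field Ω] [CharZero Ω] [Algebra ℂ Ω] (D : Derivation ℂ Ω Ω)
    (A z : Ω) (hA : D A = 1) (a β : ℂ)
    (h : rho A z (algebraMap ℂ Ω a) (algebraMap ℂ Ω β) = 0) : IsAlgebraic ℂ⟮A⟯ z := by
  obtain ⟨A₀, z₀, h0⟩ := rho_ne a β
  set g : ℂ⟮A⟯ := AdjoinSimple.gen ℂ A with hg
  have hgA : algebraMap ℂ⟮A⟯ Ω g = A := AdjoinSimple.algebraMap_gen ℂ A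
  refine ⟨rho (Polynomial.C g) Polynomial.X (Polynomial.C (algebraMap ℂ ℂ⟮A⟯ a))
    (Polynomial.C (algebraMap ℂ ℂ⟮A⟯ β)), ?_, ?_⟩
  · intro hp
    have h1 := congrArg (Polynomial.evalRingHom (algebraMap ℂ ℂ⟮A⟯ z₀)) hp
    rw [rotalg_rho, map_zero] at h1
    simp only [Polynomial.coe_evalRingHom, Polynomial.eval_C, Polynomial.eval_X] at h1
    have h2 := congrArg (algebraMap ℂ⟮A⟯ Ω) h1
    rw [rotalg_rho, map_zero, hgA] at h2
    have h3 : Polynomial.aeval A (rho Polynomial.X (Polynomial.C z₀) (Polynomial.C a)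
        (Polynomial.C β)) = 0 := by
      have h4 := rotalg_rho ((Polynomial.aeval A : Polynomial ℂ →ₐ[ℂ] Ω) : Polynomial ℂ →+* Ω)
        Polynomial.X (Polynomial.C z₀) (Polynomial.C a) (Polynomial.C β)
      simp only [RingHom.coe_coe, Polynomial.aeval_X, Polynomial.aeval_C] at h4
      rw [h4]
      exact h2
    have h5 := rotalg_trans D A hA _ h3
    have h6 := congrArg (Polynomial.evalRingHom A₀) h5
    rw [rotalg_rho, map_zero] at h6
    simp only [Polynomial.coe_evalRingHom, Polynomial.eval_C, Polynomial.eval_X] at h6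
    exact h0 h6
  · have h4 := rotalg_rho ((Polynomial.aeval z : Polynomial ℂ⟮A⟯ →ₐ[ℂ⟮A⟯] Ω) :
      Polynomial ℂ⟮A⟯ →+* Ω) (Polynomial.C g) Polynomial.X
      (Polynomial.C (algebraMap ℂ ℂ⟮A⟯ a)) (Polynomial.C (algebraMap ℂ ℂ⟮A⟯ β))
    simp only [RingHom.coe_coe, Polynomial.aeval_X, Polynomial.aeval_C] at h4
    rw [h4, hgA]
    exact h

theorem rot_alg {Ω : Type} [Field Ω] [CharZero Ω] [Algebra ℂ Ω] (D : Derivation ℂ Ω Ω)
    (A z P V : Ω) (a β : ℂ) (h : Rot D A z P V a β) :
    IsAlgebraic ℂ⟮A⟯ z ∧ IsAlgebraic ℂ⟮A⟯ P := by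
  obtain ⟨hf, hg⟩ := rot_rel D A z P V a β h
  have hz := rotalg_z D A z h.dA a β (rotalg_elim A z P _ _ hf hg)
  refine ⟨hz, ?_⟩
  set K := algebraicClosure ℂ⟮A⟯ Ω with hK
  have hAK : A ∈ K := by
    rw [mem_algebraicClosure_iff]
    have h1 := isAlgebraic_algebraMap (A := Ω) (AdjoinSimple.gen ℂ A)
    rwa [AdjoinSimple.algebraMap_gen] at h1
  have hCK : ∀ c : ℂ, algebraMap ℂ Ω c ∈ K := by
    intro c
    exact K.algebraMap_mem (algebraMap ℂ ℂ⟮A⟯ c)
  have hzK : z ∈ K := mem_algebraicClosure_iff.2 hz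
  have hA0 : A ≠ 0 := by
    intro h0
    have h1 := h.dA
    rw [h0, map_zero] at h1
    exact zero_ne_one h1
  set AK : K := ⟨A, hAK⟩
  set zK : K := ⟨z, hzK⟩
  set aK : K := ⟨_, hCK a⟩
  set bK : K := ⟨_, hCK β⟩
  by_cases he : e2 A z = 0
  · -- the exceptional case
    have q0 : 2 * A ^ 2 - 3 * A * z + 3 * z ^ 2 = 0 := by
      have h1 : A * (2 * A ^ 2 - 3 * A * z + 3 * z ^ 2) = 0 := by
        unfold e2 at he
        linear_combination (1 / 72) * he
      exact (mul_eq_zero.1 h1).resolve_left hA0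
    have q1 : D z * (6 * z - 3 * A) = 3 * z - 4 * A := by
      have h1 : D (A ^ 2 + A ^ 2 - (A * z + A * z + A * z) + (z ^ 2 + z ^ 2 + z ^ 2)) = 0 := by
        rw [show A ^ 2 + A ^ 2 - (A * z + A * z + A * z) + (z ^ 2 + z ^ 2 + z ^ 2) =
          2 * A ^ 2 - 3 * A * z + 3 * z ^ 2 by ring, q0, map_zero]
      simp only [map_add, map_sub, Derivation.leibniz, Derivation.leibniz_pow, h.dA, smul_eq_mul,
        nsmul_eq_mul] at h1
      push_cast at h1
      linear_combination h1
    have q2 : A * D z = z := by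
      have h1 : (6 * z - 3 * A) * (A * D z - z) = 0 := by
        linear_combination A * q1 - 2 * q0
      rcases mul_eq_zero.1 h1 with h2 | h2
      · exfalso
        have h3 : A ^ 2 = 0 := by
          linear_combination (4 / 5) * q0 - (2 * z / 5 - A / 5) * h2
        exact hA0 (pow_eq_zero_iff (by norm_num) |>.1 h3)
      · linear_combination h2
    have hdz := rot_dz D A z P V a β h
    set a' := algebraMap ℂ Ω a
    set b' := algebraMap ℂ Ω β
    have q3 : P * (6 * A * (z - 3 * A)) = 3 * A * W0 A z a' b' - G0 A z a' b' := by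
      have h1 : z * (G0 A z a' b' + G1 A z * P) = z * (3 * A * (W0 A z a' b' + W1 A z * P)) := by
        linear_combination A * hdz - (G0 A z a' b' + G1 A z * P) * q2
      have h2 := mul_left_cancel₀ h.z0 h1
      unfold G1 W1 at h2
      linear_combination h2
    have q4 : 6 * A * (z - 3 * A) ≠ 0 := by
      intro h0
      have h1 : z - 3 * A = 0 := by
        rcases mul_eq_zero.1 h0 with h2 | h2
        · exfalso
          rcases mul_eq_zero.1 h2 with h3 | h3
          · norm_num at h3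
          · exact hA0 h3
        · exact h2
      have h3 : A ^ 2 = 0 := by
        linear_combination (1 / 20) * q0 - ((3 * z + 6 * A) / 20) * h1
      exact hA0 (pow_eq_zero_iff (by norm_num) |>.1 h3)
    have hN : 3 * A * W0 A z a' b' - G0 A z a' b' ∈ K := by
      have h1 := rotalg_W0 (algebraMap K Ω) AK zK aK bK
      have h2 := rotalg_G0 (algebraMap K Ω) AK zK aK bK
      have h3 : 3 * A * W0 A z a' b' - G0 A z a' b' =
          algebraMap K Ω (3 * AK * W0 AK zK aK bK - G0 AK zK aK bK) := by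
        rw [map_sub, map_mul, map_mul, h1, h2, map_ofNat]
        rfl
      rw [h3]
      exact (3 * AK * W0 AK zK aK bK - G0 AK zK aK bK).2
    have hDn : 6 * A * (z - 3 * A) ∈ K := (6 * AK * (zK - 3 * AK)).2
    have hPK : P ∈ K := by
      have h1 : P = (3 * A * W0 A z a' b' - G0 A z a' b') / (6 * A * (z - 3 * A)) := by
        rw [eq_div_iff q4]
        exact q3
      rw [h1]
      exact K.div_mem hN hDn
    exact mem_algebraicClosure_iff.1 hPK
  · -- `P` is a root of a quadratic polynomial over `K`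
    have k2 := rotalg_e2 (algebraMap K Ω) AK zK
    have k1 := rotalg_e1 (algebraMap K Ω) AK zK aK bK
    have k0 := rotalg_e0 (algebraMap K Ω) AK zK aK bK
    have halg : IsAlgebraic K P := by
      refine ⟨Polynomial.C (e2 AK zK) * Polynomial.X ^ 2 +
        Polynomial.C (e1 AK zK aK bK) * Polynomial.X + Polynomial.C (e0 AK zK aK bK), ?_, ?_⟩
      · intro h0
        have h1 := congrArg (fun p => Polynomial.coeff p 2) h0
        simp [Polynomial.coeff_X, Polynomial.coeff_C] at h1
        apply he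
        have h2 : e2 A z = algebraMap K Ω (e2 AK zK) := k2.symm
        rw [h2, h1, map_zero]
      · simp only [map_add, map_mul, map_pow, Polynomial.aeval_X, Polynomial.aeval_C, k2, k1, k0]
        exact hf
    have h1 : P ∈ algebraicClosure K Ω := mem_algebraicClosure_iff.2 halg
    rw [hK, algebraicClosure.algebraicClosure_eq_bot, IntermediateField.mem_bot] at h1
    obtain ⟨y, hy⟩ := h1
    rw [← hy]
    exact mem_algebraicClosure_iff.1 y.2

end Pool.Agent.Work.MP_abe657_gt.Two
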