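import Pool.Agent.Work.MP_abe657_gt.Two.Defs
import Pool.Agent.Work.MP_abe657_gt.HahnClosed

/-!
Definitions for the rotational case: the coefficients (found by computer algebra) of the two polynomial
relations between `A`, `z`, `P`, and the derivation `d/dA` on the Hahn field `kk`, `A = t⁻¹`.
-/

set_option autoImplicit false

namespace Pool.Agent.Work.MP_abe657_gt.Two

section poly

variable {R : Type} [CommRing R]

/-- coefficient of `P^0` in the first relation -/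
def e0 (A z a b : R) : R :=
  1020 * A ^ 6 * z ^ 3 - 1716 * A ^ 5 * z ^ 4 + 1184 * A ^ 4 * z ^ 5 - 192 * A ^ 4 * z ^ 3 * a
    + 168 * A ^ 4 * z * b - 368 * A ^ 3 * z ^ 6 + 152 * A ^ 3 * z ^ 4 * a
    - 440 * A ^ 3 * z ^ 2 * b + 36 * A ^ 2 * z ^ 7 - 36 * A ^ 2 * z ^ 5 * a
    + 9 * A ^ 2 * z ^ 3 * a ^ 2 + 288 * A ^ 2 * z ^ 3 * b - 12 * A ^ 2 * z * a * b
    + 4 * A * z ^ 8 - 4 * A * z ^ 6 * a + A * z ^ 4 * a ^ 2 - 64 * A * z ^ 4 * b
    + 28 * A * z ^ 2 * a * b + 16 * A * b ^ 2 - 8 * z ^ 5 * b + 4 * z ^ 3 * a * b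
    + 8 * z * b ^ 2

/-- coefficient of `P^1` in the first relation -/
def e1 (A z a b : R) : R :=
  504 * A ^ 5 * z - 1080 * A ^ 4 * z ^ 2 + 336 * A ^ 3 * z ^ 3 - 36 * A ^ 3 * z * a
    + 144 * A ^ 2 * z ^ 4 + 60 * A ^ 2 * z ^ 2 * a + 96 * A ^ 2 * b - 96 * A * z ^ 5
    + 36 * A * z ^ 3 * a - 48 * A * z * b + 72 * z ^ 2 * b

/-- coefficient of `P^2` in the first relation -/
def e2 (A z : R) : R := 144 * A ^ 3 - 216 * A ^ 2 * z + 216 * A * z ^ 2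

/-- `∂ e0/∂A` -/
def e0A (A z a b : R) : R :=
  6120 * A ^ 5 * z ^ 3 - 8580 * A ^ 4 * z ^ 4 + 4736 * A ^ 3 * z ^ 5 - 768 * A ^ 3 * z ^ 3 * a
    + 672 * A ^ 3 * z * b - 1104 * A ^ 2 * z ^ 6 + 456 * A ^ 2 * z ^ 4 * a
    - 1320 * A ^ 2 * z ^ 2 * b + 72 * A * z ^ 7 - 72 * A * z ^ 5 * a + 18 * A * z ^ 3 * a ^ 2
    + 576 * A * z ^ 3 * b - 24 * A * z * a * b + 4 * z ^ 8 - 4 * z ^ 6 * a + z ^ 4 * a ^ 2
    - 64 * z ^ 4 * b + 28 * z ^ 2 * a * b + 16 * b ^ 2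

/-- `∂ e0/∂z` -/
def e0z (A z a b : R) : R :=
  3060 * A ^ 6 * z ^ 2 - 6864 * A ^ 5 * z ^ 3 + 5920 * A ^ 4 * z ^ 4 - 576 * A ^ 4 * z ^ 2 * a
    + 168 * A ^ 4 * b - 2208 * A ^ 3 * z ^ 5 + 608 * A ^ 3 * z ^ 3 * a - 880 * A ^ 3 * z * b
    + 252 * A ^ 2 * z ^ 6 - 180 * A ^ 2 * z ^ 4 * a + 27 * A ^ 2 * z ^ 2 * a ^ 2
    + 864 * A ^ 2 * z ^ 2 * b - 12 * A ^ 2 * a * b + 32 * A * z ^ 7 - 24 * A * z ^ 5 * a
    + 4 * A * z ^ 3 * a ^ 2 - 256 * A * z ^ 3 * b + 56 * A * z * a * b - 40 * z ^ 4 * b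
    + 12 * z ^ 2 * a * b + 8 * b ^ 2

/-- `∂ e1/∂A` -/
def e1A (A z a b : R) : R :=
  2520 * A ^ 4 * z - 4320 * A ^ 3 * z ^ 2 + 1008 * A ^ 2 * z ^ 3 - 108 * A ^ 2 * z * a
    + 288 * A * z ^ 4 + 120 * A * z ^ 2 * a + 192 * A * b - 96 * z ^ 5 + 36 * z ^ 3 * a
    - 48 * z * b

/-- `∂ e1/∂z` -/
def e1z (A z a b : R) : R :=
  504 * A ^ 5 - 2160 * A ^ 4 * z + 1008 * A ^ 3 * z ^ 2 - 36 * A ^ 3 * a + 576 * A ^ 2 * z ^ 3
    + 120 * A ^ 2 * z * a - 480 * A * z ^ 4 + 108 * A * z ^ 2 * a - 48 * A * b + 144 * z * b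

/-- `∂ e2/∂A` -/
def e2A (A z : R) : R := 432 * A ^ 2 - 432 * A * z + 216 * z ^ 2

/-- `∂ e2/∂z` -/
def e2z (A z : R) : R := -216 * A ^ 2 + 432 * A * z

/-- `G = G0 + G1 P`, with `3 V = z G` -/
def G0 (A z a b : R) : R :=
  A * z ^ 2 * (a - 2 * z ^ 2 + 8 * A * z - 10 * A ^ 2) + 4 * (z - A) * b

/-- see `G0` -/
def G1 (A z : R) : R := 12 * A * (z - A)

/-- `W = W0 + W1 P`, with `D z * G = 3 z W` -/
def W0 (A z a b : R) : R := 2 * b + z * A * (a - 2 * z ^ 2 + 8 * A * z - 10 * A ^ 2)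

/-- see `W0` -/
def W1 (A z : R) : R := 2 * A + 2 * z

/-- coefficient of `P^0` in the second relation -/
def c0 (A z a b : R) : R :=
  G0 A z a b * (e0A A z a b - z * (z - A) * e1 A z a b) + 3 * z * W0 A z a b * e0z A z a b

/-- coefficient of `P^1` in the second relation -/
def c1 (A z a b : R) : R :=
  G1 A z * (e0A A z a b - z * (z - A) * e1 A z a b)
    + G0 A z a b * (e1A A z a b - 2 * z * (z - A) * e2 A z)
    + 3 * z * (W1 A z * e0z A z a b + W0 A z a b * e1z A z a b)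

/-- coefficient of `P^2` in the second relation -/
def c2 (A z a b : R) : R :=
  G1 A z * (e1A A z a b - 2 * z * (z - A) * e2 A z) + G0 A z a b * e2A A z
    + 3 * z * (W1 A z * e1z A z a b + W0 A z a b * e2z A z)

/-- coefficient of `P^3` in the second relation -/
def c3 (A z : R) : R := G1 A z * e2A A z + 3 * z * W1 A z * e2z A z

/-- remainder of the second relation modulo the first one, coefficient of `P` -/
def r1 (A z a b : R) : R :=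
  c3 A z * (e1 A z a b ^ 2 - e0 A z a b * e2 A z) - c2 A z a b * e1 A z a b * e2 A z
    + c1 A z a b * e2 A z ^ 2

/-- remainder of the second relation modulo the first one, constant coefficient -/
def r0 (A z a b : R) : R :=
  c3 A z * e0 A z a b * e1 A z a b - c2 A z a b * e0 A z a b * e2 A z
    + c0 A z a b * e2 A z ^ 2

/-- the eliminant of `P` -/
def rho (A z a b : R) : R :=
  e2 A z * r0 A z a b ^ 2 - e1 A z a b * r0 A z a b * r1 A z a b + e0 A z a b * r1 A z a b ^ 2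

end poly

/-! ### the Hahn field `kk` with `A = t⁻¹` -/

instance instClosedK : IsAlgClosed kk := hahn_isAlgClosed ℂ

/-- the element `A = t⁻¹` -/
noncomputable def tA : kk := (HahnSeries.single (-1 : ℚ) (1 : ℂ) : HahnSeries ℚ ℂ)

/-- the derivation `d/dA = -t² d/dt` -/
noncomputable def dA : Derivation ℂ kk kk := -(tk ^ 2 • dk)

/-- coefficient of `t^q` -/
noncomputable def co (x : kk) (q : ℚ) : ℂ := HahnSeries.coeff (Γ := ℚ) (R := ℂ) x q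

/-- `f = c A^e + ` terms with smaller exponents (`c = 0` allowed) -/
def Le (f : kk) (e : ℚ) (c : ℂ) : Prop := (∀ q : ℚ, q < -e → co f q = 0) ∧ co f (-e) = c

end Pool.Agent.Work.MP_abe657_gt.Two
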