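import Pool.Agent.Work.MP_abe657_gt.Two.RotDefs

/-!
Module RotR (M, polynomial identities). The two polynomial relations between `A`, `z`, `P`.

Proof. Let `G = G0 + G1 P`, `W = W0 + W1 P`. `v4` says `3 V = z G`; then `v5` gives `D z * G = 3 z W` (divide by
`z`). Apply `D` to `3 V = z G`: `D z G + z D G = 6 z (β + P (z - A))`, so `D G = 6 (β + P (z - A)) - 3 W`. Multiply
by `G`, and use `D G = G_A + G_z D z - G_P z (z - A)` (Leibniz rule, `dA`, `dP`) and `G D z = 3 z W`: the result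
is `G (G_A - z (z - A) G_P - 6 (β + P (z-A)) + 3 W) + 3 z W G_z = 0`, which is `e2 P² + e1 P + e0 = 0`.
Second relation: apply `D` to the first one and multiply by `G`; `D (e0 ..) = e0A + e0z D z` etc. (Leibniz rule;
`a`, `β` are constants), `D P = -z (z - A)`, `G D z = 3 z W`.
-/

set_option autoImplicit false

namespace Pool.Agent.Work.MP_abe657_gt.Two

private theorem rotr_v4 {Ω : Type} [Field Ω] [Algebra ℂ Ω] (D : Derivation ℂ Ω Ω)
    (A z P V : Ω) (a β : ℂ) (h : Rot D A z P V a β) :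
    3 * V = z * (G0 A z (algebraMap ℂ Ω a) (algebraMap ℂ Ω β) + G1 A z * P) := by
  rw [h.v4, G0, G1]
  ring

theorem rot_dz {Ω : Type} [Field Ω] [CharZero Ω] [Algebra ℂ Ω] (D : Derivation ℂ Ω Ω)
    (A z P V : Ω) (a β : ℂ) (h : Rot D A z P V a β) :
    D z * (G0 A z (algebraMap ℂ Ω a) (algebraMap ℂ Ω β) + G1 A z * P)
      = 3 * z * (W0 A z (algebraMap ℂ Ω a) (algebraMap ℂ Ω β) + W1 A z * P) := by
  have h4 := rotr_v4 D A z P V a β h
  have h5 : D z * V = z ^ 2 * (W0 A z (algebraMap ℂ Ω a) (algebraMap ℂ Ω β) + W1 A z * P) := by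
    rw [h.v5, W0, W1]
    ring
  apply mul_left_cancel₀ h.z0
  linear_combination 3 * h5 - D z * h4

private theorem rotr_num {Ω : Type} [Field Ω] [Algebra ℂ Ω] (D : Derivation ℂ Ω Ω)
    (n : ℕ) [n.AtLeastTwo] : D (ofNat(n) : Ω) = 0 := by
  rw [← Nat.cast_ofNat]
  exact D.map_natCast n

private theorem rotr_G0 {Ω : Type} [Field Ω] [Algebra ℂ Ω] (D : Derivation ℂ Ω Ω)
    (A z a b : Ω) (hA : D A = 1) (ha : D a = 0) (hb : D b = 0) :
    D (G0 A z a b) = (z ^ 2 * (a - 2 * z ^ 2 + 16 * A * z - 30 * A ^ 2) - 4 * b)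
      + (A * (2 * z * a - 8 * z ^ 3 + 24 * A * z ^ 2 - 20 * A ^ 2 * z) + 4 * b) * D z := by
  simp only [G0, map_add, map_sub, Derivation.leibniz, Derivation.leibniz_pow, rotr_num, hA, ha, hb,
    smul_eq_mul, nsmul_eq_mul]
  push_cast
  ring

private theorem rotr_G1 {Ω : Type} [Field Ω] [Algebra ℂ Ω] (D : Derivation ℂ Ω Ω)
    (A z : Ω) (hA : D A = 1) : D (G1 A z) = (12 * z - 24 * A) + 12 * A * D z := by
  simp only [G1, map_sub, Derivation.leibniz, rotr_num, hA, smul_eq_mul]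
  ring

private theorem rotr_e0 {Ω : Type} [Field Ω] [Algebra ℂ Ω] (D : Derivation ℂ Ω Ω)
    (A z a b : Ω) (hA : D A = 1) (ha : D a = 0) (hb : D b = 0) :
    D (e0 A z a b) = e0A A z a b + e0z A z a b * D z := by
  simp only [e0, map_add, map_sub, Derivation.leibniz, Derivation.leibniz_pow, rotr_num, hA, ha, hb,
    smul_eq_mul, nsmul_eq_mul, e0A, e0z]
  push_cast
  ring

private theorem rotr_e1 {Ω : Type} [Field Ω] [Algebra ℂ Ω] (D : Derivation ℂ Ω Ω)
    (A z a b : Ω) (hA : D A = 1) (ha : D a = 0) (hb : D b = 0) :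
    D (e1 A z a b) = e1A A z a b + e1z A z a b * D z := by
  simp only [e1, map_add, map_sub, Derivation.leibniz, Derivation.leibniz_pow, rotr_num, hA, ha, hb,
    smul_eq_mul, nsmul_eq_mul, e1A, e1z]
  push_cast
  ring

private theorem rotr_e2 {Ω : Type} [Field Ω] [Algebra ℂ Ω] (D : Derivation ℂ Ω Ω)
    (A z : Ω) (hA : D A = 1) : D (e2 A z) = e2A A z + e2z A z * D z := by
  simp only [e2, map_add, map_sub, Derivation.leibniz, Derivation.leibniz_pow, rotr_num, hA,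
    smul_eq_mul, nsmul_eq_mul, e2A, e2z]
  push_cast
  ring

theorem rot_rel {Ω : Type} [Field Ω] [CharZero Ω] [Algebra ℂ Ω] (D : Derivation ℂ Ω Ω)
    (A z P V : Ω) (a β : ℂ) (h : Rot D A z P V a β) :
    e2 A z * P ^ 2 + e1 A z (algebraMap ℂ Ω a) (algebraMap ℂ Ω β) * P
      + e0 A z (algebraMap ℂ Ω a) (algebraMap ℂ Ω β) = 0 ∧
    c3 A z * P ^ 3 + c2 A z (algebraMap ℂ Ω a) (algebraMap ℂ Ω β) * P ^ 2
      + c1 A z (algebraMap ℂ Ω a) (algebraMap ℂ Ω β) * P
      + c0 A z (algebraMap ℂ Ω a) (algebraMap ℂ Ω β) = 0 := by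
  have h4 := rotr_v4 D A z P V a β h
  have hz := rot_dz D A z P V a β h
  have ha : D (algebraMap ℂ Ω a) = 0 := D.map_algebraMap a
  have hb : D (algebraMap ℂ Ω β) = 0 := D.map_algebraMap β
  generalize algebraMap ℂ Ω a = a' at h4 hz ha ⊢
  have hV := h.dV
  generalize algebraMap ℂ Ω β = b' at h4 hz hb hV ⊢
  have hA := h.dA
  have hP := h.dP
  have hG0 := rotr_G0 D A z a' b' hA ha hb
  have hG1 := rotr_G1 D A z hA
  have h6 : D (3 * V) = 6 * z * (b' + P * (z - A)) := by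
    rw [Derivation.leibniz, rotr_num, hV, smul_eq_mul, smul_eq_mul]
    ring
  have h7 : D (3 * V) = D z * (G0 A z a' b' + G1 A z * P) +
      z * (D (G0 A z a' b') + D (G1 A z) * P + G1 A z * D P) := by
    rw [h4]
    simp only [map_add, Derivation.leibniz, smul_eq_mul]
    ring
  have h8 : D (G0 A z a' b') + D (G1 A z) * P + G1 A z * D P =
      6 * (b' + P * (z - A)) - 3 * (W0 A z a' b' + W1 A z * P) := by
    apply mul_left_cancel₀ h.z0
    linear_combination h6 - h7 - hz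
  have r1 : e2 A z * P ^ 2 + e1 A z a' b' * P + e0 A z a' b' = 0 := by
    rw [hG0, hG1, hP] at h8
    generalize D z = w at h8 hz
    simp only [G0, G1, W0, W1] at h8 hz
    simp only [e0, e1, e2]
    linear_combination (A * z ^ 2 * (a' - 2 * z ^ 2 + 8 * A * z - 10 * A ^ 2) + 4 * (z - A) * b' +
        12 * A * (z - A) * P) * h8 -
      (A * (2 * z * a' - 8 * z ^ 3 + 24 * A * z ^ 2 - 20 * A ^ 2 * z) + 4 * b' + 12 * A * P) * hz
  refine ⟨r1, ?_⟩
  have h9 : D (e2 A z * P ^ 2 + e1 A z a' b' * P + e0 A z a' b') = 0 := by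
    rw [r1, map_zero]
  simp only [map_add, Derivation.leibniz, Derivation.leibniz_pow, smul_eq_mul, nsmul_eq_mul,
    rotr_e0 D A z a' b' hA ha hb, rotr_e1 D A z a' b' hA ha hb, rotr_e2 D A z hA, hP] at h9
  push_cast at h9
  simp only [c3, c2, c1, c0]
  linear_combination (G0 A z a' b' + G1 A z * P) * h9 -
    (e2z A z * P ^ 2 + e1z A z a' b' * P + e0z A z a' b') * hz

end Pool.Agent.Work.MP_abe657_gt.Two
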